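import Pool.Agent.Lib.MP_c37a72_al.NI.NIS

/-!
# MP_c37a72_al, block KC: from the constancy package to `K_2` (Specs)

Result: `K_2` is a field, `C(K_2) ≤ M_2` (so `IsMK D M2 K2`), and the description of the homomorphisms
`κ : K_2 → Ω` by `H`-automorphisms of `A` (KTH), from which the structure `KPk` of `LP/Base.lean` follows
(`KC/KPA.lean`, helper14).

Module `XXX` is the file `Pool/Agent/Lib/MP_c37a72_al/KC/XXX.lean`, which imports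
`Pool.Agent.Lib.MP_c37a72_al.KC.Spec`, with `theorem specXXX (hYYY : SpecYYY) .. : SpecXXX` in the namespace
`Pool.Agent.Lib.MP_c37a72_al.KC`; every Spec of this file, of `CO/Spec.lean`, `EG/Spec.lean`, `LB/Spec.lean`
and `SpecH.lean` may be taken as a hypothesis (all of them are proved: `CO/All.lean`, `EG/All.lean`,
`LB/All.lean`); own lemmas in the namespace `Pool.Agent.Lib.MP_c37a72_al.KC.XXXM`. (`SpecDCT` exists in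
`CO` and in `LB`: write `CO.SpecDCT`.)

Notation: `Δ h = h₁ ⊗ h₂`, `x ◁ h = adrQ h x` on `O'' = Opp`, `a ◁ h = ρ h a` on `A = AA`; `ψ_x := (id ⊗ x) ψ`
for `x : P → Ω`; `m = [O'' : Z] = dim A`; COP of `CO/Spec.lean`: every `k`-linear endomorphism of `A` is
`a ↦ ∑ ρ(h_j)(a) b_j` (`CPkg` implies `CO.CPre` and contains `span`).
-/

set_option autoImplicit false

open scoped TensorProduct
open Coalgebra HopfAlgebra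
open Pool.Agent.Lib.MP_c37a72_al.EG Pool.Agent.Lib.MP_c37a72_al.CO Pool.Agent.Lib.MP_c37a72_al.LB

namespace Pool.Agent.Lib.MP_c37a72_al.KC

universe u v w

/-! ## Part 1: the module algebra `A` -/

/-- **AIV** (100 lines). Invariants of `H` in `A ⊗ Ω`.

PROOF. `ρ(h) 1 = ε(h) 1`: `psiH` with `x = 1` (`adrQ h 1 = ε(h)`, EG.SpecADA), `a ↦ a ⊗ 1` is injective.
`A ≠ 0`: `dim A = [O'' : Z] ≥ 1`. `ψ` is injective: `O''` is a division ring (EG.SpecOPP), `ψ 1 = 1 ≠ 0`.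
Last: write `v = ∑ a_i ⊗ ω_i` with `k`-independent `ω_i`; then `ρ(h) a_i = ε(h) a_i` for all `h`. COP for
`φ(b) = f(b) 1`, `f` a linear functional with `f(1) = 1`: `φ(a_i) = ∑_j ρ(h_j)(a_i) b_j = a_i ∑ ε(h_j) b_j` and
`φ(1) = ∑ ε(h_j) b_j = 1`, so `a_i = f(a_i) 1`. -/
def SpecAIV : Prop :=
  ∀ (k : Type u) (H Z Q : Type v) [Field k] [Ring H] [HopfAlgebra k H] [Field Z] [Algebra k Z]
    [DivisionRing Q] [Algebra k Q] [Algebra Z Q] [IsScalarTower k Z Q] (ι : H →ₐ[k] Q)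
    (AA : Type w) (P : Type v) [Ring AA] [Algebra k AA] [Field P] [Algebra k P] [Algebra Z P]
    [IsScalarTower k Z P] (ρ : H →ₗ[k] Module.End k AA) (ψ : ↥(Opp k Z ι) →ₐ[k] AA ⊗[k] P)
    (θ : (P ≃ₐ[Z] P) → (AA ≃ₐ[k] AA)), IsCQ k H Z Q ι → CPkg k Z ι ρ ψ θ →
    (∀ h : H, ρ h 1 = counit (R := k) h • (1 : AA)) ∧ Nontrivial AA ∧ Function.Injective ψ ∧
    ∀ (Ω : Type v) [Field Ω] [Algebra k Ω] (v : AA ⊗[k] Ω),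
      (∀ h : H, rX ρ Ω h v = counit (R := k) h • v) → ∃ ω : Ω, v = 1 ⊗ₜ[k] ω

/-- **THG** (150 lines). `θ` is an antihomomorphism, and `A^θ = k`.

PROOF. `a ↦ a ⊗ 1` is injective, `ψ(O'')(1 ⊗ P)` spans `A ⊗ P`. `θ_1 ⊗ id` and `id` agree on `ψ(O'')`, and are
`P`-linear. `(id ⊗ γ'γ)ψ = (id ⊗ γ')(θ_γ ⊗ id)ψ = (θ_γ ⊗ id)(id ⊗ γ')ψ = (θ_γ θ_γ' ⊗ id)ψ`. Last: let
`θ_γ a = a` for all `γ`, `x_l` a `Z`-basis of `O''`; `ψ(x_l)` is a `P`-basis of `A ⊗ P` (span and dimension).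
`a ⊗ 1 = ∑ ψ(x_l)(1 ⊗ p_l)`. Apply `id ⊗ γ`: `a ⊗ 1 = ∑ (θ_γ ⊗ id)(ψ(x_l))(1 ⊗ γ p_l)`, and then
`θ_γ⁻¹ ⊗ id`: `a ⊗ 1 = ∑ ψ(x_l)(1 ⊗ γ p_l)`. So `γ p_l = p_l` for all `γ`, `p_l ∈ Z` (Galois), and
`a ⊗ 1 = ψ(x)`, `x ∈ O''`. `a` is algebraic over `k` (`dim A < ∞`), `ψ` is injective (`O''` is a division ring):
`x` is algebraic over the algebraically closed `k` in the division ring `Q`: `x ∈ k`, `a ∈ k`. -/
def SpecTHG : Prop :=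
  ∀ (k : Type u) (H Z Q : Type v) [Field k] [IsAlgClosed k] [Ring H] [HopfAlgebra k H] [Field Z]
    [Algebra k Z] [DivisionRing Q] [Algebra k Q] [Algebra Z Q] [IsScalarTower k Z Q]
    (ι : H →ₐ[k] Q)
    (AA : Type w) (P : Type v) [Ring AA] [Algebra k AA] [Field P] [Algebra k P] [Algebra Z P]
    [IsScalarTower k Z P] (ρ : H →ₗ[k] Module.End k AA) (ψ : ↥(Opp k Z ι) →ₐ[k] AA ⊗[k] P)
    (θ : (P ≃ₐ[Z] P) → (AA ≃ₐ[k] AA)), IsCQ k H Z Q ι → CPkg k Z ι ρ ψ θ →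
    (∀ a, θ 1 a = a) ∧ (∀ γ γ' a, θ (γ' * γ) a = θ γ (θ γ' a)) ∧
    ∀ a, (∀ γ, θ γ a = a) → ∃ c : k, algebraMap k AA c = a

/-- **IND** (120 lines). Distinct `H`-equivariant algebra endomorphisms of `A` are independent over `A`
(coefficients on the right).

PROOF. `THEM.indep` of `CO/THE.lean` (import it) reduces this to independence over `k` (COP). Let
`∑ λ_i e_i = 0`, `λ ≠ 0`, with minimal support; choose `i_0` in the support. The other `e_i` of the support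
are `k`-independent. `∑ λ_i e_i(a b) = 0` and `(∑ λ_i e_i(a)) e_{i_0}(b) = 0`; the difference is
`∑_{i ≠ i_0} e_i(a) λ_i (e_i(b) - e_{i_0}(b)) = 0` for all `a`: by `THEM.indep` for these `e_i`,
`e_i(b) = e_{i_0}(b)` for all `b`, a contradiction to injectivity of `e` (unless the support is `{i_0}`, and
then `e_{i_0} = 0`, but `e_{i_0}(1) = 1 ≠ 0`, AIV). -/
def SpecIND : Prop :=
  ∀ (k : Type u) (H Z Q : Type v) [Field k] [Ring H] [HopfAlgebra k H] [Field Z] [Algebra k Z]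
    [DivisionRing Q] [Algebra k Q] [Algebra Z Q] [IsScalarTower k Z Q] (ι : H →ₐ[k] Q)
    (AA : Type w) (P : Type v) [Ring AA] [Algebra k AA] [Field P] [Algebra k P] [Algebra Z P]
    [IsScalarTower k Z P] (ρ : H →ₗ[k] Module.End k AA) (ψ : ↥(Opp k Z ι) →ₐ[k] AA ⊗[k] P)
    (θ : (P ≃ₐ[Z] P) → (AA ≃ₐ[k] AA)), IsCQ k H Z Q ι → CPkg k Z ι ρ ψ θ →
    ∀ (r : ℕ) (e : Fin r → (AA →ₐ[k] AA)), (∀ i h a, e i (ρ h a) = ρ h (e i a)) →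
      Function.Injective e → ∀ c : Fin r → AA, (∀ a, ∑ i, e i a * c i = 0) → ∀ i, c i = 0

/-- **HAU** (250 lines). The trace form and `Aut_H(A) = {θ_γ}`.

PROOF. `T(b) := ∑_γ θ_γ(b)`. By THG `θ_γ' T(b) = T(b)` (`γ ↦ γ γ'` is a bijection of the group), so
`T(b) ∈ k 1` (THG). The form `(b, c) ↦ T(b c) ∈ k`: if `T(b c) = 0` for all `b` then
`∑_γ θ_γ(b) θ_γ(c) = 0` for all `b`; collect equal automorphisms: `∑_{e ∈ im θ} ν_e e(b) e(c) = 0`, `ν_e ≥ 1`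
the multiplicity, so `ν_e e(c) = 0` by IND, `c = 0` (`CharZero`). So the form is nondegenerate
(`A` is finite-dimensional): take a basis `y_i` of `A` and `x_i` with `T(y_j x_i) = δ_ij`; then
`c = ∑ x_i T(y_i c)` and `c = ∑ T(c x_i) y_i` for all `c`. Last: `e(c) = ∑_i T(c x_i) e(y_i)
= ∑_γ θ_γ(c) ∑_i θ_γ(x_i) e(y_i)`. If `e ≠ θ_γ` for all `γ` then IND for the distinct endomorphisms
`e` and the `e' ∈ im θ` gives a contradiction (the coefficient of `e` is `1 ≠ 0`). -/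
def SpecHAU : Prop :=
  ∀ (k : Type u) (H Z Q : Type v) [Field k] [IsAlgClosed k] [CharZero k] [Ring H]
    [HopfAlgebra k H] [Field Z] [Algebra k Z] [DivisionRing Q] [Algebra k Q] [Algebra Z Q]
    [IsScalarTower k Z Q] (ι : H →ₐ[k] Q)
    (AA : Type w) (P : Type v) [Ring AA] [Algebra k AA] [Field P] [Algebra k P] [Algebra Z P]
    [IsScalarTower k Z P] (ρ : H →ₗ[k] Module.End k AA) (ψ : ↥(Opp k Z ι) →ₐ[k] AA ⊗[k] P)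
    (θ : (P ≃ₐ[Z] P) → (AA ≃ₐ[k] AA)) [Fintype (P ≃ₐ[Z] P)], IsCQ k H Z Q ι →
    CPkg k Z ι ρ ψ θ →
    (∀ b : AA, ∃ t : k, ∑ γ, θ γ b = algebraMap k AA t) ∧
    (∃ (N : ℕ) (x y : Fin N → AA), ∀ c, ∑ i, x i * ∑ γ, θ γ (y i * c) = c) ∧
    ∀ e : AA →ₐ[k] AA, (∀ h a, e (ρ h a) = ρ h (e a)) → ∃ γ, ∀ a, e a = θ γ a

/-- **JNI** (120 lines). Joint injectivity of `(c, a) ↦ θ_γ(c) a`.

PROOF. `c_p := ∑_l v_l (1 ⊗ ω l p)`. Hypothesis: `∑_p (θ_γ ⊗ 1)(c_p) v'_p = 0` for all `γ`. HAU base changed to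
`Ω` (linearity in the second factor): for `b ∈ A ⊗ Ω` one has `∑_γ (θ_γ ⊗ 1)(b) = 1 ⊗ T_Ω(b)`, and
`∑_i (x_i ⊗ 1)(1 ⊗ T_Ω((y_i ⊗ 1) c)) = c`. Now `∑_p (1 ⊗ T_Ω((y_i ⊗ 1) c_p)) v'_p
= ∑_γ (θ_γ(y_i) ⊗ 1) ∑_p (θ_γ ⊗ 1)(c_p) v'_p = 0`, and `1 ⊗ T_Ω(..)` is central, so `T_Ω((y_i ⊗ 1) c_p) = 0` by
independence of the `v'_p`; hence `c_p = 0`, and `ω l p = 0` by independence of the `v_l`. -/
def SpecJNI : Prop :=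
  ∀ (k : Type u) (P Z Ω : Type v) (AA : Type w) [Field k] [Field Z] [Field P] [Algebra Z P]
    [Field Ω] [Algebra k Ω] [Ring AA] [Algebra k AA] (θ : (P ≃ₐ[Z] P) → (AA ≃ₐ[k] AA))
    [Fintype (P ≃ₐ[Z] P)],
    (∀ b : AA, ∃ t : k, ∑ γ, θ γ b = algebraMap k AA t) →
    (∃ (N : ℕ) (x y : Fin N → AA), ∀ c, ∑ i, x i * ∑ γ, θ γ (y i * c) = c) →
    ∀ (m : ℕ) (v v' : Fin m → AA ⊗[k] Ω),
      (∀ ω : Fin m → Ω, ∑ l, v l * (1 ⊗ₜ[k] ω l) = 0 → ∀ l, ω l = 0) →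
      (∀ ω : Fin m → Ω, ∑ l, v' l * (1 ⊗ₜ[k] ω l) = 0 → ∀ l, ω l = 0) →
      ∀ ω : Fin m → Fin m → Ω,
        (∀ γ, ∑ l, ∑ p, eX Ω (θ γ : AA →ₐ[k] AA) (v l) * v' p * (1 ⊗ₜ[k] ω l p) = 0) →
        ∀ l p, ω l p = 0

/-- **BET** (120 lines). `H`-equivariant `Ω`-algebra endomorphisms of `A ⊗ Ω` are defined over `k`.

PROOF. As SpecTHE, steps (2) - (4): `CO/THE.lean` (import it) has the general lemmas `THEM.coords`,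
`THEM.indep`, `THEM.scal` for `P ⊗ AA` with an arbitrary field `P` (here `Ω`); exchange the factors by
`TensorProduct.comm`, COP for `THEM.indep`. So `β(a ⊗ 1) = ∑ e_s(a) ⊗ q_s` with `q_s ∈ k`, which is
`e(a) ⊗ 1`; `e` is multiplicative, unital, `H`-equivariant since `a ↦ a ⊗ 1` is injective. -/
def SpecBET : Prop :=
  ∀ (k : Type u) (H Z Q : Type v) [Field k] [IsAlgClosed k] [Ring H] [HopfAlgebra k H] [Field Z]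
    [Algebra k Z] [DivisionRing Q] [Algebra k Q] [Algebra Z Q] [IsScalarTower k Z Q]
    (ι : H →ₐ[k] Q)
    (AA : Type w) (P : Type v) [Ring AA] [Algebra k AA] [Field P] [Algebra k P] [Algebra Z P]
    [IsScalarTower k Z P] (ρ : H →ₗ[k] Module.End k AA) (ψ : ↥(Opp k Z ι) →ₐ[k] AA ⊗[k] P)
    (θ : (P ≃ₐ[Z] P) → (AA ≃ₐ[k] AA)), IsCQ k H Z Q ι → CPkg k Z ι ρ ψ θ →
    ∀ (Ω : Type v) [Field Ω] [Algebra k Ω] (β : AA ⊗[k] Ω →ₗ[k] AA ⊗[k] Ω),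
      (∀ (v : AA ⊗[k] Ω) (ω : Ω), β (v * (1 ⊗ₜ[k] ω)) = β v * (1 ⊗ₜ[k] ω)) →
      (∀ v v', β (v * v') = β v * β v') → β 1 = 1 →
      (∀ (h : H) v, β (rX ρ Ω h v) = rX ρ Ω h (β v)) →
      ∃ e : AA →ₐ[k] AA, (∀ h a, e (ρ h a) = ρ h (e a)) ∧ ∀ v, β v = eX Ω e v

/-- **PSB** (120 lines). `ψ_x(o_l)` is an `Ω`-basis of `A ⊗ Ω`, for every `x : P → Ω`.

PROOF. The `ψ(o_l)` span `A ⊗ P` over `P` (`span`, `psiZ`), so the `ψ_x(o_l)` span `A ⊗ Ω` over `Ω`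
(`a ⊗ ω = xX x (a ⊗ 1)(1 ⊗ ω)`); there are `m = dim_k A = dim_Ω (A ⊗ Ω)` of them (`dim`), so they are
independent. (`Ω`-dimension: use `Ω ⊗ A` and `Module.finrank_baseChange`, or a `k`-basis of `A`.) -/
def SpecPSB : Prop :=
  ∀ (k : Type u) (H Z Q : Type v) [Field k] [Ring H] [HopfAlgebra k H] [Field Z] [Algebra k Z]
    [DivisionRing Q] [Algebra k Q] [Algebra Z Q] [IsScalarTower k Z Q] (ι : H →ₐ[k] Q)
    (AA : Type w) (P : Type v) [Ring AA] [Algebra k AA] [Field P] [Algebra k P] [Algebra Z P]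
    [IsScalarTower k Z P] (ρ : H →ₗ[k] Module.End k AA) (ψ : ↥(Opp k Z ι) →ₐ[k] AA ⊗[k] P)
    (θ : (P ≃ₐ[Z] P) → (AA ≃ₐ[k] AA)), IsCQ k H Z Q ι → CPkg k Z ι ρ ψ θ →
    ∀ (Ω : Type v) [Field Ω] [Algebra k Ω] (x : P →ₐ[k] Ω) (m : ℕ)
      (o : Module.Basis (Fin m) Z ↥(Opp k Z ι)),
      (∀ ω : Fin m → Ω, ∑ l, xX AA x (ψ (o l)) * (1 ⊗ₜ[k] ω l) = 0 → ∀ l, ω l = 0) ∧
      ∀ v : AA ⊗[k] Ω, ∃ ω : Fin m → Ω, v = ∑ l, xX AA x (ψ (o l)) * (1 ⊗ₜ[k] ω l)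

/-! ## Part 2: the commutant `Rcom`, and `K_2` -/

/-- **RCT** (200 lines). `Rcom ⊆ O'' ⊗ O'`, and its elements are `H`-invariant.

PROOF. (1) `tau` is the tensor product of two injective `k`-linear maps. (2) `y ∈ Rcom`, write
`y = ∑ a_l ⊗ b_l`, `b_l` `k`-independent: `y` commutes with `x ⊗ 1`, `x ∈ O_l`, so `a_l ∈ O''`. Now write
`y = ∑ a_i ⊗ b_i` with `a_i ∈ O''` `k`-independent: `b_i ∈ C(O_r) = O' = sQ(O'')` (ADS, `sQ` is bijective).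
So `y = tau w`. (3) For `y = ∑ a ⊗ b ∈ Rcom` (`Δ(S g) = S(g₂) ⊗ S(g₁)`, SpecHAN):
`∑ (a ◁ g₂) ⊗ (S(g₁) ▷ b) = S(g₃) a g₄ ⊗ S(g₂) b S(S(g₁)) = Δ(S(g₂)) y (g₃ ⊗ S(S(g₁)))
= y Δ(S(g₂))(g₃ ⊗ S(S(g₁))) = y (S(g₃) g₄ ⊗ S(g₂) S(S(g₁))) = y (1 ⊗ S(S(g₁) g₂)) = ε(g) y`
(this is DES (4) backwards). With `b = sQ(c)`: `S(g₁) ▷ sQ(c) = sQ(c ◁ g₁)` (ADS), so
`tau (∑ (R(g₂) ⊗ R(g₁)) w) = ε(g) tau w`, and `tau` is injective. -/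
def SpecRCT : Prop :=
  ∀ (k : Type u) (H Z Q : Type v) [Field k] [Ring H] [HopfAlgebra k H] [Field Z] [Algebra k Z]
    [DivisionRing Q] [Algebra k Q] [Algebra Z Q] [IsScalarTower k Z Q] (ι : H →ₐ[k] Q)
    (sQ : Q →ₗ[k] Q) (sZ : Z ≃ₐ[k] Z) (R : H →ₗ[k] Module.End Z ↥(Opp k Z ι)),
    IsCQ k H Z Q ι → Function.Bijective (antipode k (A := H)) → IsSQ k Z ι sQ sZ → IsRO k Z ι R →
    Function.Injective (tau k Z ι sQ) ∧ ∀ y ∈ Rcom k Z ι, ∃ w, tau k Z ι sQ w = y ∧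
      ∀ (h : H) (n : ℕ) (p q : Fin n → H), comul (R := k) h = ∑ i, p i ⊗ₜ[k] q i →
        ∑ i, TensorProduct.map ((R (q i)).restrictScalars k) ((R (p i)).restrictScalars k) w =
          counit (R := k) h • w

/-- **MGM** (250 lines). The characters `M_e` of `Rcom`.

PROOF. `y ∈ Rcom`, `y = tau w` (RCT, `w` unique). `N(w) := Nm x y e w = ∑ eψ_y(c) ψ_x(a)` for `w = ∑ a ⊗ c`.
`ρ(h) N(w) = ∑ ρ(h₁)(eψ_y(c)) ρ(h₂)(ψ_x(a)) = ∑ eψ_y(c ◁ h₁) ψ_x(a ◁ h₂) = N((R(h₂) ⊗ R(h₁)) w) = ε(h) N(w)`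
(`ralg`, `psiH`, `e` equivariant, RCT). So `N(w) = 1 ⊗ M(y)` by AIV. `M` is linear, `M(1) = 1`
(`1 = tau (1 ⊗ 1)`), multiplicative: `w = ∑ a ⊗ c`, `w' = ∑ a' ⊗ c'`,
`tau w tau w' = ∑ a a' ⊗ sQ(c) sQ(c') = tau (∑ a a' ⊗ c' c)`, and `N(∑ a a' ⊗ c' c)
= ∑ eψ_y(c') eψ_y(c) ψ_x(a) ψ_x(a') = ∑ eψ_y(c')(1 ⊗ M(tau w)) ψ_x(a') = (1 ⊗ M(tau w)) N(w')`. -/
def SpecMGM : Prop :=
  ∀ (k : Type u) (H Z Q : Type v) [Field k] [Ring H] [HopfAlgebra k H] [Field Z] [Algebra k Z]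
    [DivisionRing Q] [Algebra k Q] [Algebra Z Q] [IsScalarTower k Z Q] (ι : H →ₐ[k] Q)
    (sQ : Q →ₗ[k] Q) (sZ : Z ≃ₐ[k] Z)
    (AA : Type w) (P : Type v) [Ring AA] [Algebra k AA] [Field P] [Algebra k P] [Algebra Z P]
    [IsScalarTower k Z P] (ρ : H →ₗ[k] Module.End k AA) (ψ : ↥(Opp k Z ι) →ₐ[k] AA ⊗[k] P)
    (θ : (P ≃ₐ[Z] P) → (AA ≃ₐ[k] AA)), IsCQ k H Z Q ι →
    Function.Bijective (antipode k (A := H)) → IsSQ k Z ι sQ sZ → CPkg k Z ι ρ ψ θ →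
    ∀ (Ω : Type v) [Field Ω] [Algebra k Ω] (x y : P →ₐ[k] Ω) (e : AA →ₐ[k] AA),
      (∀ h a, e (ρ h a) = ρ h (e a)) →
      ∃ M : ↥(Rcom k Z ι) →ₐ[k] Ω, ∀ w (hw : tau k Z ι sQ w ∈ Rcom k Z ι),
        Nm k Z ι ψ x y e w = 1 ⊗ₜ[k] M ⟨tau k Z ι sQ w, hw⟩

/-- **MIN** (200 lines). The `Nm x y θ_γ` are jointly injective, if `x`, `y` are independent on `Z`.

PROOF. `o_l` a `Z`-basis of `O''`. Every `w ∈ O'' ⊗_k O''` is `∑_{p, l} ∑_s (z_s o_p) ⊗ (z'_s o_l)`, given by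
elements `ζ_pl = ∑ z_s ⊗ z'_s ∈ Z ⊗ Z` (as in CO.SpecBAS; `O'' ⊗ O''` is free over `Z ⊗ Z` on the
`o_p ⊗ o_l`). `Nm x y θ_γ (w) = ∑_{p, l} (θ_γ ⊗ 1)(ψ_y(o_l)) ψ_x(o_p)(1 ⊗ i(ζ_pl))` with
`i(z ⊗ z') = x(z) y(z')` (`psiZ`). By PSB and JNI (with HAU) all `i(ζ_pl) = 0`, so `ζ_pl = 0`, `w = 0`. -/
def SpecMIN : Prop :=
  ∀ (k : Type u) (H Z Q : Type v) [Field k] [IsAlgClosed k] [CharZero k] [Ring H]
    [HopfAlgebra k H] [Field Z] [Algebra k Z] [DivisionRing Q] [Algebra k Q] [Algebra Z Q]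
    [IsScalarTower k Z Q] (ι : H →ₐ[k] Q)
    (AA : Type w) (P : Type v) [Ring AA] [Algebra k AA] [Field P] [Algebra k P] [Algebra Z P]
    [IsScalarTower k Z P] (ρ : H →ₗ[k] Module.End k AA) (ψ : ↥(Opp k Z ι) →ₐ[k] AA ⊗[k] P)
    (θ : (P ≃ₐ[Z] P) → (AA ≃ₐ[k] AA)), IsCQ k H Z Q ι → CPkg k Z ι ρ ψ θ →
    ∀ (Ω : Type v) [Field Ω] [Algebra k Ω] (x y : P →ₐ[k] Ω) (i : Z ⊗[k] Z →ₐ[k] Ω),
      Function.Injective i →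
      (∀ z z', i (z ⊗ₜ[k] z') = x (algebraMap Z P z) * y (algebraMap Z P z')) →
      ∀ w, (∀ γ, Nm k Z ι ψ x y (θ γ : AA →ₐ[k] AA) w = 0) → w = 0

/-- **KCL** (150 lines). `K_2 = F_2 Rcom`.

PROOF. (1) `y ∈ Rcom` commutes with `O_l ⊗ 1` and with `Δ(H) = D(ι H)` (`IsR2.D_ι`; `dd` and `dQ` are the
same map), so with `D(q)`, `q = ι(c)⁻¹ ι(h)` (`IsCQ.frac`; `D(ι c)` is a unit): `j y` commutes with the
generators of `M2`. (2) `v ∈ K2`: `jF(t) v = j(y)`, `t ≠ 0` (`IsCL.surj`). `j` is injective and `j y` commutes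
with `j(O_l ⊗ 1)`, `D(ι h) = j(Δ h)`, and with `j(1 ⊗ O_r)`, because `1 ⊗ O_r ⊆ M2`: for `b ∈ O_r` take
`E_r` (E0X) and `b = ∑ z_i e_i`, `e_i ∈ E_r` (`IsEr`), `j(1 ⊗ e_i) ∈ M2` by M2D. So `y ∈ Rcom`. -/
def SpecKCL : Prop :=
  ∀ (k : Type u) (H Z Q F2 R2 : Type v) [Field k] [Ring H] [IsDomain H] [HopfAlgebra k H]
    [Field Z] [Algebra k Z] [DivisionRing Q] [Algebra k Q] [Algebra Z Q] [IsScalarTower k Z Q]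
    [Field F2] [Algebra k F2] [Ring R2] [Algebra k R2] [Algebra F2 R2] [IsScalarTower k F2 R2]
    (ι : H →ₐ[k] Q) (jF : Z ⊗[k] Z →ₐ[k] F2) (j : Q ⊗[k] Q →ₐ[k] R2) (D : Q →ₐ[k] R2),
    IsCQ k H Z Q ι → IsR2 ι jF j D → Function.Bijective (antipode k (A := H)) →
    (∀ y ∈ Rcom k Z ι, j y ∈ K2 Z F2 ι j D) ∧
    ∀ v ∈ K2 Z F2 ι j D, ∃ (t : Z ⊗[k] Z) (y : Q ⊗[k] Q), t ≠ 0 ∧ y ∈ Rcom k Z ι ∧
      algebraMap F2 R2 (jF t) * v = j y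

/-- **FLD** (250 lines). `K_2` is a field.

PROOF. `Ω := Frac(P ⊗_k P)` (`P ⊗ P` is a domain: `noZeroDivisors_tensor`, `Gauss.lean`), `x(p) = p ⊗ 1`,
`y(p) = 1 ⊗ p`; `i(z ⊗ z') = z ⊗ z'` is injective. For `σ ∈ Gal(P/Z)` let `t : Ω → Ω` be induced by
`σ ⊗ id`: `t x = x σ`, `t y = y`. By `thP` and commutation of `θ_σ ⊗ 1` with products:
`(id ⊗ t) Nm x y e w = ∑ eψ_y(c) ψ_{xσ}(a) = ∑ eψ_y(c) θ_σψ_x(a) = θ_σ (Nm x y (θ_σ⁻¹ e) w)`. Let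
`M := M_id` (MGM). If `M(y) = 0`, `y = tau w ∈ Rcom`, then for every `γ`, with `σ = γ⁻¹` (`θ_σ⁻¹ = θ_γ`, THG):
`Nm x y θ_γ w = 0`, so `w = 0` by MIN. So `M : Rcom → Ω` is injective: `Rcom` is commutative without zero
divisors. By KCL `K2` is commutative without zero divisors (`F2` is central, `j` injective), and finite over
`F2` (R2S): every `v ≠ 0` is invertible in `K2`. (`sQ, sZ`: CO.SpecSQX; `R`: CO.SpecRES.) -/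
def SpecFLD : Prop :=
  ∀ (k : Type u) (H Z Q F2 R2 : Type v) [Field k] [IsAlgClosed k] [CharZero k] [Ring H]
    [IsDomain H] [HopfAlgebra k H]
    [Field Z] [Algebra k Z] [DivisionRing Q] [Algebra k Q] [Algebra Z Q] [IsScalarTower k Z Q]
    [Field F2] [Algebra k F2] [Ring R2] [Algebra k R2] [Algebra F2 R2] [IsScalarTower k F2 R2]
    (ι : H →ₐ[k] Q) (jF : Z ⊗[k] Z →ₐ[k] F2) (j : Q ⊗[k] Q →ₐ[k] R2) (D : Q →ₐ[k] R2)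
    (AA : Type w) (P : Type v) [Ring AA] [Algebra k AA] [Field P] [Algebra k P] [Algebra Z P]
    [IsScalarTower k Z P] (ρ : H →ₗ[k] Module.End k AA) (ψ : ↥(Opp k Z ι) →ₐ[k] AA ⊗[k] P)
    (θ : (P ≃ₐ[Z] P) → (AA ≃ₐ[k] AA)),
    IsCQ k H Z Q ι → IsR2 ι jF j D → Function.Bijective (antipode k (A := H)) →
    CPkg k Z ι ρ ψ θ → IsField (K2 Z F2 ι j D)

/-! ## Part 3: `C(K_2) ≤ M_2` -/

/-- **DKG** (150 lines). `[K_2 : F_2] ≥ m`.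

PROOF. `r` as in `IsRD` (CO.SpecDES). For `h = 1`: `j(1 ⊗ sQ(o_l)) = ∑_i j(r_i(o_l)) j(o_i ⊗ 1)`. So
`j(o_p ⊗ sQ(o_l)) = j(1 ⊗ sQ(o_l)) j(o_p ⊗ 1) = ∑_i j(r_i(o_l)) j(o_i o_p ⊗ 1)` is in
`∑_s K2 j(o_s ⊗ 1)` (`o_i o_p = ∑ z_s o_s`, `z_s ⊗ 1 ∈ F2`, KCL), an `F2`-space of dimension at most
`m [K2 : F2]`. The `m²` elements `j(o_p ⊗ sQ(o_l))` are `F2`-independent: `o_p` and `sQ(o_l)` are
`Z`-independent families of `Q` (`sQ(z q) = sZ(z) sQ(q)`), complete them to `Z`-bases of `Q`,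
`IsCL.ind_iZ` (DR2.lean). So `m² ≤ m [K2 : F2]`, `m ≥ 1`. -/
def SpecDKG : Prop :=
  ∀ (k : Type u) (H Z Q F2 R2 : Type v) [Field k] [Ring H] [IsDomain H] [HopfAlgebra k H]
    [Field Z] [Algebra k Z] [DivisionRing Q] [Algebra k Q] [Algebra Z Q] [IsScalarTower k Z Q]
    [Field F2] [Algebra k F2] [Ring R2] [Algebra k R2] [Algebra F2 R2] [IsScalarTower k F2 R2]
    (ι : H →ₐ[k] Q) (jF : Z ⊗[k] Z →ₐ[k] F2) (j : Q ⊗[k] Q →ₐ[k] R2) (D : Q →ₐ[k] R2),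
    IsCQ k H Z Q ι → IsR2 ι jF j D → Function.Bijective (antipode k (A := H)) →
    Module.finrank Z ↥(Opp k Z ι) ≤ Module.finrank F2 ↥(K2 Z F2 ι j D)

/-- **DM2** (150 lines). `[R_2 : F_2] ≤ m [M_2 : F_2]`.

PROOF. `Q` is a right vector space over the division ring `O_l` (EG.SpecOLF), `q_1, .., q_n` a basis, so
`[Q : Z] = n [O_l : Z]`, and `[Q : Z] ≤ [O_l : Z] m` by CO.SpecDCT: `n ≤ m`. Every `r ∈ R2` satisfies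
`jF(t) r = Phi(x)`, `x = ∑ a ⊗ b` (`Phi_surj`, DR2.lean), `Phi(a ⊗ b) = j(a ⊗ 1) D(b)`, `a = ∑ q_i o_i`,
`o_i ∈ O_l`: `r ∈ ∑_i j(q_i ⊗ 1) M2`, the image of the `F2`-linear map `M2^n → R2`,
`(m_i) ↦ ∑ j(q_i ⊗ 1) m_i`. -/
def SpecDM2 : Prop :=
  ∀ (k : Type u) (H Z Q F2 R2 : Type v) [Field k] [Ring H] [IsDomain H] [HopfAlgebra k H]
    [Field Z] [Algebra k Z] [DivisionRing Q] [Algebra k Q] [Algebra Z Q] [IsScalarTower k Z Q]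
    [Field F2] [Algebra k F2] [Ring R2] [Algebra k R2] [Algebra F2 R2] [IsScalarTower k F2 R2]
    (ι : H →ₐ[k] Q) (jF : Z ⊗[k] Z →ₐ[k] F2) (j : Q ⊗[k] Q →ₐ[k] R2) (D : Q →ₐ[k] R2),
    IsCQ k H Z Q ι → IsR2 ι jF j D →
    Module.finrank F2 R2 ≤
      Module.finrank Z ↥(Opp k Z ι) * Module.finrank F2 ↥(M2 Z F2 ι j D)

/-- **DCD** (200 lines). Dimension of the centraliser of a subfield of a central simple algebra.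

PROOF. As in `LB/DCT.lean` (steps (1) - (3) of its docstring; import it if its lemmas are usable): `e_m` an
`F`-basis of `R`; every `F`-linear `φ : R → R` is `x ↦ ∑ φ_m x e_m` for unique `φ_m ∈ R` (JD), and `φ` is
`K`-linear (left multiplications by `K`) iff all `φ_m ∈ C(K)`. So `End_K(R) ≅ C(K)^r` as `F`-spaces,
`r = [R : F]`. With `n = [K : F]`, `r = n s` (`s = dim_K R`) and `dim_F End_K(R) = n s²`:
`n s² = r [C(K) : F] = n s [C(K) : F]`, so `[C(K) : F] = s`. -/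
def SpecDCD : Prop :=
  ∀ (F R : Type v) [Field F] [Ring R] [Algebra F R] [Module.Finite F R] [IsSimpleRing R],
    (∀ c : R, (∀ x : R, x * c = c * x) → ∃ a : F, algebraMap F R a = c) →
    ∀ K : Subalgebra F R, IsField K →
      Module.finrank F (Subalgebra.centralizer F (K : Set R)) * Module.finrank F K =
        Module.finrank F R

/-- **CDM** (60 lines). `C(K_2) ≤ M_2`.

PROOF. `M2 ≤ C(K2)`; by DCD, R2S, DKG, DM2: `[C(K2) : F2] [K2 : F2] = [R2 : F2] ≤ m [M2 : F2]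
≤ [K2 : F2] [M2 : F2]`, so `[C(K2) : F2] ≤ [M2 : F2]` and `C(K2) = M2`. -/
def SpecCDM : Prop :=
  ∀ (k : Type u) (H Z Q F2 R2 : Type v) [Field k] [Ring H] [IsDomain H] [HopfAlgebra k H]
    [Field Z] [Algebra k Z] [DivisionRing Q] [Algebra k Q] [Algebra Z Q] [IsScalarTower k Z Q]
    [Field F2] [Algebra k F2] [Ring R2] [Algebra k R2] [Algebra F2 R2] [IsScalarTower k F2 R2]
    (ι : H →ₐ[k] Q) (jF : Z ⊗[k] Z →ₐ[k] F2) (j : Q ⊗[k] Q →ₐ[k] R2) (D : Q →ₐ[k] R2),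
    IsCQ k H Z Q ι → IsR2 ι jF j D → Function.Bijective (antipode k (A := H)) →
    IsField (K2 Z F2 ι j D) →
    ∀ c : R2, (∀ x ∈ K2 Z F2 ι j D, x * c = c * x) → c ∈ M2 Z F2 ι j D

/-! ## Part 4: homomorphisms `κ : K_2 → Ω` -/

/-- **ALK** (250 lines). The coefficients `al_i(c) = κ(r_i(c))` define an `H`-equivariant homomorphism
`O'' → Ω ⊗_x O''`, `c ↦ ∑ al_i(c) o_i`.

PROOF. As CO/ALP.lean (its lemmas `ALPM.expL`, `expR`, `cent_mem`, ... may be imported); write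
`χ(y) = κ(j y)` on `Rcom`, `χ(z ⊗ z') = x(z) y(z')`. UNI: the coefficients of the `o_s ⊗ 1` in
`∑ r_s (o_s ⊗ 1)`, `r_s ∈ Rcom`, are unique. (1) `r_i(c + c') = r_i(c) + r_i(c')`,
`r_i(z c) = (1 ⊗ sZ z) r_i(c)` (from `1 ⊗ sQ(z c) = (1 ⊗ sZ z)(1 ⊗ sQ c)`). (2)
`1 ⊗ sQ(c c') = (1 ⊗ sQ(c'))(1 ⊗ sQ(c)) = ∑_b r_b(c')(o_b ⊗ 1)(1 ⊗ sQ(c)) = ∑_b r_b(c')(1 ⊗ sQ(c))(o_b ⊗ 1)
= ∑_{a, b} r_b(c') r_a(c)(o_a o_b ⊗ 1)`, so `r_s(c c') = ∑_{a, b} r_b(c') r_a(c)((o_a o_b)_s ⊗ 1)`. (3)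
`r_s(1) = (1)_s ⊗ 1`. (4) `1 ⊗ sQ(c ◁ h) = ∑_t r_t(c)((o_t ◁ h) ⊗ 1)`, so
`r_s(c ◁ h) = ∑_t r_t(c)((o_t ◁ h)_s ⊗ 1)`. Apply `χ`. -/
def SpecALK : Prop :=
  ∀ (k : Type u) (H Z Q F2 R2 : Type v) [Field k] [Ring H] [HopfAlgebra k H]
    [Field Z] [Algebra k Z] [DivisionRing Q] [Algebra k Q] [Algebra Z Q] [IsScalarTower k Z Q]
    [Field F2] [Algebra k F2] [Ring R2] [Algebra k R2] [Algebra F2 R2] [IsScalarTower k F2 R2]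
    (ι : H →ₐ[k] Q) (jF : Z ⊗[k] Z →ₐ[k] F2) (j : Q ⊗[k] Q →ₐ[k] R2) (D : Q →ₐ[k] R2)
    (sQ : Q →ₗ[k] Q) (sZ : Z ≃ₐ[k] Z) (R : H →ₗ[k] Module.End Z ↥(Opp k Z ι)) (m : ℕ)
    (o : Module.Basis (Fin m) Z ↥(Opp k Z ι)) (r : Fin m → ↥(Opp k Z ι) → Q ⊗[k] Q),
    IsCQ k H Z Q ι → IsR2 ι jF j D → IsSQ k Z ι sQ sZ → IsRO k Z ι R → IsRD k Z ι sQ o r →
    ∀ (Ω : Type v) [Field Ω] [Algebra k Ω] (κ : ↥(K2 Z F2 ι j D) →ₐ[k] Ω) (x y : Z →ₐ[k] Ω),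
      (∀ a b, κ (algebraMap F2 ↥(K2 Z F2 ι j D) (jF (a ⊗ₜ[k] b))) = x a * y b) →
      (∀ y' ∈ Rcom k Z ι, j y' ∈ K2 Z F2 ι j D) →
      ∀ al : Fin m → ↥(Opp k Z ι) → Ω,
        (∀ i c (h : j (r i c) ∈ K2 Z F2 ι j D), al i c = κ ⟨j (r i c), h⟩) →
        (∀ i c c', al i (c + c') = al i c + al i c') ∧
        (∀ i z c, al i (z • c) = y (sZ z) * al i c) ∧
        (∀ s c c', al s (c * c') = ∑ a, ∑ b, x (o.repr (o a * o b) s) * (al a c * al b c')) ∧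
        (∀ s, al s 1 = x (o.repr 1 s)) ∧
        ∀ s h c, al s (R h c) = ∑ t, x (o.repr (R h (o t)) s) * al t c

/-- **KDT** (150 lines). `κ` is determined by the `κ(r_i(c))`.

PROOF. Let `v ∈ K2`, `jF(t) v = j(y0)`, `y0 ∈ Rcom` (KCL), `y0 = tau w`, `w = ∑ a_l ⊗ c_l` (RCT). Then
`y0 = ∑_l (1 ⊗ sQ(c_l))(a_l ⊗ 1) = ∑_s (∑_{l, i} r_i(c_l)((o_i a_l)_s ⊗ 1))(o_s ⊗ 1)` and, with `1 = ∑ u_s o_s`,
`y0 = y0 (1 ⊗ 1) = ∑_s y0 (u_s ⊗ 1)(o_s ⊗ 1)`. By UNI `y0 (u_s ⊗ 1) = ∑_{l, i} r_i(c_l)((o_i a_l)_s ⊗ 1)`; choose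
`s` with `u_s ≠ 0` (`1 ≠ 0`). So `x(u_s) κ(j y0) = ∑ κ(r_i(c_l)) x(..)` is the same for `κ'`, and
`κ(jF(t)) ≠ 0` is the same, so `κ(v) = κ'(v)`. -/
def SpecKDT : Prop :=
  ∀ (k : Type u) (H Z Q F2 R2 : Type v) [Field k] [Ring H] [IsDomain H] [HopfAlgebra k H]
    [Field Z] [Algebra k Z] [DivisionRing Q] [Algebra k Q] [Algebra Z Q] [IsScalarTower k Z Q]
    [Field F2] [Algebra k F2] [Ring R2] [Algebra k R2] [Algebra F2 R2] [IsScalarTower k F2 R2]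
    (ι : H →ₐ[k] Q) (jF : Z ⊗[k] Z →ₐ[k] F2) (j : Q ⊗[k] Q →ₐ[k] R2) (D : Q →ₐ[k] R2)
    (sQ : Q →ₗ[k] Q) (sZ : Z ≃ₐ[k] Z) (m : ℕ)
    (o : Module.Basis (Fin m) Z ↥(Opp k Z ι)) (r : Fin m → ↥(Opp k Z ι) → Q ⊗[k] Q),
    IsCQ k H Z Q ι → IsR2 ι jF j D → Function.Bijective (antipode k (A := H)) →
    IsSQ k Z ι sQ sZ → IsRD k Z ι sQ o r →
    ∀ (Ω : Type v) [Field Ω] [Algebra k Ω] (κ κ' : ↥(K2 Z F2 ι j D) →ₐ[k] Ω),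
      (∀ f : F2, κ (algebraMap F2 ↥(K2 Z F2 ι j D) f) = κ' (algebraMap F2 ↥(K2 Z F2 ι j D) f)) →
      (∀ i c (h : j (r i c) ∈ K2 Z F2 ι j D), κ ⟨j (r i c), h⟩ = κ' ⟨j (r i c), h⟩) → κ = κ'

/-- **KTH** (250 lines). The `H`-automorphism of `A` attached to `κ` and lifts `xh`, `yh` of `x`, `y sZ`.

PROOF. `ψ_x := (id ⊗ xh) ψ`, `ψ_y := (id ⊗ yh) ψ`; `ψ_y(o_p)`, `ψ_x(o_p)` are `Ω`-bases of `A ⊗ Ω` (PSB).
Let `β : A ⊗ Ω → A ⊗ Ω` be the `Ω`-linear map with `β(ψ_y(o_p)) = ∑_i ψ_x(o_i)(1 ⊗ al_i(o_p))`,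
`al_i(c) = κ(r_i(c))`. By ALK (additivity and `al_i(z c) = y(sZ z) al_i(c) = yh(z) al_i(c)`) and `psiZ`:
`β(ψ_y(c)) = ∑_i ψ_x(o_i)(1 ⊗ al_i(c))` for all `c ∈ O''`. `β` is multiplicative on the `ψ_y(c)` (ALK (3) and
`ψ_x(o_a) ψ_x(o_b) = ψ_x(o_a o_b) = ∑_s ψ_x(o_s)(1 ⊗ x((o_a o_b)_s))`), so everywhere; unital (ALK (4));
`H`-equivariant (ALK (5), `psiH`, `IsRO.coe`). BET: `β = e ⊗ 1`, and `e = θ_γ` by HAU. -/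
def SpecKTH : Prop :=
  ∀ (k : Type u) (H Z Q F2 R2 : Type v) [Field k] [IsAlgClosed k] [CharZero k] [Ring H]
    [IsDomain H] [HopfAlgebra k H]
    [Field Z] [Algebra k Z] [DivisionRing Q] [Algebra k Q] [Algebra Z Q] [IsScalarTower k Z Q]
    [Field F2] [Algebra k F2] [Ring R2] [Algebra k R2] [Algebra F2 R2] [IsScalarTower k F2 R2]
    (ι : H →ₐ[k] Q) (jF : Z ⊗[k] Z →ₐ[k] F2) (j : Q ⊗[k] Q →ₐ[k] R2) (D : Q →ₐ[k] R2)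
    (sQ : Q →ₗ[k] Q) (sZ : Z ≃ₐ[k] Z) (m : ℕ)
    (o : Module.Basis (Fin m) Z ↥(Opp k Z ι)) (r : Fin m → ↥(Opp k Z ι) → Q ⊗[k] Q)
    (AA : Type w) (P : Type v) [Ring AA] [Algebra k AA] [Field P] [Algebra k P] [Algebra Z P]
    [IsScalarTower k Z P] (ρ : H →ₗ[k] Module.End k AA) (ψ : ↥(Opp k Z ι) →ₐ[k] AA ⊗[k] P)
    (θ : (P ≃ₐ[Z] P) → (AA ≃ₐ[k] AA)),
    IsCQ k H Z Q ι → IsR2 ι jF j D → Function.Bijective (antipode k (A := H)) →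
    IsSQ k Z ι sQ sZ → IsRD k Z ι sQ o r → CPkg k Z ι ρ ψ θ →
    ∀ (Ω : Type v) [Field Ω] [Algebra k Ω] (κ : ↥(K2 Z F2 ι j D) →ₐ[k] Ω) (x y : Z →ₐ[k] Ω),
      (∀ a b, κ (algebraMap F2 ↥(K2 Z F2 ι j D) (jF (a ⊗ₜ[k] b))) = x a * y b) →
      ∀ xh yh : P →ₐ[k] Ω, (∀ z, xh (algebraMap Z P z) = x z) →
        (∀ z, yh (algebraMap Z P z) = y (sZ z)) →
        ∃ γ, ∀ (c : ↥(Opp k Z ι)) (al : Fin m → Ω),
          (∀ i (h : j (r i c) ∈ K2 Z F2 ι j D), al i = κ ⟨j (r i c), h⟩) →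
          ∑ i, xX AA xh (ψ (o i)) * (1 ⊗ₜ[k] al i) = eX Ω (θ γ : AA →ₐ[k] AA) (xX AA yh (ψ c))

end Pool.Agent.Lib.MP_c37a72_al.KC
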