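import Pool.Agent.Lib.MP_c37a72_al.CO.Spec
import Pool.Agent.Lib.MP_c37a72_al.EG.COO
import Pool.Agent.Lib.MP_c37a72_al.KC.Spec

section
/-!
# MP_c37a72_al, block CO, module ADS: `sQ` exchanges the two sides
-/
set_option autoImplicit false

open scoped TensorProduct
open Coalgebra HopfAlgebra
open Pool.Agent.Lib.MP_c37a72_al.EG

namespace Pool.Agent.Lib.MP_c37a72_al.CO

universe u v w

namespace ADSM

lemma exists_repr (k : Type u) {H : Type v} [Field k] [Ring H] [HopfAlgebra k H] (h : H) :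
    ∃ (n : ℕ) (x y : Fin n → H), comul (R := k) h = ∑ i, x i ⊗ₜ[k] y i := by
  generalize comul (R := k) h = t
  induction t with
  | zero => exact ⟨0, Fin.elim0, Fin.elim0, by simp⟩
  | tmul a b => exact ⟨1, fun _ => a, fun _ => b, by simp⟩
  | add s t hs ht =>
    obtain ⟨n, x, y, e⟩ := hs
    obtain ⟨m, x', y', e'⟩ := ht
    refine ⟨n + m, Fin.append x x', Fin.append y y', ?_⟩
    rw [e, e', Fin.sum_univ_add]
    simp

lemma comul_S (hHAN : SpecHAN.{u, v}) {k : Type u} {H : Type v} [Field k] [Ring H]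
    [HopfAlgebra k H] {n : ℕ} {h : H} {x y : Fin n → H}
    (e : comul (R := k) h = ∑ i, x i ⊗ₜ[k] y i) :
    comul (R := k) (antipode k h) = ∑ i, antipode k (y i) ⊗ₜ[k] antipode k (x i) := by
  rw [hHAN k H h, e, map_sum, map_sum]
  simp

lemma fin_iff {k : Type u} {H Q : Type v} [Field k] [AddCommGroup Q] [Module k Q] (s : Q →ₗ[k] Q)
    (hs : Function.Injective s) (σ : H → H) (hσ : Function.Surjective σ) (f g : H → Q)
    (e : ∀ h, s (f h) = g (σ h)) :
    Module.Finite k (Submodule.span k (Set.range f)) ↔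
      Module.Finite k (Submodule.span k (Set.range g)) := by
  have h1 : Submodule.span k (Set.range g) = (Submodule.span k (Set.range f)).map s := by
    rw [Submodule.map_span, ← Set.range_comp, ← hσ.range_comp g]
    congr 2
    funext h
    exact (e h).symm
  rw [h1]
  exact Module.Finite.equiv_iff (Submodule.equivMapOfInjective s hs _)

end ADSM

open ADSM in
theorem specADS (hHAN : SpecHAN.{u, v}) (hOLF : EG.SpecOLF.{u, v}) : SpecADS.{u, v} := by
  intro k H Z Q _ _ _ _ _ _ _ _ _ ι sQ sZ hQ hb hS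
  obtain ⟨hl, hr, -⟩ := hOLF k H Z Q ι hQ
  have h1 : ∀ (h : H) (q : Q), sQ (adrQ k Z ι h q) = adlQ k Z ι (antipode k h) (sQ q) := by
    intro h q
    obtain ⟨n, x, y, e⟩ := exists_repr k h
    rw [adrQ_eq k Z ι e, adlQ_eq k Z ι (comul_S hHAN e), map_sum]
    refine Finset.sum_congr rfl fun i _ => ?_
    rw [hS.mul, hS.mul, hS.ext, hS.ext, mul_assoc]
  have h2 : ∀ (h : H) (q : Q), sQ (adlQ k Z ι h q) = adrQ k Z ι (antipode k h) (sQ q) := by
    intro h q
    obtain ⟨n, x, y, e⟩ := exists_repr k h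
    rw [adlQ_eq k Z ι e, adrQ_eq k Z ι (comul_S hHAN e), map_sum]
    refine Finset.sum_congr rfl fun i _ => ?_
    rw [hS.mul, hS.mul, hS.ext, hS.ext, mul_assoc]
  have h3 : ∀ q : Q, sQ q ∈ Or k Z ι ↔ q ∈ Ol k Z ι := by
    intro q
    rw [hl, hr]
    exact (fin_iff sQ hS.bij.1 _ hb.2 _ _ fun h => h2 h q).symm
  have h4 : ∀ q : Q, sQ q ∈ Ol k Z ι ↔ q ∈ Or k Z ι := by
    intro q
    rw [hl, hr]
    exact (fin_iff sQ hS.bij.1 _ hb.2 _ _ fun h => h1 h q).symm
  have h5 : ∀ (A B : Subalgebra Z Q), (∀ q : Q, sQ q ∈ A ↔ q ∈ B) → ∀ q : Q,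
      (sQ q ∈ Subalgebra.centralizer Z (A : Set Q) ↔
        q ∈ Subalgebra.centralizer Z (B : Set Q)) := by
    intro A B hAB q
    rw [Subalgebra.mem_centralizer_iff, Subalgebra.mem_centralizer_iff]
    constructor
    · intro h g hg
      apply hS.bij.1
      rw [hS.mul, hS.mul]
      exact (h _ ((hAB g).2 hg)).symm
    · intro h g hg
      obtain ⟨g', rfl⟩ := hS.bij.2 g
      rw [← hS.mul, ← hS.mul, h g' ((hAB g').1 hg)]
  exact ⟨h1, h2, h3, h4, h5 _ _ h3, h5 _ _ h4⟩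

end Pool.Agent.Lib.MP_c37a72_al.CO
end

section
/-!
# MP_c37a72_al, block CO: module ALP
-/
set_option autoImplicit false
set_option linter.all false

open scoped TensorProduct
open Coalgebra HopfAlgebra
open Pool.Agent.Lib.MP_c37a72_al.EG

namespace Pool.Agent.Lib.MP_c37a72_al.CO

universe u v w

namespace ALPM

section

variable {k : Type u} {H Z Q : Type v} [Field k] [Ring H] [HopfAlgebra k H] [Field Z]
  [Algebra k Z] [DivisionRing Q] [Algebra k Q] [Algebra Z Q] [IsScalarTower k Z Q] {ι : H →ₐ[k] Q}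

theorem comm_dd {y : Q ⊗[k] Q} (hy : y ∈ Rcom k Z ι) (h : H) :
    y * dd k ι h = dd k ι h * y := by
  have h1 := (Subalgebra.mem_centralizer_iff k).mp hy (dd k ι h) (Or.inr ⟨h, rfl⟩)
  exact h1.symm

theorem cent_mem {y : Q ⊗[k] Q} (hy : ∀ x : Q ⊗[k] Q, y * x = x * y) : y ∈ Rcom k Z ι := by
  refine (Subalgebra.mem_centralizer_iff k).mpr ?_
  intro g _
  exact (hy g).symm

/-- expansion of `x ⊗ 1` -/
theorem expL {m : ℕ} (o : Module.Basis (Fin m) Z ↥(Opp k Z ι)) (x : ↥(Opp k Z ι)) :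
    ((x : Q) ⊗ₜ[k] (1 : Q) : Q ⊗[k] Q) =
      ∑ s, zz k Z Q (o.repr x s ⊗ₜ[k] 1) * ((o s : Q) ⊗ₜ[k] (1 : Q)) := by
  have h1 : (x : Q) = ∑ s, algebraMap Z Q (o.repr x s) * (o s : Q) := by
    have h2 := congrArg (fun y : ↥(Opp k Z ι) => (y : Q)) (o.sum_repr x)
    rw [← h2]
    simp only [AddSubmonoidClass.coe_finsetSum]
    refine Finset.sum_congr rfl fun s _ => ?_
    rw [← Algebra.smul_def]
    rfl
  conv_lhs => rw [h1, TensorProduct.sum_tmul]
  refine Finset.sum_congr rfl fun s _ => ?_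
  rw [zz_tmul, Algebra.TensorProduct.tmul_mul_tmul, map_one, one_mul]

/-- expansion of `1 ⊗ sQ x` -/
theorem expR {sQ : Q →ₗ[k] Q} {sZ : Z ≃ₐ[k] Z} (hs : IsSQ k Z ι sQ sZ) {m : ℕ}
    (hcz : ∀ (z : Z) (q : Q), algebraMap Z Q z * q = q * algebraMap Z Q z)
    (o : Module.Basis (Fin m) Z ↥(Opp k Z ι)) (x : ↥(Opp k Z ι)) :
    ((1 : Q) ⊗ₜ[k] sQ (x : Q) : Q ⊗[k] Q) =
      ∑ t, zz k Z Q (1 ⊗ₜ[k] sZ (o.repr x t)) * ((1 : Q) ⊗ₜ[k] sQ (o t : Q)) := by
  have h1 : (x : Q) = ∑ s, algebraMap Z Q (o.repr x s) * (o s : Q) := by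
    have h2 := congrArg (fun y : ↥(Opp k Z ι) => (y : Q)) (o.sum_repr x)
    rw [← h2]
    simp only [AddSubmonoidClass.coe_finsetSum]
    refine Finset.sum_congr rfl fun s _ => ?_
    rw [← Algebra.smul_def]
    rfl
  have h3 : sQ (x : Q) = ∑ t, algebraMap Z Q (sZ (o.repr x t)) * sQ (o t : Q) := by
    conv_lhs => rw [h1, map_sum]
    refine Finset.sum_congr rfl fun s _ => ?_
    rw [hs.mul, hs.zz, hcz]
  rw [h3, TensorProduct.tmul_sum]
  refine Finset.sum_congr rfl fun s _ => ?_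
  rw [zz_tmul, Algebra.TensorProduct.tmul_mul_tmul, map_one, one_mul]

end

end ALPM

open ALPM in
/-- **ALP** -/
theorem specALP (hDES : SpecDES.{u, v}) (hUNI : SpecUNI.{u, v}) (hBAS : SpecBAS.{u, v}) :
    SpecALP.{u, v} := by
  intro k H Z Q _ _ _ _ _ _ _ _ _ ι sQ sZ R hQ hS hs hR Ω _ _ i χ hi hχ m o
  have := hQ.fin
  obtain ⟨r, hr, hr2⟩ := hDES k H Z Q ι sQ sZ hQ hS hs m o
  obtain ⟨-, -, hcent, hint⟩ := hBAS k Z Q _ (Module.finBasis Z Q)
  have hcz : ∀ (z : Z) (q : Q), algebraMap Z Q z * q = q * algebraMap Z Q z :=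
    fun z q => Algebra.commutes z q
  -- elements of the commutant
  let rr : Fin m → ↥(Opp k Z ι) → ↥(Rcom k Z ι) := fun s c => ⟨r s c, hr s c⟩
  let ZZ : Z ⊗[k] Z → ↥(Rcom k Z ι) := fun d => ⟨zz k Z Q d, cent_mem (hcent d)⟩
  have hZZ : ∀ d, χ (ZZ d) = i d := fun d => hχ d _
  have huniq : ∀ f g : Fin m → ↥(Rcom k Z ι),
      ∑ s, (f s : Q ⊗[k] Q) * ((o s : Q) ⊗ₜ[k] (1 : Q)) =
        ∑ s, (g s : Q ⊗[k] Q) * ((o s : Q) ⊗ₜ[k] (1 : Q)) → ∀ s, f s = g s := by
    intro f g hfg s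
    have h1 := hUNI k H Z Q ι hQ m o (fun s => ((f s - g s : ↥(Rcom k Z ι)) : Q ⊗[k] Q))
      (fun s h => comm_dd (f s - g s).2 h) (by
        have h2 : ∀ s, ((f s - g s : ↥(Rcom k Z ι)) : Q ⊗[k] Q) * ((o s : Q) ⊗ₜ[k] (1 : Q)) =
            (f s : Q ⊗[k] Q) * ((o s : Q) ⊗ₜ[k] (1 : Q)) -
              (g s : Q ⊗[k] Q) * ((o s : Q) ⊗ₜ[k] (1 : Q)) := by
          intro s
          rw [← sub_mul]
          rfl
        rw [Finset.sum_congr rfl fun s _ => h2 s, Finset.sum_sub_distrib, hfg, sub_self]) s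
    have h3 : f s - g s = 0 := Subtype.ext h1
    exact sub_eq_zero.mp h3
  have hexp : ∀ (h : H) (c : ↥(Opp k Z ι)),
      ∑ t, (rr t c : Q ⊗[k] Q) * (((R h (o t) : ↥(Opp k Z ι)) : Q) ⊗ₜ[k] (1 : Q)) =
        1 ⊗ₜ[k] sQ ((R h c : ↥(Opp k Z ι)) : Q) := by
    intro h c
    rw [hR.coe h c, ← hr2 h c]
    refine Finset.sum_congr rfl fun t _ => ?_
    rw [hR.coe h (o t)]
  have hexp1 : ∀ c : ↥(Opp k Z ι),
      ∑ t, (rr t c : Q ⊗[k] Q) * ((o t : Q) ⊗ₜ[k] (1 : Q)) = 1 ⊗ₜ[k] sQ (c : Q) := by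
    intro c
    have h1 := hexp 1 c
    rw [hR.one] at h1
    exact h1
  -- (1) `r_s(c)` in terms of the `r_s(o_t)`
  have E1 : ∀ (c : ↥(Opp k Z ι)) (s : Fin m),
      rr s c = ∑ t, ZZ (1 ⊗ₜ[k] sZ (o.repr c t)) * rr s (o t) := by
    intro c
    refine huniq (fun s => rr s c) (fun s => ∑ t, ZZ (1 ⊗ₜ[k] sZ (o.repr c t)) * rr s (o t)) ?_
    rw [hexp1 c, expR hs hcz o c]
    have h2 : ∀ s, ((∑ t, ZZ (1 ⊗ₜ[k] sZ (o.repr c t)) * rr s (o t) : ↥(Rcom k Z ι)) : Q ⊗[k] Q) *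
        ((o s : Q) ⊗ₜ[k] (1 : Q)) = ∑ t, zz k Z Q (1 ⊗ₜ[k] sZ (o.repr c t)) *
          ((rr s (o t) : Q ⊗[k] Q) * ((o s : Q) ⊗ₜ[k] (1 : Q))) := by
      intro s
      rw [AddSubmonoidClass.coe_finsetSum, Finset.sum_mul]
      refine Finset.sum_congr rfl fun t _ => ?_
      rw [← mul_assoc]
      rfl
    rw [Finset.sum_congr rfl fun s _ => h2 s, Finset.sum_comm]
    refine Finset.sum_congr rfl fun t _ => ?_
    rw [← Finset.mul_sum, hexp1 (o t)]
  have E1' : ∀ (c : ↥(Opp k Z ι)) (s : Fin m),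
      χ (rr s c) = ∑ t, i (1 ⊗ₜ[k] sZ (o.repr c t)) * χ (rr s (o t)) := by
    intro c s
    rw [E1 c s, map_sum]
    refine Finset.sum_congr rfl fun t _ => ?_
    rw [map_mul, hZZ]
  -- (2) the unit
  have hs1 : sQ 1 = 1 := by
    have h1 := hs.ext 1
    rw [antipode_one, map_one ι] at h1
    exact h1
  have E2 : ∀ s : Fin m, rr s 1 = ZZ (o.repr 1 s ⊗ₜ[k] 1) := by
    refine huniq (fun s => rr s 1) (fun s => ZZ (o.repr 1 s ⊗ₜ[k] 1)) ?_
    rw [hexp1 1]
    have h1 := expL o (1 : ↥(Opp k Z ι))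
    rw [OneMemClass.coe_one] at h1
    rw [OneMemClass.coe_one, hs1, h1]
  -- (3) the action
  have E3 : ∀ (h : H) (c : ↥(Opp k Z ι)) (s : Fin m),
      rr s (R h c) = ∑ t, ZZ (o.repr (R h (o t)) s ⊗ₜ[k] 1) * rr t c := by
    intro h c
    refine huniq (fun s => rr s (R h c))
      (fun s => ∑ t, ZZ (o.repr (R h (o t)) s ⊗ₜ[k] 1) * rr t c) ?_
    rw [hexp1, ← hexp h c]
    have h2 : ∀ s, ((∑ t, ZZ (o.repr (R h (o t)) s ⊗ₜ[k] 1) * rr t c : ↥(Rcom k Z ι)) :
        Q ⊗[k] Q) * ((o s : Q) ⊗ₜ[k] (1 : Q)) = ∑ t, (rr t c : Q ⊗[k] Q) *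
          (zz k Z Q (o.repr (R h (o t)) s ⊗ₜ[k] 1) * ((o s : Q) ⊗ₜ[k] (1 : Q))) := by
      intro s
      rw [AddSubmonoidClass.coe_finsetSum, Finset.sum_mul]
      refine Finset.sum_congr rfl fun t _ => ?_
      have h3 : ((ZZ (o.repr (R h (o t)) s ⊗ₜ[k] 1) * rr t c : ↥(Rcom k Z ι)) : Q ⊗[k] Q) =
          zz k Z Q (o.repr (R h (o t)) s ⊗ₜ[k] 1) * (rr t c : Q ⊗[k] Q) := rfl
      rw [h3, hcent, mul_assoc]
    rw [Finset.sum_congr rfl fun s _ => h2 s, Finset.sum_comm]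
    refine Finset.sum_congr rfl fun t _ => ?_
    rw [← Finset.mul_sum, ← expL o (R h (o t))]
  -- (4) products
  have E4 : ∀ (c c' : ↥(Opp k Z ι)) (s : Fin m),
      rr s (c * c') = ∑ a, ∑ b, ZZ (o.repr (o a * o b) s ⊗ₜ[k] 1) * (rr b c' * rr a c) := by
    intro c c'
    refine huniq (fun s => rr s (c * c'))
      (fun s => ∑ a, ∑ b, ZZ (o.repr (o a * o b) s ⊗ₜ[k] 1) * (rr b c' * rr a c)) ?_
    rw [hexp1]
    have h1 : ((1 : Q) ⊗ₜ[k] sQ ((c * c' : ↥(Opp k Z ι)) : Q) : Q ⊗[k] Q) =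
        (1 ⊗ₜ[k] sQ (c' : Q)) * (1 ⊗ₜ[k] sQ (c : Q)) := by
      rw [Algebra.TensorProduct.tmul_mul_tmul, one_mul, ← hs.mul]
      rfl
    have h2 : ((1 : Q) ⊗ₜ[k] sQ ((c * c' : ↥(Opp k Z ι)) : Q) : Q ⊗[k] Q) =
        ∑ a, ∑ b, ((rr b c' : Q ⊗[k] Q) * (rr a c : Q ⊗[k] Q)) *
          (((o a * o b : ↥(Opp k Z ι)) : Q) ⊗ₜ[k] (1 : Q)) := by
      rw [h1]
      conv_lhs => rw [← hexp1 c', Finset.sum_mul]
      rw [Finset.sum_comm]
      refine Finset.sum_congr rfl fun b _ => ?_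
      have h3 : ((o b : Q) ⊗ₜ[k] (1 : Q) : Q ⊗[k] Q) * (1 ⊗ₜ[k] sQ (c : Q)) =
          (1 ⊗ₜ[k] sQ (c : Q)) * ((o b : Q) ⊗ₜ[k] (1 : Q)) := by
        rw [Algebra.TensorProduct.tmul_mul_tmul, Algebra.TensorProduct.tmul_mul_tmul, one_mul,
          mul_one, one_mul, mul_one]
      rw [mul_assoc, h3, ← hexp1 c, Finset.sum_mul, Finset.mul_sum]
      refine Finset.sum_congr rfl fun a _ => ?_
      have h4 : (((o a * o b : ↥(Opp k Z ι)) : Q) ⊗ₜ[k] (1 : Q) : Q ⊗[k] Q) =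
          ((o a : Q) ⊗ₜ[k] (1 : Q)) * ((o b : Q) ⊗ₜ[k] (1 : Q)) := by
        rw [Algebra.TensorProduct.tmul_mul_tmul, one_mul]
        rfl
      rw [h4]
      simp only [mul_assoc]
    rw [h2]
    have h5 : ∀ s, ((∑ a, ∑ b, ZZ (o.repr (o a * o b) s ⊗ₜ[k] 1) * (rr b c' * rr a c) :
        ↥(Rcom k Z ι)) : Q ⊗[k] Q) * ((o s : Q) ⊗ₜ[k] (1 : Q)) =
        ∑ a, ∑ b, ((rr b c' : Q ⊗[k] Q) * (rr a c : Q ⊗[k] Q)) *
          (zz k Z Q (o.repr (o a * o b) s ⊗ₜ[k] 1) * ((o s : Q) ⊗ₜ[k] (1 : Q))) := by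
      intro s
      rw [AddSubmonoidClass.coe_finsetSum, Finset.sum_mul]
      refine Finset.sum_congr rfl fun a _ => ?_
      rw [AddSubmonoidClass.coe_finsetSum, Finset.sum_mul]
      refine Finset.sum_congr rfl fun b _ => ?_
      have h3 : ((ZZ (o.repr (o a * o b) s ⊗ₜ[k] 1) * (rr b c' * rr a c) : ↥(Rcom k Z ι)) :
          Q ⊗[k] Q) = zz k Z Q (o.repr (o a * o b) s ⊗ₜ[k] 1) *
            ((rr b c' : Q ⊗[k] Q) * (rr a c : Q ⊗[k] Q)) := rfl
      rw [h3, hcent, mul_assoc]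
    rw [Finset.sum_congr rfl fun s _ => h5 s]
    symm
    rw [Finset.sum_comm]
    refine Finset.sum_congr rfl fun a _ => ?_
    rw [Finset.sum_comm]
    refine Finset.sum_congr rfl fun b _ => ?_
    rw [← Finset.mul_sum, ← expL o (o a * o b)]
  -- the twisted embedding
  let e : Z ⊗[k] Z ≃ₐ[k] Z ⊗[k] Z := Algebra.TensorProduct.congr AlgEquiv.refl sZ
  have he : ∀ a b : Z, e (a ⊗ₜ[k] b) = a ⊗ₜ[k] sZ b := fun a b => by simp [e]
  have hi1 : ∀ b : Z, (i.comp e.toAlgHom) (1 ⊗ₜ[k] b) = i (1 ⊗ₜ[k] sZ b) := fun b => by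
    show i (e (1 ⊗ₜ[k] b)) = _
    rw [he]
  have hi2 : ∀ a : Z, (i.comp e.toAlgHom) (a ⊗ₜ[k] 1) = i (a ⊗ₜ[k] 1) := fun a => by
    show i (e (a ⊗ₜ[k] 1)) = _
    rw [he, map_one]
  refine ⟨i.comp e.toAlgHom, fun s p => χ (rr s (o p)), hi.comp e.injective, ?_, ?_, ?_, ?_⟩
  · intro s p
    obtain ⟨n, d, hd⟩ := hint (r s (o p))
    have h1 : (rr s (o p)) ^ n + ∑ j, ZZ (d j) * (rr s (o p)) ^ (j : ℕ) = 0 := by
      apply Subtype.ext
      have h2 : (((rr s (o p)) ^ n + ∑ j, ZZ (d j) * (rr s (o p)) ^ (j : ℕ) : ↥(Rcom k Z ι)) :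
          Q ⊗[k] Q) = r s (o p) ^ n + ∑ j, zz k Z Q (d j) * r s (o p) ^ (j : ℕ) := by
        rw [Subalgebra.coe_add, Subalgebra.coe_pow, AddSubmonoidClass.coe_finsetSum]
        congr 1
      rw [h2, hd]
      rfl
    have h3 := congrArg χ h1
    rw [map_add, map_pow, map_sum, map_zero] at h3
    refine ⟨Polynomial.X ^ n + ∑ j : Fin n, Polynomial.C (e.symm (d j)) * Polynomial.X ^ (j : ℕ),
      ?_, ?_⟩
    · apply Polynomial.monic_X_pow_add
      refine lt_of_le_of_lt (Polynomial.degree_sum_le _ _) ?_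
      rw [Finset.sup_lt_iff (by exact WithBot.bot_lt_coe n)]
      intro j _
      exact lt_of_le_of_lt (Polynomial.degree_C_mul_X_pow_le _ _) (by exact_mod_cast j.2)
    · rw [Polynomial.eval₂_add, Polynomial.eval₂_X_pow, Polynomial.eval₂_finset_sum]
      rw [← h3]
      congr 1
      refine Finset.sum_congr rfl fun j _ => ?_
      rw [Polynomial.eval₂_mul, Polynomial.eval₂_C, Polynomial.eval₂_X_pow, map_mul, map_pow, hZZ]
      congr 1
      show i (e (e.symm (d j))) = i (d j)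
      rw [AlgEquiv.apply_symm_apply]
  · intro p q s
    simp only [hi1, hi2]
    rw [← E1' (o p * o q) s, E4 (o p) (o q) s, map_sum]
    refine Finset.sum_congr rfl fun a _ => ?_
    rw [map_sum]
    refine Finset.sum_congr rfl fun b _ => ?_
    rw [map_mul χ, map_mul χ, hZZ, mul_comm (χ (rr b (o q)))]
  · intro s
    simp only [hi1, hi2]
    rw [← E1' 1 s, E2 s, hZZ]
  · intro h p s
    simp only [hi1, hi2]
    rw [← E1' (R h (o p)) s, E3 h (o p) s, map_sum]
    refine Finset.sum_congr rfl fun t _ => ?_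
    rw [map_mul, hZZ]

end Pool.Agent.Lib.MP_c37a72_al.CO
end

section
/-!
# MP_c37a72_al, module BAS: `Q ⊗_k Q` is free over `Z ⊗_k Z`
-/
set_option autoImplicit false

open scoped TensorProduct
open Coalgebra HopfAlgebra
open Pool.Agent.Lib.MP_c37a72_al.EG

namespace Pool.Agent.Lib.MP_c37a72_al.CO

universe u v w

namespace BASM

section

variable (k : Type u) (Z Q : Type v) [Field k] [Field Z] [Algebra k Z] [DivisionRing Q]
  [Algebra k Q] [Algebra Z Q] [IsScalarTower k Z Q]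

theorem comm (r : Z ⊗[k] Z) (y : Q ⊗[k] Q) : zz k Z Q r * y = y * zz k Z Q r := by
  induction r using TensorProduct.induction_on with
  | zero => rw [map_zero, zero_mul, mul_zero]
  | add r₁ r₂ h₁ h₂ => rw [map_add, add_mul, mul_add, h₁, h₂]
  | tmul a b =>
    induction y using TensorProduct.induction_on with
    | zero => rw [mul_zero, zero_mul]
    | add y₁ y₂ h₁ h₂ => rw [add_mul, mul_add, h₁, h₂]
    | tmul x y =>
      rw [zz_tmul, Algebra.TensorProduct.tmul_mul_tmul, Algebra.TensorProduct.tmul_mul_tmul,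
        Algebra.commutes a x, Algebra.commutes b y]

variable {N : ℕ} (s : Module.Basis (Fin N) Z Q)

/-- The coordinates. -/
noncomputable def phi : (Fin N × Fin N →₀ Z ⊗[k] Z) ≃ₗ[k] Q ⊗[k] Q :=
  (finsuppTensorFinsupp k k Z Z (Fin N) (Fin N)).symm.trans
    (TensorProduct.congr (s.repr.symm.restrictScalars k) (s.repr.symm.restrictScalars k))

theorem phi_single (p : Fin N × Fin N) (r : Z ⊗[k] Z) :
    phi k Z Q s (Finsupp.single p r) = zz k Z Q r * (s p.1 ⊗ₜ[k] s p.2) := by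
  induction r using TensorProduct.induction_on with
  | zero => rw [Finsupp.single_zero, map_zero, map_zero, zero_mul]
  | add r₁ r₂ h₁ h₂ => rw [Finsupp.single_add, map_add, map_add, add_mul, h₁, h₂]
  | tmul a b =>
    obtain ⟨i, j⟩ := p
    rw [phi, LinearEquiv.trans_apply, finsuppTensorFinsupp_symm_single, TensorProduct.congr_tmul,
      zz_tmul, Algebra.TensorProduct.tmul_mul_tmul]
    congr 1
    · rw [LinearEquiv.restrictScalars_apply, Module.Basis.repr_symm_single, Algebra.smul_def]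
    · rw [LinearEquiv.restrictScalars_apply, Module.Basis.repr_symm_single, Algebra.smul_def]

theorem phi_eq (f : Fin N × Fin N →₀ Z ⊗[k] Z) :
    phi k Z Q s f = ∑ p, zz k Z Q (f p) * (s p.1 ⊗ₜ[k] s p.2) := by
  conv_lhs => rw [← Finsupp.univ_sum_single f]
  rw [map_sum]
  exact Finset.sum_congr rfl fun p _ => phi_single k Z Q s p (f p)

include s in
theorem integral (y : Q ⊗[k] Q) :
    ∃ (n : ℕ) (d : Fin n → Z ⊗[k] Z), y ^ n + ∑ j, zz k Z Q (d j) * y ^ (j : ℕ) = 0 := by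
  let _ : Algebra (Z ⊗[k] Z) (Q ⊗[k] Q) :=
    RingHom.toAlgebra' (zz k Z Q : Z ⊗[k] Z →+* Q ⊗[k] Q) fun r y => comm k Z Q r y
  have hsmul : ∀ (r : Z ⊗[k] Z) (y : Q ⊗[k] Q), r • y = zz k Z Q r * y := fun r y => rfl
  have hfin : Module.Finite (Z ⊗[k] Z) (Q ⊗[k] Q) := by
    refine ⟨Submodule.fg_def.2 ⟨Set.range fun p : Fin N × Fin N => s p.1 ⊗ₜ[k] s p.2,
      Set.finite_range _, ?_⟩⟩
    rw [eq_top_iff]
    intro w _
    obtain ⟨f, rfl⟩ := (phi k Z Q s).surjective w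
    rw [phi_eq]
    refine Submodule.sum_mem _ fun p _ => ?_
    rw [← hsmul]
    exact Submodule.smul_mem _ _ (Submodule.subset_span ⟨p, rfl⟩)
  have hint : IsIntegral (Z ⊗[k] Z) y := IsIntegral.of_finite _ y
  obtain ⟨p, hp, hev⟩ := hint
  refine ⟨p.natDegree, fun j => p.coeff j, ?_⟩
  rw [Polynomial.eval₂_eq_sum_range, Finset.sum_range_succ, hp.coeff_natDegree, map_one, one_mul,
    Finset.sum_range] at hev
  rw [add_comm]
  exact hev

end

end BASM

open BASM in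
theorem specBAS : SpecBAS.{u, v} := by
  intro k Z Q _ _ _ _ _ _ _ N s
  refine ⟨fun y => ?_, fun r hr p => ?_, comm k Z Q, integral k Z Q s⟩
  · obtain ⟨f, rfl⟩ := (phi k Z Q s).surjective y
    exact ⟨f, phi_eq k Z Q s f⟩
  · have h : phi k Z Q s (Finsupp.equivFunOnFinite.symm r) = 0 := by
      rw [phi_eq]
      exact hr
    have h2 := (LinearEquiv.map_eq_zero_iff _).1 h
    have h3 := DFunLike.congr_fun h2 p
    exact h3

end Pool.Agent.Lib.MP_c37a72_al.CO
end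

section
/-!
# MP_c37a72_al, block CO: module CLO
-/
set_option autoImplicit false

open scoped TensorProduct Polynomial
open Coalgebra HopfAlgebra
open Pool.Agent.Lib.MP_c37a72_al.EG

namespace Pool.Agent.Lib.MP_c37a72_al.CO

universe u v w

namespace CLOM

/-- the residue field of the integral closure in an algebraically closed field -/
theorem residue_algClosed (D Ω : Type v) [CommRing D] [Field Ω] [Algebra D Ω] [IsAlgClosed Ω]
    (F : Type v) [Field F] (κ : ↥(integralClosure D Ω) →+* F) (hκ : Function.Surjective κ) :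
    IsAlgClosed F := by
  apply IsAlgClosed.of_exists_root
  intro p hp hirr
  have hl : p ∈ Polynomial.lifts κ := by
    rw [Polynomial.lifts_iff_coeff_lifts]
    intro n
    exact hκ _
  obtain ⟨q, hqp, hdeg, hq⟩ := Polynomial.lifts_and_degree_eq_and_monic hl hp
  have hd : (q.map (algebraMap ↥(integralClosure D Ω) Ω)).degree ≠ 0 := by
    rw [hq.degree_map, hdeg]
    exact hirr.degree_pos.ne'
  obtain ⟨x, hx⟩ := IsAlgClosed.exists_root _ hd
  have hx2 : Polynomial.aeval x q = 0 := by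
    rw [Polynomial.IsRoot.def, Polynomial.eval_map_algebraMap] at hx
    exact hx
  have hint : IsIntegral ↥(integralClosure D Ω) x := ⟨q, hq, by
    rw [← Polynomial.aeval_def]; exact hx2⟩
  have hint2 : IsIntegral D x := isIntegral_trans x hint
  refine ⟨κ ⟨x, hint2⟩, ?_⟩
  rw [← hqp, Polynomial.eval_map, Polynomial.eval₂_at_apply]
  have : Polynomial.eval (⟨x, hint2⟩ : ↥(integralClosure D Ω)) q = 0 := by
    apply Subtype.ext
    have h3 : ((Polynomial.eval (⟨x, hint2⟩ : ↥(integralClosure D Ω)) q :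
        ↥(integralClosure D Ω)) : Ω) = Polynomial.aeval x q := by
      have h4 := Polynomial.aeval_algebraMap_apply Ω (⟨x, hint2⟩ : ↥(integralClosure D Ω)) q
      rw [Polynomial.coe_aeval_eq_eval] at h4
      exact h4.symm
    rw [h3, hx2]
    rfl
  rw [this, map_zero]

end CLOM

open CLOM in
theorem specCLO : SpecCLO.{v} := by
  intro D K _ _ _ π hπ
  let Fr := FractionRing D
  let Ω := AlgebraicClosure Fr
  let algDΩ : Algebra D Ω := ((algebraMap Fr Ω).comp (algebraMap D Fr)).toAlgebra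
  have hinj : Function.Injective (algebraMap D Ω) := by
    have h1 : Function.Injective (algebraMap Fr Ω) := (algebraMap Fr Ω).injective
    have h2 : Function.Injective (algebraMap D Fr) := IsFractionRing.injective D Fr
    exact h1.comp h2
  let W := ↥(integralClosure D Ω)
  have : Algebra.IsIntegral D W := inferInstance
  have hinjW : Function.Injective (algebraMap D W) := by
    intro a b hab
    apply hinj
    have := congrArg (fun x : W => (x : Ω)) hab
    exact this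
  have hmax : (RingHom.ker π).IsMaximal := RingHom.ker_isMaximal_of_surjective π hπ
  have : (RingHom.ker π).IsPrime := hmax.isPrime
  obtain ⟨M, -, hMp, hM⟩ := Ideal.exists_ideal_over_prime_of_isIntegral (S := W) (RingHom.ker π) ⊥ (by
    rw [← RingHom.ker_eq_comap_bot, (RingHom.injective_iff_ker_eq_bot _).1 hinjW]
    exact bot_le)
  have := hMp
  have hMmax : M.IsMaximal := by
    apply Ideal.isMaximal_of_isIntegral_of_isMaximal_comap (R := D) M
    rw [hM]
    exact hmax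
  let F := W ⧸ M
  let : Field F := Ideal.Quotient.field M
  let κ : W →+* F := Ideal.Quotient.mk M
  have hκ : Function.Surjective κ := Ideal.Quotient.mk_surjective
  let e := RingHom.quotientKerEquivOfSurjective hπ
  let g : (D ⧸ RingHom.ker π) →+* F := Ideal.quotientMap M (algebraMap D W) (by rw [hM])
  let : Algebra K F := (g.comp e.symm.toRingHom).toAlgebra
  refine ⟨Ω, F, inferInstance, algDΩ, inferInstance, inferInstance, κ, inferInstance,
    residue_algClosed D Ω F κ hκ, hinj, hκ, ?_⟩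
  intro d
  have h1 : algebraMap K F (π d) = g (e.symm (π d)) := rfl
  have h2 : e.symm (π d) = Ideal.Quotient.mk _ d := by
    rw [RingEquiv.symm_apply_eq]
    rfl
  rw [h1, h2]
  rfl

end Pool.Agent.Lib.MP_c37a72_al.CO
end

section
/-!
# MP_c37a72_al, block CO: module COP (port of EG/COO.lean)
-/
set_option autoImplicit false
set_option linter.all false

open scoped TensorProduct
open Coalgebra HopfAlgebra
open Pool.Agent.Lib.MP_c37a72_al.EG

namespace Pool.Agent.Lib.MP_c37a72_al.CO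

universe u v w

namespace COPM

open Pool.Agent.Lib.MP_c37a72_al.EG.COOM (cf cf_tmul cf_eq cf_mul cf_mul_left cf_map one_tmul_comm
  tmul_one_comm expand cf_inj cf_endo CM CM_apply)

section basis

variable {k : Type u} {Z : Type v} {H Q : Type v} [Field k] [Ring H] [HopfAlgebra k H]
  [Field Z] [Algebra k Z] [DivisionRing Q] [Algebra k Q] [Algebra Z Q] [IsScalarTower k Z Q]
  {ι : H →ₐ[k] Q} {AA : Type w} {P : Type v} [Ring AA] [Algebra k AA] [Field P] [Algebra k P]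
  [Algebra Z P] [IsScalarTower k Z P] {ρ : H →ₗ[k] Module.End k AA}
  {ψ : ↥(Opp k Z ι) →ₐ[k] AA ⊗[k] P}

theorem psi_smul (hc : CPre k Z ι ρ ψ) (z : Z) (x : ↥(Opp k Z ι)) :
    ψ (z • x) = ψ x * (1 ⊗ₜ[k] algebraMap Z P z) := by
  rw [Algebra.smul_def, map_mul, hc.psiZ, one_tmul_comm]

theorem psi_sum (hc : CPre k Z ι ρ ψ) {m : ℕ} (X : Module.Basis (Fin m) Z ↥(Opp k Z ι))
    (x : ↥(Opp k Z ι)) :
    ψ x = ∑ i, ψ (X i) * (1 ⊗ₜ[k] algebraMap Z P (X.repr x i)) := by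
  conv_lhs => rw [← X.sum_repr x, map_sum]
  exact Finset.sum_congr rfl fun i _ => psi_smul hc _ _

theorem exists_inv (hc : CPre k Z ι ρ ψ)
    (hs : Submodule.span k {y : AA ⊗[k] P | ∃ x p, y = ψ x * (1 ⊗ₜ[k] p)} = ⊤) {m : ℕ} (B : Module.Basis (Fin m) k AA)
    (X : Module.Basis (Fin m) Z ↥(Opp k Z ι)) :
    ∃ D : Matrix (Fin m) (Fin m) P, CM ψ B X * D = 1 ∧ D * CM ψ B X = 1 := by
  have key : ∀ y ∈ Submodule.span k {y : AA ⊗[k] P | ∃ x p, y = ψ x * (1 ⊗ₜ[k] p)},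
      ∃ q : Fin m → P, y = ∑ i, ψ (X i) * (1 ⊗ₜ[k] q i) := by
    intro y hy
    induction hy using Submodule.span_induction with
    | mem y h =>
      obtain ⟨x, p, rfl⟩ := h
      refine ⟨fun i => algebraMap Z P (X.repr x i) * p, ?_⟩
      rw [psi_sum hc X x, Finset.sum_mul]
      refine Finset.sum_congr rfl fun i _ => ?_
      rw [mul_assoc, Algebra.TensorProduct.tmul_mul_tmul, one_mul]
    | zero => exact ⟨0, by simp⟩
    | add x y _ _ hx hy =>
      obtain ⟨p, hp⟩ := hx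
      obtain ⟨q, hq⟩ := hy
      refine ⟨p + q, ?_⟩
      rw [hp, hq, ← Finset.sum_add_distrib]
      refine Finset.sum_congr rfl fun i _ => ?_
      rw [Pi.add_apply, TensorProduct.tmul_add, mul_add]
    | smul c x _ hx =>
      obtain ⟨p, hp⟩ := hx
      refine ⟨fun i => c • p i, ?_⟩
      rw [hp, Finset.smul_sum]
      refine Finset.sum_congr rfl fun i _ => ?_
      rw [TensorProduct.tmul_smul, mul_smul_comm]
  have h : ∀ l : Fin m, ∃ q : Fin m → P,
      (B l ⊗ₜ[k] (1 : P) : AA ⊗[k] P) = ∑ i, ψ (X i) * (1 ⊗ₜ[k] q i) := by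
    intro l
    exact key _ (by rw [hs]; exact Submodule.mem_top)
  choose q hq using h
  have e : CM ψ B X * Matrix.of (fun i l => q l i) = 1 := by
    ext l' l
    rw [Matrix.mul_apply]
    have h1 := congrArg (cf (B.coord l')) (hq l)
    rw [map_sum, cf_tmul] at h1
    simp only [cf_mul] at h1
    simp only [CM_apply, Matrix.of_apply]
    rw [← h1, Matrix.one_apply]
    simp [Module.Basis.coord_apply, Finsupp.single_apply, eq_comm]
  exact ⟨_, e, mul_eq_one_comm.mp e⟩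

/-- `P`-linear combination of the columns -/
theorem cf_psi_sum {m : ℕ} (B : Module.Basis (Fin m) k AA)
    (X : Module.Basis (Fin m) Z ↥(Opp k Z ι)) (hc : CPre k Z ι ρ ψ) (x : ↥(Opp k Z ι))
    (l : Fin m) :
    cf (B.coord l) (ψ x) = ∑ i, CM ψ B X l i * algebraMap Z P (X.repr x i) := by
  conv_lhs => rw [psi_sum hc X x, map_sum]
  exact Finset.sum_congr rfl fun i _ => by rw [cf_mul, CM_apply]

/-- the bases -/
theorem exists_bases (hQ : IsCQ k H Z Q ι) (hc : CPre k Z ι ρ ψ) :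
    ∃ m : ℕ, Module.finrank Z ↥(Opp k Z ι) = m ∧ Nonempty (Module.Basis (Fin m) k AA) ∧
      Nonempty (Module.Basis (Fin m) Z ↥(Opp k Z ι)) := by
  have := hQ.fin
  have := hc.finA
  have h2 : Module.Finite Z ↥(Opp k Z ι) :=
    inferInstanceAs (Module.Finite Z ↥(Subalgebra.toSubmodule (Opp k Z ι)))
  exact ⟨_, rfl, ⟨Module.finBasisOfFinrankEq k AA hc.dim⟩, ⟨Module.finBasis Z _⟩⟩

end basis

end COPM

open COPM in
open Pool.Agent.Lib.MP_c37a72_al.EG.COOM (cf cf_tmul cf_eq cf_mul cf_mul_left cf_map one_tmul_comm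
  tmul_one_comm expand cf_inj cf_endo CM CM_apply) in
/-- **COP** -/
theorem specCOP (hOPP : EG.SpecOPP.{u, v}) (hDNS : EG.SpecDNS.{u, v}) : SpecCOP.{u, v, w} := by
  intro k H Z Q _ _ _ _ _ _ _ _ _ ι AA P _ _ _ _ _ _ ρ ψ hQ hc hs φ
  obtain ⟨m, hm, ⟨B⟩, ⟨X⟩⟩ := exists_bases hQ hc
  obtain ⟨D, hCD, hDC⟩ := exists_inv hc hs B X
  obtain ⟨hstab, -, -⟩ := hOPP k H Z Q ι hQ
  -- the space `E`
  set E : Submodule k (AA →ₗ[k] AA) :=
    Submodule.span k {e | ∃ (h : H) (b : AA), e = LinearMap.mulRight k b ∘ₗ ρ h} with hE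
  have hmem : φ ∈ E := by
    by_contra hφ
    obtain ⟨lam, hlφ, hlE⟩ := Submodule.exists_le_ker_of_notMem hφ
    -- elementary endomorphisms
    let el : Fin m → Fin m → (AA →ₗ[k] AA) := fun l' l => (B.coord l).smulRight (B l')
    have hel : ∀ e : AA →ₗ[k] AA, e = ∑ l, ∑ l', B.coord l' (e (B l)) • el l' l := by
      intro e
      refine B.ext fun j => ?_
      rw [LinearMap.sum_apply]
      simp only [LinearMap.sum_apply, LinearMap.smul_apply, el, LinearMap.smulRight_apply,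
        Module.Basis.coord_apply, Module.Basis.repr_self, Finsupp.single_apply]
      rw [Finset.sum_eq_single j]
      · simp only [if_true, one_smul]
        exact (B.sum_repr (e (B j))).symm
      · intro l _ hl
        refine Finset.sum_eq_zero fun l' _ => ?_
        rw [if_neg (fun h => hl h.symm)]
        simp
      · simp
    have hlam : ∀ e : AA →ₗ[k] AA, lam e = ∑ l, ∑ l', B.coord l' (e (B l)) * lam (el l' l) := by
      intro e
      conv_lhs => rw [hel e]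
      simp [map_sum]
    set L : Matrix (Fin m) (Fin m) P := Matrix.of fun l l' => algebraMap k P (lam (el l' l))
      with hL
    -- the trace of `L C F D` vanishes
    have key : ∀ F : Matrix (Fin m) (Fin m) Z,
        Matrix.trace (L * (CM ψ B X * F.map (algebraMap Z P) * D)) = 0 := by
      intro F
      obtain ⟨n, h, b, hb⟩ := hDNS k H Z Q ι hQ (Matrix.toLin X X F)
      let T : AA ⊗[k] P →ₗ[k] AA ⊗[k] P := ∑ j, LinearMap.mulRight k (ψ (b j)) ∘ₗ
        TensorProduct.map (ρ (h j)) (LinearMap.id : P →ₗ[k] P)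
      have hTa : ∀ y, T y = ∑ j, TensorProduct.map (ρ (h j)) (LinearMap.id : P →ₗ[k] P) y *
          ψ (b j) := by
        intro y
        simp [T, LinearMap.sum_apply]
      have hmapc : ∀ (g : AA →ₗ[k] AA) (y : AA ⊗[k] P) (p : P),
          TensorProduct.map g (LinearMap.id : P →ₗ[k] P) (y * (1 ⊗ₜ[k] p)) =
          TensorProduct.map g (LinearMap.id : P →ₗ[k] P) y * (1 ⊗ₜ[k] p) := by
        intro g y p
        induction y using TensorProduct.induction_on with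
        | zero => simp
        | tmul b q => simp
        | add x y hx hy => rw [add_mul, map_add, hx, hy, map_add, add_mul]
      have hT : ∀ y p, T (y * (1 ⊗ₜ[k] p)) = T y * (1 ⊗ₜ[k] p) := by
        intro y p
        rw [hTa, hTa, Finset.sum_mul]
        refine Finset.sum_congr rfl fun j _ => ?_
        rw [hmapc, mul_assoc, one_tmul_comm, ← mul_assoc]
      have hTx : ∀ x : ↥(Opp k Z ι), T (ψ x) = ψ (Matrix.toLin X X F x) := by
        intro x
        have e : Matrix.toLin X X F x =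
            ∑ j, (⟨adrQ k Z ι (h j) x, hstab (h j) x x.2⟩ : ↥(Opp k Z ι)) * b j := by
          apply Subtype.ext
          rw [hb x, AddSubmonoidClass.coe_finsetSum]
          rfl
        rw [hTa, e, map_sum]
        refine Finset.sum_congr rfl fun j _ => ?_
        rw [map_mul, hc.psiH (h j) x ⟨adrQ k Z ι (h j) x, hstab (h j) x x.2⟩ rfl]
      set M : Matrix (Fin m) (Fin m) P :=
        Matrix.of fun l' l => cf (B.coord l') (T (B l ⊗ₜ[k] 1)) with hM
      have e1 : M * CM ψ B X = CM ψ B X * F.map (algebraMap Z P) := by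
        ext l' i
        rw [Matrix.mul_apply, Matrix.mul_apply]
        have h1 := cf_endo B T hT (B.coord l') (ψ (X i))
        rw [hTx, cf_psi_sum B X hc] at h1
        simp only [hM, Matrix.of_apply, Matrix.map_apply, CM_apply] at h1 ⊢
        rw [← h1]
        refine Finset.sum_congr rfl fun j _ => ?_
        congr 2
        rw [Matrix.toLin_self]
        simp [Finsupp.single_apply]
      have e2 : M = CM ψ B X * F.map (algebraMap Z P) * D := by
        rw [← e1, mul_assoc, hCD, mul_one]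
      rw [← e2]
      have e3 : ∀ l l', M l' l = ∑ j, ∑ s, algebraMap k P (B.coord l' (ρ (h j) (B l) * B s)) *
          cf (B.coord s) (ψ (b j)) := by
        intro l l'
        rw [hM, Matrix.of_apply, hTa, map_sum]
        refine Finset.sum_congr rfl fun j _ => ?_
        rw [TensorProduct.map_tmul]
        conv_lhs => rw [expand B (ψ (b j)), Finset.mul_sum, map_sum]
        refine Finset.sum_congr rfl fun s _ => ?_
        simp [Algebra.smul_def]
      rw [Matrix.trace]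
      simp only [Matrix.diag_apply, Matrix.mul_apply]
      have e4 : ∀ l, ∑ l', L l l' * M l' l = ∑ j, ∑ s, cf (B.coord s) (ψ (b j)) *
          ∑ l', algebraMap k P (B.coord l' (ρ (h j) (B l) * B s) * lam (el l' l)) := by
        intro l
        simp only [e3, Finset.mul_sum]
        rw [Finset.sum_comm]
        refine Finset.sum_congr rfl fun j _ => ?_
        rw [Finset.sum_comm]
        refine Finset.sum_congr rfl fun s _ => ?_
        refine Finset.sum_congr rfl fun l' _ => ?_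
        rw [hL, Matrix.of_apply, (algebraMap k P).map_mul]
        ring
      simp only [e4]
      rw [Finset.sum_comm]
      refine Finset.sum_eq_zero fun j _ => ?_
      rw [Finset.sum_comm]
      refine Finset.sum_eq_zero fun s _ => ?_
      rw [← Finset.mul_sum]
      have e5 : ∑ l, ∑ l', algebraMap k P (B.coord l' (ρ (h j) (B l) * B s) * lam (el l' l)) =
          algebraMap k P (lam (LinearMap.mulRight k (B s) ∘ₗ ρ (h j))) := by
        rw [hlam]
        simp [map_sum]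
      rw [e5]
      have : lam (LinearMap.mulRight k (B s) ∘ₗ ρ (h j)) = 0 :=
        hlE (Submodule.subset_span ⟨h j, B s, rfl⟩)
      rw [this, map_zero, mul_zero]
    have hz : D * L * CM ψ B X = 0 := by
      ext i j
      have h1 := key (Matrix.single j i 1)
      have e1 : Matrix.trace (L * (CM ψ B X * (Matrix.single j i (1 : Z)).map (algebraMap Z P) * D)) =
          Matrix.trace (D * L * CM ψ B X * (Matrix.single j i (1 : Z)).map (algebraMap Z P)) := by
        rw [← mul_assoc, Matrix.trace_mul_comm, ← mul_assoc, ← mul_assoc]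
      rw [e1] at h1
      have e2 : (Matrix.single j i (1 : Z)).map (algebraMap Z P) = Matrix.single j i (1 : P) := by
        rw [Matrix.map_single]
        simp
      rw [e2, Matrix.trace_mul_single] at h1
      simpa using h1
    have hL0 : L = 0 := by
      have : L = CM ψ B X * (D * L * CM ψ B X) * D := by
        have : CM ψ B X * (D * L * CM ψ B X) * D = (CM ψ B X * D) * L * (CM ψ B X * D) := by
          simp only [mul_assoc]
        rw [this, hCD, one_mul, mul_one]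
      rw [this, hz, mul_zero, zero_mul]
    apply hlφ
    rw [hlam]
    refine Finset.sum_eq_zero fun l _ => Finset.sum_eq_zero fun l' _ => ?_
    have : lam (el l' l) = 0 := by
      have := congrFun (congrFun hL0 l) l'
      simpa [hL] using this
    rw [this, mul_zero]
  -- extraction
  have key2 : ∀ e ∈ E, ∃ (n : ℕ) (h : Fin n → H) (b : Fin n → AA), ∀ a : AA,
      e a = ∑ j, ρ (h j) a * b j := by
    intro e he
    rw [hE] at he
    induction he using Submodule.span_induction with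
    | mem e h =>
      obtain ⟨h, b, rfl⟩ := h
      exact ⟨1, fun _ => h, fun _ => b, fun a => by simp⟩
    | zero => exact ⟨0, Fin.elim0, Fin.elim0, fun a => by simp⟩
    | add x y _ _ hx hy =>
      obtain ⟨n, h, b, hb⟩ := hx
      obtain ⟨n', h', b', hb'⟩ := hy
      refine ⟨n + n', Fin.append h h', Fin.append b b', fun a => ?_⟩
      rw [LinearMap.add_apply, hb, hb', Fin.sum_univ_add]
      simp
    | smul c x _ hx =>
      obtain ⟨n, h, b, hb⟩ := hx
      refine ⟨n, h, fun j => c • b j, fun a => ?_⟩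
      rw [LinearMap.smul_apply, hb, Finset.smul_sum]
      exact Finset.sum_congr rfl fun j _ => by rw [mul_smul_comm]
  exact key2 φ hmem

end Pool.Agent.Lib.MP_c37a72_al.CO
end

section
/-!
# MP_c37a72_al, block CO, module CPK: assembly of the constancy package
-/
set_option autoImplicit false

open scoped TensorProduct
open Coalgebra HopfAlgebra
open Pool.Agent.Lib.MP_c37a72_al.EG

namespace Pool.Agent.Lib.MP_c37a72_al.CO

universe u v w

namespace CPKM

theorem finite_of_dep (k : Type u) (M : Type v) [Field k] [AddCommGroup M] [Module k M] (n : ℕ)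
    (h : ∀ x : Fin (n + 1) → M, ∃ c : Fin (n + 1) → k, (∃ i, c i ≠ 0) ∧ ∑ i, c i • x i = 0) :
    Module.Finite k M := by
  rw [← Module.rank_lt_aleph0_iff]
  by_contra hcon
  have h1 : ((n + 1 : ℕ) : Cardinal) ≤ Module.rank k M :=
    (Cardinal.natCast_lt_aleph0).le.trans (not_lt.1 hcon)
  obtain ⟨x, hx⟩ := Module.le_rank_iff.1 h1
  obtain ⟨c, ⟨i, hi⟩, hc⟩ := h x
  exact hi (Fintype.linearIndependent_iff.1 hx c hc i)

end CPKM

theorem specCPK (hSQX : SpecSQX.{u, v}) (hDIM : SpecDIM.{u, v}) (hRES : SpecRES.{u, v})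
    (hCHI : SpecCHI.{u, v}) (hALP : SpecALP.{u, v}) (hPSI : SpecPSI.{u, v})
    (hGCL : SpecGCL.{u, v, max u v}) (hSPN : SpecSPN.{u, v, max u v})
    (hTHE : SpecTHE.{u, v, max u v}) : SpecCPK.{u, v} := by
  intro k H Z Q _ _ _ _ _ _ _ _ _ _ _ _ ι hQ hS
  obtain ⟨sQ, sZ, hsq⟩ := hSQX k H Z Q ι hQ hS
  obtain ⟨R, hR⟩ := hRES k H Z Q ι hQ
  obtain ⟨Ω, _, _, i, χ, hi, hχ⟩ := hCHI k H Z Q ι sQ sZ hQ hS hsq
  have := hQ.fin
  have : Module.Finite Z ↥(Opp k Z ι) :=
    FiniteDimensional.finiteDimensional_submodule (Subalgebra.toSubmodule (Opp k Z ι))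
  obtain ⟨i', al, hi', hal⟩ := hALP k H Z Q ι sQ sZ R hQ hS hsq hR Ω i χ hi hχ _
    (Module.finBasis Z ↥(Opp k Z ι))
  have hfin : Module.Finite k ↥(LinearMap.range R) := by
    refine CPKM.finite_of_dep k ↥(LinearMap.range R) (Module.finrank Z ↥(Opp k Z ι)) ?_
    intro x
    have hex : ∀ i, ∃ g : H, R g = (x i : Module.End Z ↥(Opp k Z ι)) := fun i => (x i).2
    choose h hh using hex
    obtain ⟨c, hc, hc0⟩ := hDIM k H Z Q ι hQ hS h
    refine ⟨c, hc, ?_⟩
    apply Subtype.ext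
    rw [Submodule.coe_sum, Submodule.coe_zero]
    apply LinearMap.ext
    intro y
    apply Subtype.ext
    have e : (((∑ i, ((c i • x i : ↥(LinearMap.range R)) : Module.End Z ↥(Opp k Z ι))) y :
        ↥(Opp k Z ι)) : Q) = ∑ i, c i • adrQ k Z ι (h i) (y : Q) := by
      rw [LinearMap.sum_apply, AddSubmonoidClass.coe_finsetSum]
      refine Finset.sum_congr rfl fun i _ => ?_
      rw [← hR.coe, hh i]
      rfl
    rw [e, hc0 _ y.2]
    rfl
  obtain ⟨AA, P0, _, _, _, _, _, _, ρ, ψ0, hpre0⟩ :=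
    hPSI k H Z Q ι R hR hfin Ω i' _ (Module.finBasis Z ↥(Opp k Z ι)) al hi' hal
  obtain ⟨P, _, _, _, _, ψ, hgal, hpre⟩ := hGCL k H Z Q ι AA P0 ρ ψ0 hpre0
  have hspan := hSPN k H Z Q ι AA P ρ ψ hQ hpre
  obtain ⟨θ, hθ1, hθ2⟩ := hTHE k H Z Q ι AA P ρ ψ hQ hpre hspan
  exact ⟨AA, P, inferInstance, inferInstance, inferInstance, inferInstance, inferInstance,
    inferInstance, ρ, ψ, θ,
    { finA := hpre.finA
      finP := hpre.finP
      gal := hgal
      rone := hpre.rone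
      rmul := hpre.rmul
      ralg := hpre.ralg
      psiZ := hpre.psiZ
      psiH := hpre.psiH
      span := hspan
      dim := hpre.dim
      thH := hθ1
      thP := hθ2 }⟩

end Pool.Agent.Lib.MP_c37a72_al.CO
end

section
/-!
# MP_c37a72_al, block CO, module DCT: half of the double centralizer theorem
-/
set_option autoImplicit false

open scoped TensorProduct
open MulOpposite

namespace Pool.Agent.Lib.MP_c37a72_al.CO

universe u v w

namespace DCTM

section Max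

variable {Z Q : Type*} [Field Z] [DivisionRing Q] [Algebra Z Q] [Module.Finite Z Q]

/-- a right basis over a division subring -/
theorem exists_right_basis (C : Subalgebra Z Q) (hC : ∀ c ∈ C, c⁻¹ ∈ C) {s : ℕ}
    (c : Module.Basis (Fin s) Z C) :
    ∃ (n : ℕ) (y : Fin n → Q),
      LinearIndependent Z (fun p : Fin n × Fin s => y p.1 * (c p.2 : Q)) ∧
      ∀ q : Q, q ∈ Submodule.span Z (Set.range fun p : Fin n × Fin s => y p.1 * (c p.2 : Q)) := by
  classical
  let P : ℕ → Prop := fun n => ∃ y : Fin n → Q,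
    LinearIndependent Z (fun p : Fin n × Fin s => y p.1 * (c p.2 : Q))
  have hs : 0 < s := by
    rcases Nat.eq_zero_or_pos s with h | h
    · subst h
      have := c.repr.injective (a₁ := 1) (a₂ := 0) (Subsingleton.elim _ _)
      exact absurd (congrArg Subtype.val this) (by simp)
    · exact h
  have hb : ∀ n, P n → n ≤ Module.finrank Z Q := by
    rintro n ⟨y, hy⟩
    have := hy.fintype_card_le_finrank
    rw [Fintype.card_prod, Fintype.card_fin, Fintype.card_fin] at this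
    exact (Nat.le_mul_of_pos_right n hs).trans this
  have h0 : P 0 := ⟨Fin.elim0, linearIndependent_empty_type⟩
  let n := Nat.findGreatest P (Module.finrank Z Q)
  have hn : P n := Nat.findGreatest_spec (P := P) (Nat.zero_le _) h0
  have hn1 : ¬ P (n + 1) := by
    intro h
    have := Nat.le_findGreatest (hb _ h) h
    omega
  obtain ⟨y, hy⟩ := hn
  refine ⟨n, y, hy, fun q => ?_⟩
  by_contra hq
  apply hn1
  refine ⟨Fin.snoc y q, ?_⟩
  rw [Fintype.linearIndependent_iff]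
  intro g hg
  rw [Fintype.sum_prod_type, Fin.sum_univ_castSucc] at hg
  simp only [Fin.snoc_castSucc, Fin.snoc_last] at hg
  let d : C := ∑ a, g (Fin.last n, a) • c a
  have hd : ∑ a, g (Fin.last n, a) • (q * (c a : Q)) = q * (d : Q) := by
    simp only [d, AddSubmonoidClass.coe_finsetSum, Finset.mul_sum]
    refine Finset.sum_congr rfl fun a _ => ?_
    rw [SetLike.val_smul, mul_smul_comm]
  have hspan : ∀ (j : Fin n) (e : C),
      y j * (e : Q) ∈ Submodule.span Z (Set.range fun p : Fin n × Fin s => y p.1 * (c p.2 : Q)) := by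
    intro j e
    rw [← c.sum_repr e, AddSubmonoidClass.coe_finsetSum, Finset.mul_sum]
    refine sum_mem fun a _ => ?_
    rw [SetLike.val_smul, mul_smul_comm]
    exact Submodule.smul_mem _ _ (Submodule.subset_span ⟨(j, a), rfl⟩)
  have hd0 : d = 0 := by
    by_contra hd0
    apply hq
    have hdQ : (d : Q) ≠ 0 := fun h => hd0 (Subtype.ext h)
    have e1 : q = - ∑ j : Fin n, y j * ((∑ a, g (Fin.castSucc j, a) • c a) *
        ⟨(d : Q)⁻¹, hC _ d.2⟩ : C) := by
      rw [hd] at hg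
      have e2 : q * (d : Q) = - ∑ j : Fin n, ∑ a, g (Fin.castSucc j, a) • (y j * (c a : Q)) :=
        eq_neg_of_add_eq_zero_right hg
      have e3 : q = (q * (d : Q)) * (d : Q)⁻¹ := by rw [mul_assoc, mul_inv_cancel₀ hdQ, mul_one]
      rw [e3, e2, neg_mul, Finset.sum_mul]
      congr 1
      refine Finset.sum_congr rfl fun j _ => ?_
      have e4 : (((∑ a, g (Fin.castSucc j, a) • c a) * ⟨(d : Q)⁻¹, hC _ d.2⟩ : C) : Q) =
          (∑ a, g (Fin.castSucc j, a) • (c a : Q)) * (d : Q)⁻¹ := by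
        rw [MulMemClass.coe_mul, AddSubmonoidClass.coe_finsetSum]
        rfl
      have e5 : ∑ a, g (Fin.castSucc j, a) • (y j * (c a : Q)) =
          y j * ∑ a, g (Fin.castSucc j, a) • (c a : Q) := by
        rw [Finset.mul_sum]
        exact Finset.sum_congr rfl fun a _ => (mul_smul_comm _ _ _).symm
      rw [e4, e5, mul_assoc]
    rw [e1]
    exact neg_mem (sum_mem fun j _ => hspan j _)
  have hgl : ∀ a, g (Fin.last n, a) = 0 := Fintype.linearIndependent_iff.1 c.linearIndependent _ hd0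
  rw [hd, hd0, ZeroMemClass.coe_zero, mul_zero, add_zero] at hg
  have hg2 : ∑ p : Fin n × Fin s, g (Fin.castSucc p.1, p.2) • (y p.1 * (c p.2 : Q)) = 0 := by
    rw [Fintype.sum_prod_type]
    exact hg
  have h3 := Fintype.linearIndependent_iff.1 hy _ hg2
  rintro ⟨j, a⟩
  refine Fin.lastCases (motive := fun j => g (j, a) = 0) (hgl a) (fun j => h3 (j, a)) j

end Max

section Act

variable (Z Q : Type*) [Field Z] [DivisionRing Q] [Algebra Z Q] (K : Subalgebra Z Q)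

/-- right multiplications -/
def rmul : (↥K)ᵐᵒᵖ →ₐ[Z] Module.End Z Q where
  toFun l := LinearMap.mulRight Z ((unop l : K) : Q)
  map_one' := by ext x; simp
  map_mul' a b := by ext x; simp [mul_assoc]
  map_zero' := by ext x; simp
  map_add' a b := by ext x; simp [mul_add]
  commutes' z := by
    ext x
    simp [Algebra.smul_def, Algebra.commutes]

/-- `q ⊗ l ↦ (x ↦ q x l)` -/
noncomputable def phi : Q ⊗[Z] (↥K)ᵐᵒᵖ →ₐ[Z] Module.End Z Q :=
  Algebra.TensorProduct.lift (Algebra.lmul Z Q) (rmul Z Q K) (fun q l => by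
    refine LinearMap.ext fun x => ?_
    simp [rmul, mul_assoc])

theorem phi_tmul (q : Q) (l : (↥K)ᵐᵒᵖ) (x : Q) :
    phi Z Q K (q ⊗ₜ[Z] l) x = q * x * ((unop l : K) : Q) := by
  simp [phi, rmul, mul_assoc]

end Act

end DCTM

open DCTM in
theorem specDCT : SpecDCT.{v} := by
  classical
  intro Z Q _ _ _ K hfin hK
  let C := Subalgebra.centralizer Z (K : Set Q)
  have hC : ∀ c ∈ C, c⁻¹ ∈ C := by
    intro c hc
    rw [Subalgebra.mem_centralizer_iff] at hc ⊢
    intro x hx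
    rcases eq_or_ne c 0 with rfl | h0
    · simp
    · have h1 := hc x hx
      calc x * c⁻¹ = c⁻¹ * (c * x) * c⁻¹ := by rw [← mul_assoc, inv_mul_cancel₀ h0, one_mul]
        _ = c⁻¹ * x := by rw [← h1, mul_assoc, mul_assoc, mul_inv_cancel₀ h0, mul_one]
  have hCf : Module.Finite Z C :=
    FiniteDimensional.finiteDimensional_submodule (Subalgebra.toSubmodule C)
  have hKf : Module.Finite Z K :=
    FiniteDimensional.finiteDimensional_submodule (Subalgebra.toSubmodule K)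
  let c := Module.finBasis Z C
  obtain ⟨n, y, hy, hspan⟩ := exists_right_basis C hC c
  let B : Module.Basis (Fin n × Fin (Module.finrank Z C)) Z Q :=
    Module.Basis.mk hy (fun q _ => hspan q)
  have hB : ∀ p, B p = y p.1 * (c p.2 : Q) := fun p => Module.Basis.mk_apply hy _ p
  have hQ : Module.finrank Z Q = n * Module.finrank Z C := by
    rw [Module.finrank_eq_card_basis B, Fintype.card_prod, Fintype.card_fin, Fintype.card_fin]
  let R := Q ⊗[Z] (↥K)ᵐᵒᵖ
  let _ : Module R Q := Module.compHom Q (phi Z Q K).toRingHom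
  have hsm : ∀ (r : R) (x : Q), r • x = phi Z Q K r x := fun r x => rfl
  have hsimple : IsSimpleModule R Q := by
    rw [isSimpleModule_iff_toSpanSingleton_surjective]
    refine ⟨inferInstance, fun x hx y => ⟨(y * x⁻¹) ⊗ₜ[Z] 1, ?_⟩⟩
    rw [LinearMap.toSpanSingleton_apply, hsm, phi_tmul, inv_mul_cancel_right₀ hx, unop_one,
      OneMemClass.coe_one, mul_one]
  have hE : ∀ (e : Module.End R Q), e 1 ∈ C ∧ ∀ x, e x = x * e 1 := by
    intro e
    have h1 : ∀ x, e x = x * e 1 := by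
      intro x
      have := e.map_smul (x ⊗ₜ[Z] 1 : R) 1
      rw [hsm, hsm, phi_tmul, phi_tmul, unop_one, OneMemClass.coe_one, mul_one, mul_one,
        mul_one] at this
      exact this
    refine ⟨?_, h1⟩
    rw [Subalgebra.mem_centralizer_iff]
    intro l hl
    have := e.map_smul (1 ⊗ₜ[Z] op (⟨l, hl⟩ : K) : R) 1
    rw [hsm, hsm, phi_tmul, phi_tmul, unop_op, one_mul, one_mul, one_mul] at this
    rw [← this, ← h1]
  have hsurj : Function.Surjective
      (LinearMap.pi fun j : Fin n => (LinearMap.applyₗ (y j)) ∘ₗ (phi Z Q K).toLinearMap :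
        R →ₗ[Z] (Fin n → Q)) := by
    intro t
    let f0 : Q →ₗ[Z] Q := B.constr Z (fun p => t p.1 * (c p.2 : Q))
    have hf0 : ∀ (j : Fin n) (e : C), f0 (y j * (e : Q)) = t j * (e : Q) := by
      intro j e
      have h1 : ∀ z : Q, z * (e : Q) = ∑ a, c.repr e a • (z * (c a : Q)) := by
        intro z
        conv_lhs => rw [← c.sum_repr e]
        rw [AddSubmonoidClass.coe_finsetSum, Finset.mul_sum]
        exact Finset.sum_congr rfl fun a _ => by rw [SetLike.val_smul, mul_smul_comm]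
      rw [h1, h1, map_sum]
      refine Finset.sum_congr rfl fun a _ => ?_
      rw [map_smul, ← hB (j, a)]
      congr 1
      exact B.constr_basis Z _ _
    have hf1 : ∀ (x : Q) (e : C), f0 (x * (e : Q)) = f0 x * (e : Q) := by
      intro x e
      have h1 : (f0 ∘ₗ LinearMap.mulRight Z (e : Q)) = (LinearMap.mulRight Z (e : Q)) ∘ₗ f0 := by
        refine B.ext fun p => ?_
        rw [LinearMap.comp_apply, LinearMap.comp_apply, LinearMap.mulRight_apply,
          LinearMap.mulRight_apply, hB, mul_assoc, ← MulMemClass.coe_mul, hf0, hf0,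
          MulMemClass.coe_mul, mul_assoc]
      exact LinearMap.congr_fun h1 x
    let f : Module.End (Module.End R Q) Q :=
      { toFun := f0
        map_add' := f0.map_add
        map_smul' := fun e x => by
          have h2 := hE e
          change f0 (e x) = e (f0 x)
          rw [h2.2 x, h2.2 (f0 x)]
          exact hf1 x ⟨e 1, h2.1⟩ }
    obtain ⟨r, hr⟩ := jacobson_density (R := R) f (Finset.univ.image y)
    refine ⟨r, funext fun j => ?_⟩
    have h3 := hr (y j) (Finset.mem_image_of_mem _ (Finset.mem_univ _))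
    rw [hsm] at h3
    have h4 : f0 (y j) = t j := by
      have := hf0 j 1
      rwa [OneMemClass.coe_one, mul_one, mul_one] at this
    change phi Z Q K r (y j) = t j
    rw [← h3, ← h4]
    rfl
  have h1 : n * Module.finrank Z Q ≤ Module.finrank Z Q * Module.finrank Z K := by
    have h2 := LinearMap.finrank_le_finrank_of_surjective hsurj
    rw [Module.finrank_pi_fintype, Finset.sum_const, Finset.card_univ, Fintype.card_fin,
      smul_eq_mul, Module.finrank_tensorProduct] at h2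
    have h3 : Module.finrank Z (↥K)ᵐᵒᵖ = Module.finrank Z K :=
      (MulOpposite.opLinearEquiv Z).finrank_eq.symm
    rwa [h3] at h2
  have h2 : 0 < Module.finrank Z Q := Module.finrank_pos
  have h3 : n ≤ Module.finrank Z K := by
    refine Nat.le_of_mul_le_mul_left ?_ h2
    rw [mul_comm]
    exact h1
  rw [hQ]
  exact Nat.mul_le_mul_right _ h3

end Pool.Agent.Lib.MP_c37a72_al.CO
end

section
/-!
# MP_c37a72_al, block KC: module ALK
-/
set_option autoImplicit false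
set_option linter.all false

open scoped TensorProduct
open Coalgebra HopfAlgebra
open Pool.Agent.Lib.MP_c37a72_al.EG Pool.Agent.Lib.MP_c37a72_al.CO Pool.Agent.Lib.MP_c37a72_al.LB

namespace Pool.Agent.Lib.MP_c37a72_al.KC

universe u v w

open CO.ALPM in
/-- **ALK** -/
theorem specALK (hUNI : CO.SpecUNI.{u, v}) (hBAS : CO.SpecBAS.{u, v}) : SpecALK.{u, v} := by
  intro k H Z Q F2 R2 _ _ _ _ _ _ _ _ _ _ _ _ _ _ _ ι jF j D sQ sZ R m o r hQ hR2 hs hR hr Ω _ _
    κ x y hκ hK al hal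
  have := hQ.fin
  obtain ⟨-, -, hcent, hint⟩ := hBAS k Z Q _ (Module.finBasis Z Q)
  have hcz : ∀ (z : Z) (q : Q), algebraMap Z Q z * q = q * algebraMap Z Q z :=
    fun z q => Algebra.commutes z q
  -- the character of `Rcom`
  let χ₀ : ↥(Rcom k Z ι) →ₐ[k] ↥(K2 Z F2 ι j D) :=
    { toFun := fun y' => ⟨j (y' : Q ⊗[k] Q), hK y' y'.2⟩
      map_one' := Subtype.ext (map_one j)
      map_mul' := fun a b => Subtype.ext (map_mul j _ _)
      map_zero' := Subtype.ext (map_zero j)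
      map_add' := fun a b => Subtype.ext (map_add j _ _)
      commutes' := fun a => Subtype.ext (j.commutes a) }
  let χ : ↥(Rcom k Z ι) →ₐ[k] Ω := κ.comp χ₀
  let i : Z ⊗[k] Z →ₐ[k] Ω := Algebra.TensorProduct.lift x y fun _ _ => mul_comm _ _
  have hi : ∀ a b, i (a ⊗ₜ[k] b) = x a * y b := fun a b => by simp [i]
  -- elements of the commutant
  let rr : Fin m → ↥(Opp k Z ι) → ↥(Rcom k Z ι) := fun s c => ⟨r s c, hr.mem s c⟩
  let ZZ : Z ⊗[k] Z → ↥(Rcom k Z ι) := fun d => ⟨zz k Z Q d, cent_mem (hcent d)⟩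
  have hal' : ∀ s c, al s c = χ (rr s c) := fun s c => hal s c (hK _ (hr.mem s c))
  have hZZ : ∀ a b, χ (ZZ (a ⊗ₜ[k] b)) = x a * y b := by
    intro a b
    rw [← hκ a b]
    have h1 : χ₀ (ZZ (a ⊗ₜ[k] b)) =
        algebraMap F2 ↥(K2 Z F2 ι j D) (jF (a ⊗ₜ[k] b)) := by
      apply Subtype.ext
      exact hR2.cl.comp (a ⊗ₜ[k] b)
    change κ (χ₀ (ZZ (a ⊗ₜ[k] b))) = _
    rw [h1]
  have huniq : ∀ f g : Fin m → ↥(Rcom k Z ι),
      ∑ s, (f s : Q ⊗[k] Q) * ((o s : Q) ⊗ₜ[k] (1 : Q)) =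
        ∑ s, (g s : Q ⊗[k] Q) * ((o s : Q) ⊗ₜ[k] (1 : Q)) → ∀ s, f s = g s := by
    intro f g hfg s
    have h1 := hUNI k H Z Q ι hQ m o (fun s => ((f s - g s : ↥(Rcom k Z ι)) : Q ⊗[k] Q))
      (fun s h => comm_dd (f s - g s).2 h) (by
        have h2 : ∀ s, ((f s - g s : ↥(Rcom k Z ι)) : Q ⊗[k] Q) * ((o s : Q) ⊗ₜ[k] (1 : Q)) =
            (f s : Q ⊗[k] Q) * ((o s : Q) ⊗ₜ[k] (1 : Q)) -
              (g s : Q ⊗[k] Q) * ((o s : Q) ⊗ₜ[k] (1 : Q)) := by
          intro s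
          rw [← sub_mul]
          rfl
        rw [Finset.sum_congr rfl fun s _ => h2 s, Finset.sum_sub_distrib, hfg, sub_self]) s
    have h3 : f s - g s = 0 := Subtype.ext h1
    exact sub_eq_zero.mp h3
  have hexp : ∀ (h : H) (c : ↥(Opp k Z ι)),
      ∑ t, (rr t c : Q ⊗[k] Q) * (((R h (o t) : ↥(Opp k Z ι)) : Q) ⊗ₜ[k] (1 : Q)) =
        1 ⊗ₜ[k] sQ ((R h c : ↥(Opp k Z ι)) : Q) := by
    intro h c
    rw [hR.coe h c, ← hr.eq h c]
    refine Finset.sum_congr rfl fun t _ => ?_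
    rw [hR.coe h (o t)]
  have hexp1 : ∀ c : ↥(Opp k Z ι),
      ∑ t, (rr t c : Q ⊗[k] Q) * ((o t : Q) ⊗ₜ[k] (1 : Q)) = 1 ⊗ₜ[k] sQ (c : Q) := by
    intro c
    have h1 := hexp 1 c
    rw [hR.one] at h1
    exact h1
  -- (1) linearity
  have E0 : ∀ (c c' : ↥(Opp k Z ι)) (s : Fin m), rr s (c + c') = rr s c + rr s c' := by
    intro c c'
    refine huniq (fun s => rr s (c + c')) (fun s => rr s c + rr s c') ?_
    rw [hexp1]
    have h2 : ∀ s, ((rr s c + rr s c' : ↥(Rcom k Z ι)) : Q ⊗[k] Q) * ((o s : Q) ⊗ₜ[k] (1 : Q)) =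
        (rr s c : Q ⊗[k] Q) * ((o s : Q) ⊗ₜ[k] (1 : Q)) +
          (rr s c' : Q ⊗[k] Q) * ((o s : Q) ⊗ₜ[k] (1 : Q)) := by
      intro s
      rw [← add_mul]
      rfl
    rw [Finset.sum_congr rfl fun s _ => h2 s, Finset.sum_add_distrib, hexp1, hexp1]
    rw [← TensorProduct.tmul_add, ← map_add]
    rfl
  have E1 : ∀ (z : Z) (c : ↥(Opp k Z ι)) (s : Fin m),
      rr s (z • c) = ZZ (1 ⊗ₜ[k] sZ z) * rr s c := by
    intro z c
    refine huniq (fun s => rr s (z • c)) (fun s => ZZ (1 ⊗ₜ[k] sZ z) * rr s c) ?_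
    rw [hexp1]
    have h2 : ∀ s, ((ZZ (1 ⊗ₜ[k] sZ z) * rr s c : ↥(Rcom k Z ι)) : Q ⊗[k] Q) *
        ((o s : Q) ⊗ₜ[k] (1 : Q)) = zz k Z Q (1 ⊗ₜ[k] sZ z) *
          ((rr s c : Q ⊗[k] Q) * ((o s : Q) ⊗ₜ[k] (1 : Q))) := by
      intro s
      rw [← mul_assoc]
      rfl
    rw [Finset.sum_congr rfl fun s _ => h2 s, ← Finset.mul_sum, hexp1]
    rw [zz_tmul, Algebra.TensorProduct.tmul_mul_tmul, map_one, one_mul]
    have h3 : ((z • c : ↥(Opp k Z ι)) : Q) = algebraMap Z Q z * (c : Q) := by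
      rw [← Algebra.smul_def]
      rfl
    rw [h3, hs.mul, hs.zz, hcz]
  -- (2) the unit
  have hs1 : sQ 1 = 1 := by
    have h1 := hs.ext 1
    rw [antipode_one, map_one ι] at h1
    exact h1
  have E2 : ∀ s : Fin m, rr s 1 = ZZ (o.repr 1 s ⊗ₜ[k] 1) := by
    refine huniq (fun s => rr s 1) (fun s => ZZ (o.repr 1 s ⊗ₜ[k] 1)) ?_
    rw [hexp1 1]
    have h1 := expL o (1 : ↥(Opp k Z ι))
    rw [OneMemClass.coe_one] at h1
    rw [OneMemClass.coe_one, hs1, h1]
  -- (3) the action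
  have E3 : ∀ (h : H) (c : ↥(Opp k Z ι)) (s : Fin m),
      rr s (R h c) = ∑ t, ZZ (o.repr (R h (o t)) s ⊗ₜ[k] 1) * rr t c := by
    intro h c
    refine huniq (fun s => rr s (R h c))
      (fun s => ∑ t, ZZ (o.repr (R h (o t)) s ⊗ₜ[k] 1) * rr t c) ?_
    rw [hexp1, ← hexp h c]
    have h2 : ∀ s, ((∑ t, ZZ (o.repr (R h (o t)) s ⊗ₜ[k] 1) * rr t c : ↥(Rcom k Z ι)) :
        Q ⊗[k] Q) * ((o s : Q) ⊗ₜ[k] (1 : Q)) = ∑ t, (rr t c : Q ⊗[k] Q) *
          (zz k Z Q (o.repr (R h (o t)) s ⊗ₜ[k] 1) * ((o s : Q) ⊗ₜ[k] (1 : Q))) := by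
      intro s
      rw [AddSubmonoidClass.coe_finsetSum, Finset.sum_mul]
      refine Finset.sum_congr rfl fun t _ => ?_
      have h3 : ((ZZ (o.repr (R h (o t)) s ⊗ₜ[k] 1) * rr t c : ↥(Rcom k Z ι)) : Q ⊗[k] Q) =
          zz k Z Q (o.repr (R h (o t)) s ⊗ₜ[k] 1) * (rr t c : Q ⊗[k] Q) := rfl
      rw [h3, hcent, mul_assoc]
    rw [Finset.sum_congr rfl fun s _ => h2 s, Finset.sum_comm]
    refine Finset.sum_congr rfl fun t _ => ?_
    rw [← Finset.mul_sum, ← expL o (R h (o t))]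
  -- (4) products
  have E4 : ∀ (c c' : ↥(Opp k Z ι)) (s : Fin m),
      rr s (c * c') = ∑ a, ∑ b, ZZ (o.repr (o a * o b) s ⊗ₜ[k] 1) * (rr b c' * rr a c) := by
    intro c c'
    refine huniq (fun s => rr s (c * c'))
      (fun s => ∑ a, ∑ b, ZZ (o.repr (o a * o b) s ⊗ₜ[k] 1) * (rr b c' * rr a c)) ?_
    rw [hexp1]
    have h1 : ((1 : Q) ⊗ₜ[k] sQ ((c * c' : ↥(Opp k Z ι)) : Q) : Q ⊗[k] Q) =
        (1 ⊗ₜ[k] sQ (c' : Q)) * (1 ⊗ₜ[k] sQ (c : Q)) := by
      rw [Algebra.TensorProduct.tmul_mul_tmul, one_mul, ← hs.mul]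
      rfl
    have h2 : ((1 : Q) ⊗ₜ[k] sQ ((c * c' : ↥(Opp k Z ι)) : Q) : Q ⊗[k] Q) =
        ∑ a, ∑ b, ((rr b c' : Q ⊗[k] Q) * (rr a c : Q ⊗[k] Q)) *
          (((o a * o b : ↥(Opp k Z ι)) : Q) ⊗ₜ[k] (1 : Q)) := by
      rw [h1]
      conv_lhs => rw [← hexp1 c', Finset.sum_mul]
      rw [Finset.sum_comm]
      refine Finset.sum_congr rfl fun b _ => ?_
      have h3 : ((o b : Q) ⊗ₜ[k] (1 : Q) : Q ⊗[k] Q) * (1 ⊗ₜ[k] sQ (c : Q)) =
          (1 ⊗ₜ[k] sQ (c : Q)) * ((o b : Q) ⊗ₜ[k] (1 : Q)) := by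
        rw [Algebra.TensorProduct.tmul_mul_tmul, Algebra.TensorProduct.tmul_mul_tmul, one_mul,
          mul_one, one_mul, mul_one]
      rw [mul_assoc, h3, ← hexp1 c, Finset.sum_mul, Finset.mul_sum]
      refine Finset.sum_congr rfl fun a _ => ?_
      have h4 : (((o a * o b : ↥(Opp k Z ι)) : Q) ⊗ₜ[k] (1 : Q) : Q ⊗[k] Q) =
          ((o a : Q) ⊗ₜ[k] (1 : Q)) * ((o b : Q) ⊗ₜ[k] (1 : Q)) := by
        rw [Algebra.TensorProduct.tmul_mul_tmul, one_mul]
        rfl
      rw [h4]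
      simp only [mul_assoc]
    rw [h2]
    have h5 : ∀ s, ((∑ a, ∑ b, ZZ (o.repr (o a * o b) s ⊗ₜ[k] 1) * (rr b c' * rr a c) :
        ↥(Rcom k Z ι)) : Q ⊗[k] Q) * ((o s : Q) ⊗ₜ[k] (1 : Q)) =
        ∑ a, ∑ b, ((rr b c' : Q ⊗[k] Q) * (rr a c : Q ⊗[k] Q)) *
          (zz k Z Q (o.repr (o a * o b) s ⊗ₜ[k] 1) * ((o s : Q) ⊗ₜ[k] (1 : Q))) := by
      intro s
      rw [AddSubmonoidClass.coe_finsetSum, Finset.sum_mul]
      refine Finset.sum_congr rfl fun a _ => ?_
      rw [AddSubmonoidClass.coe_finsetSum, Finset.sum_mul]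
      refine Finset.sum_congr rfl fun b _ => ?_
      have h3 : ((ZZ (o.repr (o a * o b) s ⊗ₜ[k] 1) * (rr b c' * rr a c) : ↥(Rcom k Z ι)) :
          Q ⊗[k] Q) = zz k Z Q (o.repr (o a * o b) s ⊗ₜ[k] 1) *
            ((rr b c' : Q ⊗[k] Q) * (rr a c : Q ⊗[k] Q)) := rfl
      rw [h3, hcent, mul_assoc]
    rw [Finset.sum_congr rfl fun s _ => h5 s]
    symm
    rw [Finset.sum_comm]
    refine Finset.sum_congr rfl fun a _ => ?_
    rw [Finset.sum_comm]
    refine Finset.sum_congr rfl fun b _ => ?_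
    rw [← Finset.mul_sum, ← expL o (o a * o b)]
  refine ⟨?_, ?_, ?_, ?_, ?_⟩
  · intro s c c'
    rw [hal', hal', hal', E0, map_add]
  · intro s z c
    rw [hal', hal', E1, map_mul, hZZ, map_one x, one_mul]
  · intro s c c'
    rw [hal', E4, map_sum]
    refine Finset.sum_congr rfl fun a _ => ?_
    rw [map_sum]
    refine Finset.sum_congr rfl fun b _ => ?_
    rw [map_mul χ, map_mul χ, hZZ, map_one y, mul_one, hal', hal', mul_comm (χ (rr b c'))]
  · intro s
    rw [hal', E2, hZZ, map_one y, mul_one]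
  · intro s h c
    rw [hal', E3, map_sum]
    refine Finset.sum_congr rfl fun t _ => ?_
    rw [map_mul, hZZ, map_one y, mul_one, hal']

end Pool.Agent.Lib.MP_c37a72_al.KC
end

section
/-!
# MP_c37a72_al, block KC: module DM2

`[R_2 : F_2] ≤ m [M_2 : F_2]`.
-/
set_option autoImplicit false

open scoped TensorProduct
open Coalgebra HopfAlgebra
open Pool.Agent.Lib.MP_c37a72_al.EG Pool.Agent.Lib.MP_c37a72_al.CO Pool.Agent.Lib.MP_c37a72_al.LB

namespace Pool.Agent.Lib.MP_c37a72_al.KC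

universe u v w

theorem specDM2 (hOLF : EG.SpecOLF.{u, v}) (hDCT : CO.SpecDCT.{v}) : SpecDM2.{u, v} := by
  intro k H Z Q F2 R2 _ _ _ _ _ _ _ _ _ _ _ _ _ _ _ _ ι jF j D hQ hR
  classical
  have := hQ.fin
  have hfin : Module.Finite F2 R2 := hR.cl.finite_iZ hR.frc
  obtain ⟨-, -, hinv, -⟩ := hOLF k H Z Q ι hQ
  have hdim := hDCT Z Q (Ol k Z ι) hQ.fin hinv
  obtain ⟨n, y, hind, hsp⟩ := CO.DCTM.exists_right_basis (Ol k Z ι) hinv
    (Module.finBasis Z ↥(Ol k Z ι))
  have hs : 0 < Module.finrank Z ↥(Ol k Z ι) := Module.finrank_pos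
  have hcard : Module.finrank Z Q = n * Module.finrank Z ↥(Ol k Z ι) := by
    rw [Module.finrank_eq_card_basis (Module.Basis.mk hind fun q _ => hsp q), Fintype.card_prod,
      Fintype.card_fin, Fintype.card_fin]
  have hn : n ≤ Module.finrank Z ↥(Opp k Z ι) := by
    rw [hcard, mul_comm] at hdim
    exact Nat.le_of_mul_le_mul_left hdim hs
  -- the map `M2^n → R2`
  let G : (Fin n → ↥(M2 Z F2 ι j D)) →ₗ[F2] R2 :=
    ∑ i, (LinearMap.mulLeft F2 (j (y i ⊗ₜ[k] 1))).comp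
      ((M2 Z F2 ι j D).val.toLinearMap.comp (LinearMap.proj i))
  have hG : ∀ x, G x = ∑ i, j (y i ⊗ₜ[k] 1) * (x i : R2) := by
    intro x
    simp [G, LinearMap.sum_apply]
  have hPhi : ∀ x : Q ⊗[k] Q, Phi j D x ∈ LinearMap.range G := by
    intro x
    induction x using TensorProduct.induction_on with
    | zero => rw [map_zero]; exact zero_mem _
    | add x x' hx hx' => rw [map_add]; exact add_mem hx hx'
    | tmul a b =>
      rw [Phi_tmul]
      have ha : ∃ o : Fin n → ↥(Ol k Z ι), a = ∑ i, y i * (o i : Q) := by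
        have h1 := hsp a
        rw [Submodule.mem_span_range_iff_exists_fun] at h1
        obtain ⟨c, hc⟩ := h1
        refine ⟨fun i => ∑ s, c (i, s) • Module.finBasis Z ↥(Ol k Z ι) s, ?_⟩
        rw [← hc, Fintype.sum_prod_type]
        refine Finset.sum_congr rfl fun i _ => ?_
        rw [AddSubmonoidClass.coe_finsetSum, Finset.mul_sum]
        refine Finset.sum_congr rfl fun s _ => ?_
        rw [SetLike.val_smul, mul_smul_comm]
      obtain ⟨o, ho⟩ := ha
      have hm : ∀ i, j ((o i : Q) ⊗ₜ[k] 1) * D b ∈ M2 Z F2 ι j D := by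
        intro i
        refine mul_mem (Algebra.subset_adjoin (Or.inl ⟨(o i : Q), (o i).2, rfl⟩))
          (Algebra.subset_adjoin (Or.inr ⟨b, rfl⟩))
      refine ⟨fun i => ⟨_, hm i⟩, ?_⟩
      rw [hG]
      conv_rhs => rw [ho]
      rw [TensorProduct.sum_tmul, map_sum, Finset.sum_mul]
      refine Finset.sum_congr rfl fun i _ => ?_
      rw [← mul_assoc, ← map_mul, Algebra.TensorProduct.tmul_mul_tmul, mul_one]
  have hsurj : Function.Surjective G := by
    intro r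
    obtain ⟨t, x, ht, hx⟩ := Phi_surj hQ hR.frc hR.cl hR.D_ι r
    obtain ⟨m, hm⟩ := hPhi x
    refine ⟨(jF t)⁻¹ • m, ?_⟩
    have h0 : jF t ≠ 0 := hR.frc.ne' ht
    rw [map_smul, hm, ← hx, ← Algebra.smul_def, smul_smul, inv_mul_cancel₀ h0, one_smul]
  have h1 := LinearMap.finrank_le_finrank_of_surjective hsurj
  have h2 : Module.finrank F2 (Fin n → ↥(M2 Z F2 ι j D)) =
      n * Module.finrank F2 ↥(M2 Z F2 ι j D) := by
    rw [Module.finrank_pi_fintype, Finset.sum_const, Finset.card_univ, Fintype.card_fin,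
      smul_eq_mul]
  rw [h2] at h1
  exact h1.trans (Nat.mul_le_mul_right _ hn)

end Pool.Agent.Lib.MP_c37a72_al.KC
end

section
/-!
# MP_c37a72_al, block KC: module KDT
-/
set_option autoImplicit false
set_option linter.all false

open scoped TensorProduct
open Coalgebra HopfAlgebra
open Pool.Agent.Lib.MP_c37a72_al.EG Pool.Agent.Lib.MP_c37a72_al.CO Pool.Agent.Lib.MP_c37a72_al.LB

namespace Pool.Agent.Lib.MP_c37a72_al.KC

universe u v w

namespace KDTM

theorem exists_fin {k : Type u} {M N : Type*} [Field k] [AddCommGroup M] [Module k M]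
    [AddCommGroup N] [Module k N] (w : M ⊗[k] N) :
    ∃ (n : ℕ) (a : Fin n → M) (c : Fin n → N), w = ∑ i, a i ⊗ₜ[k] c i := by
  induction w with
  | zero => exact ⟨0, Fin.elim0, Fin.elim0, by simp⟩
  | tmul a c => exact ⟨1, fun _ => a, fun _ => c, by simp⟩
  | add w w' h h' =>
    obtain ⟨n, a, c, rfl⟩ := h
    obtain ⟨n', a', c', rfl⟩ := h'
    refine ⟨n + n', Fin.append a a', Fin.append c c', ?_⟩
    rw [Fin.sum_univ_add]
    simp

section

variable {k : Type u} {H Z Q F2 R2 : Type v} [Field k] [Ring H] [HopfAlgebra k H]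
    [Field Z] [Algebra k Z] [DivisionRing Q] [Algebra k Q] [Algebra Z Q] [IsScalarTower k Z Q]
    [Field F2] [Algebra k F2] [Ring R2] [Algebra k R2] [Algebra F2 R2] [IsScalarTower k F2 R2]
    {ι : H →ₐ[k] Q} {j : Q ⊗[k] Q →ₐ[k] R2} {D : Q →ₐ[k] R2}

/-- `Rcom → K2`, `y ↦ j y` -/
noncomputable def toK (hK : ∀ y ∈ Rcom k Z ι, j y ∈ K2 Z F2 ι j D) :
    ↥(Rcom k Z ι) →ₐ[k] ↥(K2 Z F2 ι j D) where
  toFun y := ⟨j y, hK y y.2⟩
  map_one' := Subtype.ext (map_one j)
  map_mul' a b := Subtype.ext (map_mul j _ _)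
  map_zero' := Subtype.ext (map_zero j)
  map_add' a b := Subtype.ext (map_add j _ _)
  commutes' c := Subtype.ext (j.commutes c)

end

end KDTM

open KDTM in
/-- **KDT** -/
theorem specKDT (hKCL : SpecKCL.{u, v}) (hRCT : SpecRCT.{u, v}) (hRES : SpecRES.{u, v})
    (hUNI : SpecUNI.{u, v}) (hBAS : SpecBAS.{u, v}) : SpecKDT.{u, v} := by
  classical
  intro k H Z Q F2 R2 _ _ _ _ _ _ _ _ _ _ _ _ _ _ _ _ ι jF j D sQ sZ m o r hQ hR2 hS hs hrd
    Ω _ _ κ κ' hF hκ
  have := hQ.fin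
  obtain ⟨R, hR⟩ := hRES k H Z Q ι hQ
  obtain ⟨htau, hW⟩ := hRCT k H Z Q ι sQ sZ R hQ hS hs hR
  obtain ⟨hK, hsurj⟩ := hKCL k H Z Q F2 R2 ι jF j D hQ hR2 hS
  obtain ⟨-, -, hcent, -⟩ := hBAS k Z Q _ (Module.finBasis Z Q)
  let f : ↥(Rcom k Z ι) →ₐ[k] Ω := κ.comp (toK hK)
  let f' : ↥(Rcom k Z ι) →ₐ[k] Ω := κ'.comp (toK hK)
  let rr : Fin m → ↥(Opp k Z ι) → ↥(Rcom k Z ι) := fun s c => ⟨r s c, hrd.mem s c⟩
  let ZZ : Z ⊗[k] Z → ↥(Rcom k Z ι) := fun d => ⟨zz k Z Q d, ALPM.cent_mem (hcent d)⟩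
  have hfr : ∀ s c, f (rr s c) = f' (rr s c) := fun s c => hκ s c (hK _ (hrd.mem s c))
  have hZK : ∀ d, toK hK (ZZ d) = algebraMap F2 ↥(K2 Z F2 ι j D) (jF d) := fun d =>
    Subtype.ext (hR2.cl.comp d)
  have hfZ : ∀ d, f (ZZ d) = κ (algebraMap F2 ↥(K2 Z F2 ι j D) (jF d)) := fun d => by
    show κ (toK hK (ZZ d)) = _
    rw [hZK]
  have hfZ' : ∀ d, f' (ZZ d) = κ (algebraMap F2 ↥(K2 Z F2 ι j D) (jF d)) := fun d => by
    show κ' (toK hK (ZZ d)) = _
    rw [hZK, hF]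
  have hne : ∀ d : Z ⊗[k] Z, d ≠ 0 → κ (algebraMap F2 ↥(K2 Z F2 ι j D) (jF d)) ≠ 0 := by
    intro d hd h0
    have h1 : jF d ≠ 0 := hR2.frc.ne' hd
    have h2 : (κ.toRingHom.comp (algebraMap F2 ↥(K2 Z F2 ι j D))) (jF d) = 0 := h0
    exact h1 ((map_eq_zero _).mp h2)
  have huniq : ∀ f g : Fin m → ↥(Rcom k Z ι),
      ∑ s, (f s : Q ⊗[k] Q) * ((o s : Q) ⊗ₜ[k] (1 : Q)) =
        ∑ s, (g s : Q ⊗[k] Q) * ((o s : Q) ⊗ₜ[k] (1 : Q)) → ∀ s, f s = g s := by
    intro f g hfg s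
    have h1 := hUNI k H Z Q ι hQ m o (fun s => ((f s - g s : ↥(Rcom k Z ι)) : Q ⊗[k] Q))
      (fun s h => ALPM.comm_dd (f s - g s).2 h) (by
        have h2 : ∀ s, ((f s - g s : ↥(Rcom k Z ι)) : Q ⊗[k] Q) * ((o s : Q) ⊗ₜ[k] (1 : Q)) =
            (f s : Q ⊗[k] Q) * ((o s : Q) ⊗ₜ[k] (1 : Q)) -
              (g s : Q ⊗[k] Q) * ((o s : Q) ⊗ₜ[k] (1 : Q)) := by
          intro s
          rw [← sub_mul]
          rfl
        rw [Finset.sum_congr rfl fun s _ => h2 s, Finset.sum_sub_distrib, hfg, sub_self]) s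
    have h3 : f s - g s = 0 := Subtype.ext h1
    exact sub_eq_zero.mp h3
  have hone : ∀ x : ↥(Opp k Z ι), adrQ k Z ι 1 (x : Q) = (x : Q) := by
    intro x
    rw [← hR.coe, hR.one]
    rfl
  have hexp1 : ∀ c : ↥(Opp k Z ι),
      ∑ t, (rr t c : Q ⊗[k] Q) * ((o t : Q) ⊗ₜ[k] (1 : Q)) = 1 ⊗ₜ[k] sQ (c : Q) := by
    intro c
    have h1 := hrd.eq 1 c
    simp only [hone] at h1
    exact h1
  -- the two maps agree on `Rcom`
  have hff : ∀ y0 : ↥(Rcom k Z ι), f y0 = f' y0 := by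
    intro y0
    obtain ⟨w, hw, -⟩ := hW _ y0.2
    obtain ⟨n, a, c, hac⟩ := exists_fin w
    have h1 : (y0 : Q ⊗[k] Q) = ∑ l, (a l : Q) ⊗ₜ[k] sQ (c l : Q) := by
      rw [← hw, hac, map_sum]
      exact Finset.sum_congr rfl fun l _ => tau_tmul k Z ι sQ _ _
    have h2 : ∀ s, y0 * ZZ (o.repr 1 s ⊗ₜ[k] 1) =
        ∑ l, ∑ i, rr i (c l) * ZZ (o.repr (o i * a l) s ⊗ₜ[k] 1) := by
      refine huniq (fun s => y0 * ZZ (o.repr 1 s ⊗ₜ[k] 1))
        (fun s => ∑ l, ∑ i, rr i (c l) * ZZ (o.repr (o i * a l) s ⊗ₜ[k] 1)) ?_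
      have h3 : ∑ s, ((y0 * ZZ (o.repr 1 s ⊗ₜ[k] 1) : ↥(Rcom k Z ι)) : Q ⊗[k] Q) *
          ((o s : Q) ⊗ₜ[k] (1 : Q)) = (y0 : Q ⊗[k] Q) := by
        have h4 : ∀ s, ((y0 * ZZ (o.repr 1 s ⊗ₜ[k] 1) : ↥(Rcom k Z ι)) : Q ⊗[k] Q) *
          ((o s : Q) ⊗ₜ[k] (1 : Q)) = (y0 : Q ⊗[k] Q) *
            (zz k Z Q (o.repr 1 s ⊗ₜ[k] 1) * ((o s : Q) ⊗ₜ[k] (1 : Q))) := by
          intro s
          rw [← mul_assoc]
          rfl
        rw [Finset.sum_congr rfl fun s _ => h4 s, ← Finset.mul_sum, ← ALPM.expL o 1]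
        exact mul_one _
      rw [h3]
      have h5 : ∀ s, ((∑ l, ∑ i, rr i (c l) * ZZ (o.repr (o i * a l) s ⊗ₜ[k] 1) :
          ↥(Rcom k Z ι)) : Q ⊗[k] Q) * ((o s : Q) ⊗ₜ[k] (1 : Q)) =
          ∑ l, ∑ i, (rr i (c l) : Q ⊗[k] Q) *
            (zz k Z Q (o.repr (o i * a l) s ⊗ₜ[k] 1) * ((o s : Q) ⊗ₜ[k] (1 : Q))) := by
        intro s
        rw [AddSubmonoidClass.coe_finsetSum, Finset.sum_mul]
        refine Finset.sum_congr rfl fun l _ => ?_
        rw [AddSubmonoidClass.coe_finsetSum, Finset.sum_mul]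
        refine Finset.sum_congr rfl fun i _ => ?_
        rw [← mul_assoc]
        rfl
      rw [Finset.sum_congr rfl fun s _ => h5 s, h1]
      symm
      rw [Finset.sum_comm]
      refine Finset.sum_congr rfl fun l _ => ?_
      rw [Finset.sum_comm]
      have h6 : ∀ i, ∑ s, (rr i (c l) : Q ⊗[k] Q) *
            (zz k Z Q (o.repr (o i * a l) s ⊗ₜ[k] 1) * ((o s : Q) ⊗ₜ[k] (1 : Q))) =
            ((rr i (c l) : Q ⊗[k] Q) * ((o i : Q) ⊗ₜ[k] (1 : Q))) *
              ((a l : Q) ⊗ₜ[k] (1 : Q)) := by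
        intro i
        rw [← Finset.mul_sum, ← ALPM.expL o (o i * a l), mul_assoc,
          Algebra.TensorProduct.tmul_mul_tmul, one_mul]
        rfl
      rw [Finset.sum_congr rfl fun i _ => h6 i, ← Finset.sum_mul, hexp1 (c l),
        Algebra.TensorProduct.tmul_mul_tmul, one_mul, mul_one]
    obtain ⟨s, hs0⟩ : ∃ s, o.repr 1 s ≠ 0 := by
      by_contra hcon
      push Not at hcon
      have h3 : o.repr 1 = 0 := Finsupp.ext hcon
      have h4 : (1 : ↥(Opp k Z ι)) = 0 := by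
        rw [← o.repr.map_eq_zero_iff]
        exact h3
      exact one_ne_zero (congrArg (fun x : ↥(Opp k Z ι) => (x : Q)) h4)
    have h3 : (o.repr 1 s ⊗ₜ[k] (1 : Z) : Z ⊗[k] Z) ≠ 0 := by
      intro h0
      apply hs0
      have h4 : (Algebra.TensorProduct.includeLeft : Z →ₐ[k] Z ⊗[k] Z) (o.repr 1 s) = 0 := h0
      exact Algebra.TensorProduct.includeLeft_injective
        (FaithfulSMul.algebraMap_injective k Z) (by rw [h4, map_zero])
    have h4 := hne _ h3
    have h5 : f y0 * f (ZZ (o.repr 1 s ⊗ₜ[k] 1)) = f' y0 * f' (ZZ (o.repr 1 s ⊗ₜ[k] 1)) := by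
      rw [← map_mul f, ← map_mul f', h2 s, map_sum f, map_sum f']
      refine Finset.sum_congr rfl fun l _ => ?_
      rw [map_sum f, map_sum f']
      refine Finset.sum_congr rfl fun i _ => ?_
      rw [map_mul f, map_mul f', hfr, hfZ, hfZ']
    rw [hfZ, hfZ'] at h5
    exact mul_right_cancel₀ h4 h5
  -- conclusion
  apply AlgHom.ext
  intro v
  obtain ⟨t, y, ht, hy, hv⟩ := hsurj (v : R2) v.2
  have h1 : algebraMap F2 ↥(K2 Z F2 ι j D) (jF t) * v = toK hK ⟨y, hy⟩ := Subtype.ext hv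
  have h2 := congrArg κ h1
  have h3 := congrArg κ' h1
  rw [map_mul] at h2 h3
  have h4 : κ (toK hK ⟨y, hy⟩) = κ' (toK hK ⟨y, hy⟩) := hff ⟨y, hy⟩
  rw [h4, ← h3, ← hF] at h2
  exact mul_left_cancel₀ (hne t ht) h2

end Pool.Agent.Lib.MP_c37a72_al.KC
end
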