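import Pool.Agent.Lib.MP_c37a72_al.KC.Spec
import Pool.Agent.Lib.MP_c37a72_al.LB.TAL

/-!
# MP_c37a72_al, block KC, module DCD: dimension of the centraliser of a subfield
-/

set_option autoImplicit false
set_option linter.style.haveILetI false

open Pool.Agent.Lib.MP_c37a72_al.LB

namespace Pool.Agent.Lib.MP_c37a72_al.KC

universe v

namespace DCDM

variable {F R : Type v} [Field F] [Ring R] [Algebra F R] (K : Subalgebra F R)

theorem comm_of_mem {a : R} (ha : a ∈ Subalgebra.centralizer F (K : Set R)) (c : K) :
    (c : R) * a = a * c := by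
  rw [Subalgebra.mem_centralizer_iff] at ha
  exact ha c c.2

theorem commF (a : F) (c : K) (x : R) : c • a • x = a • c • x := by
  change (c : R) * (a • x) = a • ((c : R) * x)
  rw [Algebra.mul_smul_comm]

/-- the `K`-linear map with given coefficients -/
def mk {r : ℕ} (e : Fin r → R) (a : Fin r → ↥(Subalgebra.centralizer F (K : Set R))) : R →ₗ[K] R where
  toFun x := ∑ m, (a m : R) * x * e m
  map_add' x y := by
    rw [← Finset.sum_add_distrib]
    refine Finset.sum_congr rfl fun m _ => ?_
    rw [mul_add, add_mul]
  map_smul' c x := by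
    change ∑ m, (a m : R) * ((c : R) * x) * e m = (c : R) * ∑ m, (a m : R) * x * e m
    rw [Finset.mul_sum]
    refine Finset.sum_congr rfl fun m _ => ?_
    rw [← mul_assoc, ← comm_of_mem K (a m).2 c]
    simp only [mul_assoc]

end DCDM

open DCDM in
/-- **DCD**. -/
theorem specDCD : SpecDCD.{v} := by
  intro F R _ _ _ _ _ hc K hK
  classical
  letI : Field K := hK.toField
  haveI : Module.Finite K R := Module.Finite.of_restrictScalars_finite F K R
  haveI : SMulCommClass K F R := ⟨fun c a x => commF K a c x⟩
  set C := Subalgebra.centralizer F (K : Set R) with hC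
  let e := Module.finBasis F R
  let Psi : (Fin (Module.finrank F R) → C) →ₗ[F] (R →ₗ[K] R) :=
    { toFun := fun a => mk K e a
      map_add' := fun a b => by
        refine LinearMap.ext fun x => ?_
        change ∑ m, (((a m + b m : C) : R)) * x * e m =
          ∑ m, (a m : R) * x * e m + ∑ m, (b m : R) * x * e m
        rw [← Finset.sum_add_distrib]
        refine Finset.sum_congr rfl fun m _ => ?_
        rw [Subalgebra.coe_add, add_mul, add_mul]
      map_smul' := fun s a => by
        refine LinearMap.ext fun x => ?_
        change ∑ m, (((s • a m : C) : R)) * x * e m = s • ∑ m, (a m : R) * x * e m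
        rw [Finset.smul_sum]
        refine Finset.sum_congr rfl fun m _ => ?_
        rw [Subalgebra.coe_smul, Algebra.smul_mul_assoc, Algebra.smul_mul_assoc] }
  have hinj : Function.Injective Psi := by
    intro a b hab
    funext m
    refine Subtype.ext (DCTM.uniq' hc e (a := fun m => (a m : R)) (b := fun m => (b m : R))
      (fun x => ?_) m)
    exact LinearMap.congr_fun hab x
  have hsurj : Function.Surjective Psi := by
    intro φ
    obtain ⟨a, ha, ha'⟩ := DCTM.klin_rep hc e K (φ.restrictScalars F)
      fun c hcK x => φ.map_smul (⟨c, hcK⟩ : K) x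
    refine ⟨fun m => ⟨a m, ha m⟩, LinearMap.ext fun x => ?_⟩
    exact (ha' x).symm
  have h1 : Module.finrank F (Fin (Module.finrank F R) → C) = Module.finrank F (R →ₗ[K] R) :=
    (LinearEquiv.ofBijective Psi ⟨hinj, hsurj⟩).finrank_eq
  have h2 : Module.finrank F (Fin (Module.finrank F R) → C) =
      Module.finrank F R * Module.finrank F C := by
    rw [Module.finrank_pi_fintype]
    simp
  haveI : IsScalarTower F K (R →ₗ[K] R) := ⟨fun a c φ => by
    refine LinearMap.ext fun x => ?_
    change ((a • c : K) : R) * φ x = a • ((c : R) * φ x)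
    rw [Subalgebra.coe_smul, Algebra.smul_mul_assoc]⟩
  have h3 : Module.finrank F K * Module.finrank K (R →ₗ[K] R) = Module.finrank F (R →ₗ[K] R) :=
    Module.finrank_mul_finrank F K (R →ₗ[K] R)
  have h4 : Module.finrank K (R →ₗ[K] R) = Module.finrank K R * Module.finrank K R :=
    Module.finrank_linearMap K K R R
  have h5 : Module.finrank F K * Module.finrank K R = Module.finrank F R :=
    Module.finrank_mul_finrank F K R
  have h6 : 0 < Module.finrank F R := Module.finrank_pos
  have h7 : Module.finrank F R * Module.finrank F C =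
      Module.finrank F R * Module.finrank K R := by
    rw [← h2, h1, ← h3, h4, ← mul_assoc, h5]
  have h8 := Nat.eq_of_mul_eq_mul_left h6 h7
  rw [h8, mul_comm]
  exact h5

end Pool.Agent.Lib.MP_c37a72_al.KC
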