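import Pool.Agent.Lib.MP_c37a72_al.KC.Spec
import Pool.Agent.Lib.MP_c37a72_al.LP.Base
import Pool.Agent.Lib.MP_c37a72_al.NR.Base

section
/-!
# MP_c37a72_al, block KC, module KPA: the structure `LP.KPk` from the constancy package

`RedF`: the reduced case over an algebraically closed field `F ⊇ Z`.
-/
set_option autoImplicit false

open scoped TensorProduct
open Coalgebra HopfAlgebra
open Pool.Agent.Lib.MP_c37a72_al.EG Pool.Agent.Lib.MP_c37a72_al.CO Pool.Agent.Lib.MP_c37a72_al.LB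

namespace Pool.Agent.Lib.MP_c37a72_al.KC

universe u v w

/-- REDUCED CASE. For every embedding `e : P → F` over `Z` and every extension `sF` of `sZ` to `F`, every
`σ ∈ Gal(F/Z)` is `σ₁ σ₂` where `σ₁` acts trivially on `A` through `e`, and `σ₂` through `sF e`. -/
def RedF {k : Type u} {Z P : Type v} {AA : Type w} [Field k] [Field Z] [Algebra k Z] [Field P]
    [Algebra k P] [Algebra Z P] [Ring AA] [Algebra k AA] (θ : (P ≃ₐ[Z] P) → (AA ≃ₐ[k] AA))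
    (sZ : Z ≃ₐ[k] Z) (F : Type v) [Field F] [Algebra k F] [Algebra Z F] : Prop :=
  ∀ (e : P →ₐ[Z] F) (sF : F ≃ₐ[k] F), (∀ z, sF (algebraMap Z F z) = algebraMap Z F (sZ z)) →
    ∀ σ ∈ gZ k Z F, ∃ σ₁ ∈ gZ k Z F, ∃ σ₂ ∈ gZ k Z F, σ = σ₁ * σ₂ ∧
      (∀ γ : P ≃ₐ[Z] P, (∀ p, σ₁ (e p) = e (γ p)) → ∀ a, θ γ a = a) ∧
      ∀ γ : P ≃ₐ[Z] P, (∀ p, σ₂ (sF (e p)) = sF (e (γ p))) → ∀ a, θ γ a = a

namespace KPAM

section Ext

variable {k : Type u} {Z P F : Type v} [Field k] [Field Z] [Algebra k Z] [Field P]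
  [Algebra k P] [Algebra Z P] [Field F] [IsAlgClosed F] [Algebra k F] [Algebra Z F]
  [IsScalarTower k Z F] [Algebra.IsAlgebraic Z F]

/-- an extension of `sZ` to `F` -/
theorem exists_sF (sZ : Z ≃ₐ[k] Z) : ∃ sF : F ≃ₐ[k] F,
    ∀ z, sF (algebraMap Z F z) = algebraMap Z F (sZ z) := by
  have : IsAlgClosure Z F := ⟨inferInstance, inferInstance⟩
  let s : F ≃+* F := IsAlgClosure.equivOfEquiv F F (sZ : Z ≃+* Z)
  have hs : ∀ z, s (algebraMap Z F z) = algebraMap Z F (sZ z) := fun z =>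
    IsAlgClosure.equivOfEquiv_algebraMap F F (sZ : Z ≃+* Z) z
  refine ⟨AlgEquiv.ofRingEquiv (f := s) fun c => ?_, hs⟩
  rw [IsScalarTower.algebraMap_apply k Z F, hs, sZ.commutes]

/-- automorphisms of `P / Z` extend to `F` -/
theorem exists_ext (e : P →ₐ[Z] F) (γ : P ≃ₐ[Z] P) : ∃ σ ∈ gZ k Z F, ∀ p, σ (e p) = e (γ p) := by
  let _ : Algebra P F := e.toRingHom.toAlgebra
  have hmap : ∀ p, algebraMap P F p = e p := fun p => rfl
  have : IsScalarTower Z P F := IsScalarTower.of_algebraMap_eq fun z => (e.commutes z).symm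
  have : Algebra.IsAlgebraic P F := Algebra.IsAlgebraic.tower_top (K := Z) P
  have : IsAlgClosure P F := ⟨inferInstance, inferInstance⟩
  let s : F ≃+* F := IsAlgClosure.equivOfEquiv F F (γ : P ≃+* P)
  have hs : ∀ p, s (e p) = e (γ p) := fun p =>
    IsAlgClosure.equivOfEquiv_algebraMap F F (γ : P ≃+* P) p
  have hz : ∀ z, s (algebraMap Z F z) = algebraMap Z F z := fun z => by
    rw [← e.commutes, hs, γ.commutes]
  refine ⟨AlgEquiv.ofRingEquiv (f := s) fun c => ?_, hz, hs⟩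
  rw [IsScalarTower.algebraMap_apply k Z F, hz]

/-- automorphisms of `F / Z` restrict to `P` -/
theorem exists_res [Normal Z P] (e : P →ₐ[Z] F) {σ : F ≃ₐ[k] F} (hσ : σ ∈ gZ k Z F) :
    ∃ γ : P ≃ₐ[Z] P, ∀ p, σ (e p) = e (γ p) := by
  let _ : Algebra P F := e.toRingHom.toAlgebra
  have : IsScalarTower Z P F := IsScalarTower.of_algebraMap_eq fun z => (e.commutes z).symm
  let s : F ≃ₐ[Z] F := AlgEquiv.ofRingEquiv (f := (σ : F ≃+* F)) hσ
  refine ⟨s.restrictNormal P, fun p => ?_⟩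
  exact (AlgEquiv.restrictNormal_commutes s P p).symm

end Ext

section Main

variable {k : Type u} {Z P Ω : Type v} {AA : Type w} [Field k] [Field Z] [Field P] [Algebra k P]
  [Field Ω] [Algebra k Ω] [Ring AA] [Algebra k AA]

/-- `id ⊗ t` on `A ⊗ Ω`. -/
noncomputable def tX (AA : Type w) [Ring AA] [Algebra k AA] (t : Ω ≃ₐ[k] Ω) :
    AA ⊗[k] Ω →ₐ[k] AA ⊗[k] Ω := xX AA (t : Ω →ₐ[k] Ω)

theorem tX_xX (t : Ω ≃ₐ[k] Ω) (x : P →ₐ[k] Ω) (v : AA ⊗[k] P) :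
    tX AA t (xX AA x v) = xX AA ((t : Ω →ₐ[k] Ω).comp x) v := by
  induction v using TensorProduct.induction_on with
  | zero => simp
  | add a b ha hb => rw [map_add, map_add, map_add, ha, hb]
  | tmul a p => rfl

theorem tX_eX (t : Ω ≃ₐ[k] Ω) (e : AA →ₐ[k] AA) (v : AA ⊗[k] Ω) :
    tX AA t (eX Ω e v) = eX Ω e (tX AA t v) := by
  induction v using TensorProduct.induction_on with
  | zero => simp
  | add a b ha hb => rw [map_add, map_add, map_add, map_add, ha, hb]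
  | tmul a p => rfl

theorem eX_xX (x : P →ₐ[k] Ω) (e : AA →ₐ[k] AA) (v : AA ⊗[k] P) :
    eX Ω e (xX AA x v) = xX AA x (eX P e v) := by
  induction v using TensorProduct.induction_on with
  | zero => simp
  | add a b ha hb => rw [map_add, map_add, map_add, map_add, ha, hb]
  | tmul a p => rfl

theorem eX_comp (e e' : AA →ₐ[k] AA) (v : AA ⊗[k] Ω) :
    eX Ω e (eX Ω e' v) = eX Ω (e.comp e') v := by
  induction v using TensorProduct.induction_on with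
  | zero => simp
  | add a b ha hb => rw [map_add, map_add, map_add, ha, hb]
  | tmul a p => rfl

end Main

end KPAM

open KPAM

/-- **KPA**: the input of the block LP from the constancy package. -/
theorem kpa (hTHG : SpecTHG.{u, v, w}) (hPSB : SpecPSB.{u, v, w}) (hKTH : SpecKTH.{u, v, w})
    (hKDT : SpecKDT.{u, v}) (hKCL : SpecKCL.{u, v}) (hDES : CO.SpecDES.{u, v})
    (k : Type u) (H Z Q F2 R2 : Type v) [Field k] [IsAlgClosed k] [CharZero k] [Ring H]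
    [IsDomain H] [HopfAlgebra k H]
    [Field Z] [Algebra k Z] [DivisionRing Q] [Algebra k Q] [Algebra Z Q] [IsScalarTower k Z Q]
    [Field F2] [Algebra k F2] [Ring R2] [Algebra k R2] [Algebra F2 R2] [IsScalarTower k F2 R2]
    (ι : H →ₐ[k] Q) (jF : Z ⊗[k] Z →ₐ[k] F2) (j : Q ⊗[k] Q →ₐ[k] R2) (D : Q →ₐ[k] R2)
    (sQ : Q →ₗ[k] Q) (sZ : Z ≃ₐ[k] Z)
    (AA : Type w) (P : Type v) [Ring AA] [Algebra k AA] [Field P] [Algebra k P] [Algebra Z P]
    [IsScalarTower k Z P] (ρ : H →ₗ[k] Module.End k AA) (ψ : ↥(Opp k Z ι) →ₐ[k] AA ⊗[k] P)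
    (θ : (P ≃ₐ[Z] P) → (AA ≃ₐ[k] AA))
    (hQ : IsCQ k H Z Q ι) (hR : IsR2 ι jF j D) (hS : Function.Bijective (antipode k (A := H)))
    (hs : IsSQ k Z ι sQ sZ) (hC : CPkg k Z ι ρ ψ θ)
    (F : Type v) [Field F] [IsAlgClosed F] [Algebra k F] [Algebra Z F] [IsScalarTower k Z F]
    [Algebra.IsAlgebraic Z F] (hred : RedF θ sZ F) :
    LP.KPk F jF (K2 Z F2 ι j D) := by
  classical
  have := hQ.fin
  have := hC.finP
  have := hC.gal
  have hfO : Module.Finite Z ↥(Opp k Z ι) :=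
    inferInstanceAs (Module.Finite Z ↥(Subalgebra.toSubmodule (Opp k Z ι)))
  obtain ⟨hθ1, hθm, -⟩ := hTHG k H Z Q ι AA P ρ ψ θ hQ hC
  set m := Module.finrank Z ↥(Opp k Z ι) with hm
  let o : Module.Basis (Fin m) Z ↥(Opp k Z ι) := Module.finBasis Z ↥(Opp k Z ι)
  obtain ⟨r, hr1, hr2⟩ := hDES k H Z Q ι sQ sZ hQ hS hs m o
  have hr : IsRD k Z ι sQ o r := ⟨hr1, hr2⟩
  have hmem : ∀ i c, j (r i c) ∈ K2 Z F2 ι j D := fun i c =>
    (hKCL k H Z Q F2 R2 ι jF j D hQ hR hS).1 _ (hr1 i c)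
  -- embeddings
  let e : P →ₐ[Z] F := IsAlgClosed.lift
  obtain ⟨sF, hsF⟩ := exists_sF (F := F) sZ
  let ek : P →ₐ[k] F := e.restrictScalars k
  -- the automorphism attached to a point
  have key : ∀ (Ω : Type v) [Field Ω] [Algebra k Ω] (xt yt : F →ₐ[k] Ω)
      (κ : ↥(K2 Z F2 ι j D) →ₐ[k] Ω), Pr jF (LP.kF κ) (LP.rZ Z xt) (LP.rZ Z yt) →
      ∃ γ : P ≃ₐ[Z] P, ∀ c, ∑ i, xX AA (xt.comp ek) (ψ (o i)) * (1 ⊗ₜ[k] κ ⟨j (r i c), hmem i c⟩)
        = eX Ω (θ γ : AA →ₐ[k] AA)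
            (xX AA ((yt.comp (sF : F →ₐ[k] F)).comp ek) (ψ c)) := by
    intro Ω _ _ xt yt κ hκ
    obtain ⟨γ, hγ⟩ := hKTH k H Z Q F2 R2 ι jF j D sQ sZ m o r AA P ρ ψ θ hQ hR hS hs hr hC Ω κ
      (LP.rZ Z xt) (LP.rZ Z yt) (fun a b => hκ a b) (xt.comp ek)
      ((yt.comp (sF : F →ₐ[k] F)).comp ek)
      (fun z => by
        show xt (e (algebraMap Z P z)) = xt (algebraMap Z F z)
        rw [e.commutes])
      (fun z => by
        show yt (sF (e (algebraMap Z P z))) = yt (algebraMap Z F (sZ z))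
        rw [e.commutes, hsF])
    exact ⟨γ, fun c => hγ c _ fun i h => rfl⟩
  -- uniqueness: the point is determined by the automorphism
  have uniq : ∀ (Ω : Type v) [Field Ω] [Algebra k Ω] (x y : P →ₐ[k] Ω)
      (κ κ' : ↥(K2 Z F2 ι j D) →ₐ[k] Ω) (g g' : AA →ₐ[k] AA),
      (∀ f : F2, κ (algebraMap F2 ↥(K2 Z F2 ι j D) f) = κ' (algebraMap F2 ↥(K2 Z F2 ι j D) f)) →
      (∀ c, ∑ i, xX AA x (ψ (o i)) * (1 ⊗ₜ[k] κ ⟨j (r i c), hmem i c⟩) =
        eX Ω g (xX AA y (ψ c))) →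
      (∀ c, ∑ i, xX AA x (ψ (o i)) * (1 ⊗ₜ[k] κ' ⟨j (r i c), hmem i c⟩) =
        eX Ω g' (xX AA y (ψ c))) → (∀ a, g a = g' a) → κ = κ' := by
    intro Ω _ _ x y κ κ' g g' hF h1 h2 hg
    have hgg : g = g' := AlgHom.ext hg
    refine hKDT k H Z Q F2 R2 ι jF j D sQ sZ m o r hQ hR hS hs hr Ω κ κ' hF fun i c h => ?_
    have h3 : ∑ i, xX AA x (ψ (o i)) *
        (1 ⊗ₜ[k] (κ ⟨j (r i c), hmem i c⟩ - κ' ⟨j (r i c), hmem i c⟩)) = 0 := by
      simp only [TensorProduct.tmul_sub, mul_sub, Finset.sum_sub_distrib]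
      rw [h1, h2, hgg, sub_self]
    exact sub_eq_zero.1 ((hPSB k H Z Q ι AA P ρ ψ θ hQ hC Ω x m o).1 _ h3 i)
  -- conjugation of the identity by `t`
  have conj : ∀ (Ω : Type v) [Field Ω] [Algebra k Ω] (xt yt : F →ₐ[k] Ω)
      (κ : ↥(K2 Z F2 ι j D) →ₐ[k] Ω) (γ : P ≃ₐ[Z] P),
      (∀ c, ∑ i, xX AA (xt.comp ek) (ψ (o i)) * (1 ⊗ₜ[k] κ ⟨j (r i c), hmem i c⟩)
        = eX Ω (θ γ : AA →ₐ[k] AA) (xX AA ((yt.comp (sF : F →ₐ[k] F)).comp ek) (ψ c))) →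
      ∀ (t : Ω ≃ₐ[k] Ω) (σ τ : P ≃ₐ[Z] P), (∀ p, t (xt (e p)) = xt (e (σ p))) →
        (∀ p, t (yt (sF (e p))) = yt (sF (e (τ p)))) →
        ∀ c, ∑ i, xX AA (xt.comp ek) (ψ (o i)) *
            (1 ⊗ₜ[k] ((t : Ω →ₐ[k] Ω).comp κ) ⟨j (r i c), hmem i c⟩)
          = eX Ω ((((θ σ).symm : AA →ₐ[k] AA).comp (θ γ : AA →ₐ[k] AA)).comp
              (θ τ : AA →ₐ[k] AA)) (xX AA ((yt.comp (sF : F →ₐ[k] F)).comp ek) (ψ c)) := by
    intro Ω _ _ xt yt κ γ h1 t σ τ hσ hτ c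
    have twist : ∀ (x : P →ₐ[k] Ω) (σ : P ≃ₐ[Z] P), (∀ p, t (x p) = x (σ p)) →
        ∀ b, tX AA t (xX AA x (ψ b)) = eX Ω (θ σ : AA →ₐ[k] AA) (xX AA x (ψ b)) := by
      intro x σ hσ b
      rw [tX_xX, eX_xX]
      have h2 : eX P (θ σ : AA →ₐ[k] AA) (ψ b) =
          Algebra.TensorProduct.map (AlgHom.id k AA) (σ.toAlgHom.restrictScalars k) (ψ b) :=
        (hC.thP σ b).symm
      rw [h2]
      generalize ψ b = v
      induction v using TensorProduct.induction_on with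
      | zero => simp
      | add a b ha hb => simp only [map_add, ha, hb]
      | tmul a p =>
        show a ⊗ₜ[k] t (x p) = a ⊗ₜ[k] x (σ p)
        rw [hσ]
    have h3 := congrArg (tX AA t) (h1 c)
    rw [map_sum, tX_eX, twist ((yt.comp (sF : F →ₐ[k] F)).comp ek) τ hτ, eX_comp] at h3
    have h4 : ∀ i, tX AA t (xX AA (xt.comp ek) (ψ (o i)) * (1 ⊗ₜ[k] κ ⟨j (r i c), hmem i c⟩)) =
        eX Ω (θ σ : AA →ₐ[k] AA) (xX AA (xt.comp ek) (ψ (o i)) *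
          (1 ⊗ₜ[k] ((t : Ω →ₐ[k] Ω).comp κ) ⟨j (r i c), hmem i c⟩)) := by
      intro i
      rw [map_mul, twist (xt.comp ek) σ hσ, map_mul]
      congr 1
      show (1 : AA) ⊗ₜ[k] _ = (θ σ (1 : AA)) ⊗ₜ[k] _
      rw [map_one]
      rfl
    rw [Finset.sum_congr rfl fun i _ => h4 i, ← map_sum] at h3
    have h5 := congrArg (eX Ω ((θ σ).symm : AA →ₐ[k] AA)) h3
    rw [eX_comp, eX_comp] at h5
    have h6 : (((θ σ).symm : AA →ₐ[k] AA).comp (θ σ : AA →ₐ[k] AA)) = AlgHom.id k AA := by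
      ext a
      exact (θ σ).symm_apply_apply a
    rw [h6] at h5
    have h7 : ∀ v : AA ⊗[k] Ω, eX Ω (AlgHom.id k AA) v = v := by
      intro v
      have : eX Ω (AlgHom.id k AA) = AlgHom.id k _ := Algebra.TensorProduct.map_id
      rw [this]
      rfl
    rw [h7] at h5
    rw [h5]
    rfl
  have hFeq : ∀ (Ω : Type v) [Field Ω] [Algebra k Ω] (xt yt : F →ₐ[k] Ω)
      (κ κ' : ↥(K2 Z F2 ι j D) →ₐ[k] Ω), Pr jF (LP.kF κ) (LP.rZ Z xt) (LP.rZ Z yt) →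
      Pr jF (LP.kF κ') (LP.rZ Z xt) (LP.rZ Z yt) → ∀ f : F2,
      κ (algebraMap F2 ↥(K2 Z F2 ι j D) f) = κ' (algebraMap F2 ↥(K2 Z F2 ι j D) f) := by
    intro Ω _ _ xt yt κ κ' h1 h2 f
    obtain ⟨a, c, hc, hac⟩ := hR.frc.surj f
    have h3 : ∀ w, LP.kF κ (jF w) = LP.kF κ' (jF w) := by
      intro w
      induction w using TensorProduct.induction_on with
      | zero => simp
      | add x y hx hy => rw [map_add, map_add, map_add, hx, hy]
      | tmul x y => rw [h1, h2]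
    have h4 := h3 a
    rw [← hac, map_mul, map_mul, h3 c] at h4
    have h5 : LP.kF κ' (jF c) ≠ 0 := fun h => hR.frc.ne' hc
      ((map_eq_zero (LP.kF κ')).1 h)
    exact mul_right_cancel₀ h5 h4
  -- `t κ` is again over the same point, if `t` moves `xt`, `yt` inside `Gal(F/Z)`
  have hPr : ∀ (Ω : Type v) [Field Ω] [Algebra k Ω] (xt yt : F →ₐ[k] Ω)
      (κ : ↥(K2 Z F2 ι j D) →ₐ[k] Ω), Pr jF (LP.kF κ) (LP.rZ Z xt) (LP.rZ Z yt) →
      ∀ t : Ω ≃ₐ[k] Ω, (∀ z : Z, t (xt (algebraMap Z F z)) = xt (algebraMap Z F z)) →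
        (∀ z : Z, t (yt (algebraMap Z F z)) = yt (algebraMap Z F z)) →
        Pr jF (LP.kF ((t : Ω →ₐ[k] Ω).comp κ)) (LP.rZ Z xt) (LP.rZ Z yt) := by
    intro Ω _ _ xt yt κ h1 t hx hy a b
    have h2 := h1 a b
    show t (LP.kF κ (jF (a ⊗ₜ b))) = xt (algebraMap Z F a) * yt (algebraMap Z F b)
    rw [h2, map_mul]
    show t (xt (algebraMap Z F a)) * t (yt (algebraMap Z F b)) = _
    rw [hx, hy]
  have hθinv : ∀ γ a, θ γ⁻¹ (θ γ a) = a := by
    intro γ a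
    rw [← hθm, mul_inv_cancel, hθ1]
  have hθinv' : ∀ γ a, θ γ (θ γ⁻¹ a) = a := by
    intro γ a
    rw [← hθm, inv_mul_cancel, hθ1]
  have hθsymm : ∀ γ a, (θ γ).symm a = θ γ⁻¹ a := by
    intro γ a
    rw [AlgEquiv.symm_apply_eq, hθinv']
  refine ⟨?_, ?_, ?_, ?_⟩
  · -- fix
    intro Ω _ _ _ xt yt κ hκ t hx hy c
    obtain ⟨γ, hγ⟩ := key Ω xt yt κ hκ
    have h1 := conj Ω xt yt κ γ hγ t 1 1 (fun p => hx _) (fun p => hy _)
    have h2 := uniq Ω _ _ _ _ _ _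
      (hFeq Ω xt yt _ _ (hPr Ω xt yt κ hκ t (fun z => hx _) (fun z => hy _)) hκ) h1 hγ
      (fun a => by
        show (θ 1).symm (θ γ (θ 1 a)) = θ γ a
        rw [hθ1, hθsymm, inv_one, hθ1])
    exact AlgHom.congr_fun h2 c
  · -- tr1
    intro Ω _ _ _ xt yt κ κ' hκ hκ'
    obtain ⟨γ, hγ⟩ := key Ω xt yt κ hκ
    obtain ⟨γ', hγ'⟩ := key Ω xt yt κ' hκ'
    obtain ⟨σ, hσ, hσe⟩ := exists_ext (k := k) e (γ'⁻¹ * γ)
    refine ⟨σ, hσ, fun t hx hy c => ?_⟩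
    have h1 := conj Ω xt yt κ γ hγ t (γ'⁻¹ * γ) 1 (fun p => by rw [hx, hσe]) (fun p => hy _)
    have h2 := uniq Ω _ _ _ _ _ _
      (hFeq Ω xt yt _ _ (hPr Ω xt yt κ hκ t (fun z => by rw [hx, hσ z]) (fun z => hy _)) hκ') h1 hγ'
      (fun a => by
        show (θ (γ'⁻¹ * γ)).symm (θ γ (θ 1 a)) = θ γ' a
        rw [hθ1, hθsymm, mul_inv_rev, inv_inv, hθm, hθinv])
    exact AlgHom.congr_fun h2 c
  · -- tr2
    intro Ω _ _ _ xt yt κ κ' hκ hκ'
    obtain ⟨γ, hγ⟩ := key Ω xt yt κ hκ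
    obtain ⟨γ', hγ'⟩ := key Ω xt yt κ' hκ'
    obtain ⟨σ', hσ', hσe'⟩ := exists_ext (k := k) e (γ' * γ⁻¹)
    have hσ : sF * σ' * sF⁻¹ ∈ gZ k Z F := by
      intro z
      show sF (σ' (sF.symm (algebraMap Z F z))) = algebraMap Z F z
      have h3 : sF.symm (algebraMap Z F z) = algebraMap Z F (sZ.symm z) := by
        rw [AlgEquiv.symm_apply_eq, hsF, AlgEquiv.apply_symm_apply]
      rw [h3, hσ', hsF, AlgEquiv.apply_symm_apply]
    have hσe : ∀ p, (sF * σ' * sF⁻¹) (sF (e p)) = sF (e ((γ' * γ⁻¹) p)) := by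
      intro p
      show sF (σ' (sF.symm (sF (e p)))) = _
      rw [AlgEquiv.symm_apply_apply, hσe']
    refine ⟨sF * σ' * sF⁻¹, hσ, fun t hx hy c => ?_⟩
    have h1 := conj Ω xt yt κ γ hγ t 1 (γ' * γ⁻¹) (fun p => hx _) (fun p => by rw [hy, hσe])
    have h2 := uniq Ω _ _ _ _ _ _
      (hFeq Ω xt yt _ _ (hPr Ω xt yt κ hκ t (fun z => hx _) (fun z => by rw [hy, hσ z])) hκ') h1 hγ'
      (fun a => by
        show (θ 1).symm (θ γ (θ (γ' * γ⁻¹) a)) = θ γ' a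
        rw [hθsymm, inv_one, hθ1, hθm, hθinv'])
    exact AlgHom.congr_fun h2 c
  · -- red
    intro σ hσ
    obtain ⟨σ₁, hσ₁, σ₂, hσ₂, h12, ht1, ht2⟩ := hred e sF hsF σ hσ
    refine ⟨σ₁, hσ₁, σ₂, hσ₂, h12, ?_⟩
    intro Ω _ _ _ xt yt κ hκ t
    obtain ⟨γ, hγ⟩ := key Ω xt yt κ hκ
    constructor
    · intro hx hy c
      obtain ⟨γ₁, hγ₁⟩ := exists_res (k := k) e hσ₁
      have h1 := conj Ω xt yt κ γ hγ t γ₁ 1 (fun p => by rw [hx, hγ₁]) (fun p => hy _)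
      have h2 := uniq Ω _ _ _ _ _ _
        (hFeq Ω xt yt _ _ (hPr Ω xt yt κ hκ t (fun z => by rw [hx, hσ₁ z]) (fun z => hy _)) hκ)
        h1 hγ
        (fun a => by
          show (θ γ₁).symm (θ γ (θ 1 a)) = θ γ a
          rw [hθ1, AlgEquiv.symm_apply_eq, ht1 γ₁ hγ₁])
      exact AlgHom.congr_fun h2 c
    · intro hx hy c
      -- `σ₂ sF e = sF e γ₂`
      have hσ2' : sF⁻¹ * σ₂ * sF ∈ gZ k Z F := by
        intro z
        show sF.symm (σ₂ (sF (algebraMap Z F z))) = algebraMap Z F z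
        rw [hsF, hσ₂, ← hsF, AlgEquiv.symm_apply_apply]
      obtain ⟨γ₂, hγ₂⟩ := exists_res (k := k) e hσ2'
      have hγ₂' : ∀ p, σ₂ (sF (e p)) = sF (e (γ₂ p)) := by
        intro p
        rw [← hγ₂]
        show _ = sF (sF.symm (σ₂ (sF (e p))))
        rw [AlgEquiv.apply_symm_apply]
      have h1 := conj Ω xt yt κ γ hγ t 1 γ₂ (fun p => hx _) (fun p => by rw [hy, hγ₂'])
      have h2 := uniq Ω _ _ _ _ _ _
        (hFeq Ω xt yt _ _ (hPr Ω xt yt κ hκ t (fun z => hx _) (fun z => by rw [hy, hσ₂ z])) hκ)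
        h1 hγ
        (fun a => by
          show (θ 1).symm (θ γ (θ γ₂ a)) = θ γ a
          rw [hθsymm, inv_one, hθ1, ht2 γ₂ hγ₂'])
      exact AlgHom.congr_fun h2 c

end Pool.Agent.Lib.MP_c37a72_al.KC
end

section
/-!
# MP_c37a72_al, block KC, module RDL: the reduced case, finite form

`RedL`: there is a finite Galois extension `L / Z` with embeddings `e1 : P → L` over `Z`, `e2 : P → L` over
`sZ`, such that every `s ∈ Gal(L/Z)` is `a b`, `a` acts trivially on `A` through `e1`, `b` through `e2`.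
`redF_of_redL`: it implies `RedF`.
-/
set_option autoImplicit false

open scoped TensorProduct
open Coalgebra HopfAlgebra
open Pool.Agent.Lib.MP_c37a72_al.EG Pool.Agent.Lib.MP_c37a72_al.CO Pool.Agent.Lib.MP_c37a72_al.LB

namespace Pool.Agent.Lib.MP_c37a72_al.KC

universe u v w

/-- REDUCED CASE, for a finite Galois extension `L / Z` and embeddings `e1 : P → L` over `Z`,
`e2 : P → L` over `sZ`. -/
structure RedLat {k : Type u} {Z P : Type v} {AA : Type w} [Field k] [Field Z] [Algebra k Z]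
    [Field P] [Algebra k P] [Algebra Z P] [Ring AA] [Algebra k AA]
    (θ : (P ≃ₐ[Z] P) → (AA ≃ₐ[k] AA)) (sZ : Z ≃ₐ[k] Z) {L : Type v} [Field L] [Algebra k L]
    [Algebra Z L] (e1 : P →ₐ[Z] L) (e2 : P →ₐ[k] L) : Prop where
  gal : IsGalois Z L
  fin : Module.Finite Z L
  e2Z : ∀ z, e2 (algebraMap Z P z) = algebraMap Z L (sZ z)
  red : ∀ s : L ≃ₐ[Z] L, ∃ a b : L ≃ₐ[Z] L, s = a * b ∧
    (∀ γ : P ≃ₐ[Z] P, (∀ p, a (e1 p) = e1 (γ p)) → ∀ x, θ γ x = x) ∧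
    ∀ γ : P ≃ₐ[Z] P, (∀ p, b (e2 p) = e2 (γ p)) → ∀ x, θ γ x = x

/-- REDUCED CASE, finite form. -/
def RedL {k : Type u} {Z P : Type v} {AA : Type w} [Field k] [Field Z] [Algebra k Z] [Field P]
    [Algebra k P] [Algebra Z P] [Ring AA] [Algebra k AA] (θ : (P ≃ₐ[Z] P) → (AA ≃ₐ[k] AA))
    (sZ : Z ≃ₐ[k] Z) : Prop :=
  ∃ (L : Type v) (_ : Field L) (_ : Algebra k L) (_ : Algebra Z L) (_ : IsScalarTower k Z L)
    (e1 : P →ₐ[Z] L) (e2 : P →ₐ[k] L), RedLat θ sZ e1 e2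

namespace RDLM

/-- two embeddings of a Galois extension over the same embedding of the base differ by an
automorphism -/
theorem exists_gal {Z P F : Type v} [Field Z] [Field P] [Algebra Z P] [Normal Z P] [Field F]
    (u v : P →+* F) (h : ∀ z : Z, u (algebraMap Z P z) = v (algebraMap Z P z)) :
    ∃ γ : P ≃ₐ[Z] P, ∀ p, u p = v (γ p) := by
  let _ : Algebra P F := v.toAlgebra
  let _ : Algebra Z F := (v.comp (algebraMap Z P)).toAlgebra
  have : IsScalarTower Z P F := IsScalarTower.of_algebraMap_eq fun z => rfl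
  let u' : P →ₐ[Z] F := { u with commutes' := fun z => h z }
  refine ⟨u'.restrictNormal' P, fun p => ?_⟩
  exact (u'.restrictNormal_commutes P p).symm

/-- conjugate elements of the kernel of `θ` -/
theorem conj_triv {G A : Type*} [Group G] (θ : G → A → A) (h1 : ∀ a, θ 1 a = a)
    (hm : ∀ γ γ' a, θ (γ' * γ) a = θ γ (θ γ' a)) (g γ : G)
    (h : ∀ a, θ (g⁻¹ * γ * g) a = a) (a : A) : θ γ a = a := by
  have h2 : ∀ b, θ g⁻¹ (θ g b) = b := fun b => by rw [← hm, mul_inv_cancel, h1]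
  have h3 := h (θ g a)
  rw [hm, hm, h2] at h3
  rw [← h2 (θ γ a), h3, h2]

end RDLM

open KPAM RDLM

/-- The finite form of the reduced case implies the form over `F`. -/
theorem redF_of_redL {k : Type u} {Z P : Type v} {AA : Type w} [Field k] [Field Z] [Algebra k Z]
    [Field P] [Algebra k P] [Algebra Z P] [Ring AA] [Algebra k AA] [Normal Z P]
    (θ : (P ≃ₐ[Z] P) → (AA ≃ₐ[k] AA)) (sZ : Z ≃ₐ[k] Z) (h1 : ∀ a, θ 1 a = a)
    (hm : ∀ γ γ' a, θ (γ' * γ) a = θ γ (θ γ' a)) (hL : RedL θ sZ)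
    (F : Type v) [Field F] [IsAlgClosed F] [Algebra k F] [Algebra Z F] [IsScalarTower k Z F]
    [Algebra.IsAlgebraic Z F] : RedF θ sZ F := by
  obtain ⟨L, _, _, _, _, e1, e2, hR⟩ := hL
  have := hR.gal
  have := hR.fin
  intro e sF hsF σ hσ
  let i : L →ₐ[Z] F := IsAlgClosed.lift
  obtain ⟨γ0, h0⟩ := exists_gal (Z := Z) ((i : L →+* F).comp (e1 : P →+* L)) (e : P →+* F)
    (fun z => by
      show i (e1 (algebraMap Z P z)) = e (algebraMap Z P z)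
      rw [e1.commutes, i.commutes, e.commutes])
  obtain ⟨γ1, h1'⟩ := exists_gal (Z := Z) ((i : L →+* F).comp (e2 : P →+* L))
    ((sF : F →+* F).comp (e : P →+* F))
    (fun z => by
      show i (e2 (algebraMap Z P z)) = sF (e (algebraMap Z P z))
      rw [hR.e2Z, i.commutes, e.commutes, hsF])
  replace h0 : ∀ p, i (e1 p) = e (γ0 p) := h0
  replace h1' : ∀ p, i (e2 p) = sF (e (γ1 p)) := h1'
  obtain ⟨s, hs⟩ := exists_res (k := k) i hσ
  obtain ⟨a, b, hab, ha, hb⟩ := hR.red s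
  obtain ⟨σ₂, hσ₂, h2⟩ := exists_ext (k := k) i b
  have hσ₁ : σ * σ₂⁻¹ ∈ gZ k Z F := mul_mem hσ (inv_mem hσ₂)
  have h3 : ∀ l, (σ * σ₂⁻¹) (i l) = i (a l) := by
    intro l
    have h4 : σ₂⁻¹ (i l) = i (b⁻¹ l) := by
      show σ₂.symm (i l) = i (b⁻¹ l)
      rw [AlgEquiv.symm_apply_eq, h2]
      show i l = i ((b * b⁻¹) l)
      rw [mul_inv_cancel]
      rfl
    show σ (σ₂⁻¹ (i l)) = i (a l)
    rw [h4, hs, hab]
    show i ((a * b * b⁻¹) l) = i (a l)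
    rw [mul_inv_cancel_right]
  refine ⟨σ * σ₂⁻¹, hσ₁, σ₂, hσ₂, (inv_mul_cancel_right σ σ₂).symm, fun γ hγ => ?_, fun γ hγ => ?_⟩
  · refine conj_triv (fun γ a => θ γ a) h1 hm γ0 γ (ha _ fun p => ?_)
    apply i.injective
    have h5 : e (γ (γ0 p)) = i (a (e1 p)) := by rw [← hγ, ← h0, h3]
    show i (a (e1 p)) = i (e1 ((γ0⁻¹ * γ * γ0) p))
    rw [h0, ← h5]
    show e (γ (γ0 p)) = e ((γ0 * (γ0⁻¹ * γ * γ0)) p)
    rw [mul_assoc, mul_inv_cancel_left]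
    rfl
  · refine conj_triv (fun γ a => θ γ a) h1 hm γ1 γ (hb _ fun p => ?_)
    apply i.injective
    have h5 : sF (e (γ (γ1 p))) = i (b (e2 p)) := by rw [← hγ, ← h1', h2]
    show i (b (e2 p)) = i (e2 ((γ1⁻¹ * γ * γ1) p))
    rw [h1', ← h5]
    show sF (e (γ (γ1 p))) = sF (e ((γ1 * (γ1⁻¹ * γ * γ1)) p))
    rw [mul_assoc, mul_inv_cancel_left]
    rfl

end Pool.Agent.Lib.MP_c37a72_al.KC
end

section
/-!
# MP_c37a72_al, block KC: the output of the block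

`SpecKCA`: in the REDUCED case (`NR.RED`) the inputs of `LP.SpecLP` hold: `K_2` is a field, `C(K_2) ≤ M_2`,
and `LP.KPk` holds for an algebraically closed field `F ⊇ Z`.
-/
set_option autoImplicit false

open scoped TensorProduct
open Coalgebra HopfAlgebra
open Pool.Agent.Lib.MP_c37a72_al.EG Pool.Agent.Lib.MP_c37a72_al.CO Pool.Agent.Lib.MP_c37a72_al.LB

namespace Pool.Agent.Lib.MP_c37a72_al.KC

universe u v w

/-- `NR.RED` implies `RedL`. -/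
theorem redL_of_RED {k : Type u} {Z P L : Type v} {AA : Type w} [Field k] [Field Z] [Algebra k Z]
    [Field P] [Algebra k P] [Algebra Z P] [Ring AA] [Algebra k AA]
    [Field L] [Algebra k L] [Algebra Z L] [IsScalarTower k Z L] [Module.Finite Z L] [IsGalois Z L]
    (θ : (P ≃ₐ[Z] P) → (AA ≃ₐ[k] AA)) (sZ : Z ≃ₐ[k] Z) (e e' : P →ₐ[k] L)
    (he : ∀ z, e (algebraMap Z P z) = algebraMap Z L z)
    (he' : ∀ z, e' (algebraMap Z P z) = algebraMap Z L (sZ z)) (h : NR.RED θ e e') :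
    RedL θ sZ := by
  refine ⟨L, inferInstance, inferInstance, inferInstance, inferInstance,
    { (e : P →+* L) with commutes' := he }, e', inferInstance, inferInstance, he', fun s => ?_⟩
  obtain ⟨a, b, hab, ⟨γ₁, h1, h1'⟩, γ₂, h2, h2'⟩ := h s
  refine ⟨a, b, hab, fun γ hγ x => ?_, fun γ hγ x => ?_⟩
  · have h3 : γ = γ₁ := by
      ext p
      apply (e : P →+* L).injective
      show e (γ p) = e (γ₁ p)
      rw [← h1]
      exact (hγ p).symm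
    rw [h3, h1']
    rfl
  · have h3 : γ = γ₂ := by
      ext p
      apply (e' : P →+* L).injective
      show e' (γ p) = e' (γ₂ p)
      rw [← h2]
      exact (hγ p).symm
    rw [h3, h2']
    rfl

/-- **KCA**: the output of the block KC. -/
def SpecKCA : Prop :=
  ∀ (k : Type u) (H Z Q F2 R2 : Type v) [Field k] [IsAlgClosed k] [CharZero k] [Ring H]
    [IsDomain H] [HopfAlgebra k H]
    [Field Z] [Algebra k Z] [DivisionRing Q] [Algebra k Q] [Algebra Z Q] [IsScalarTower k Z Q]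
    [Field F2] [Algebra k F2] [Ring R2] [Algebra k R2] [Algebra F2 R2] [IsScalarTower k F2 R2]
    (ι : H →ₐ[k] Q) (jF : Z ⊗[k] Z →ₐ[k] F2) (j : Q ⊗[k] Q →ₐ[k] R2) (D : Q →ₐ[k] R2),
    IsCQ k H Z Q ι → IsR2 ι jF j D → Function.Bijective (antipode k (A := H)) →
    ∀ (AA : Type w) (P : Type v) [Ring AA] [Algebra k AA] [Field P] [Algebra k P]
      [Algebra Z P] [IsScalarTower k Z P] (ρ : H →ₗ[k] Module.End k AA)
      (ψ : ↥(Opp k Z ι) →ₐ[k] AA ⊗[k] P) (θ : (P ≃ₐ[Z] P) → (AA ≃ₐ[k] AA))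
      (sQ : Q →ₗ[k] Q) (sZ : Z ≃ₐ[k] Z), IsSQ k Z ι sQ sZ → CPkg k Z ι ρ ψ θ →
    ∀ (L : Type v) [Field L] [Algebra k L] [Algebra Z L] [IsScalarTower k Z L] [Module.Finite Z L]
      [IsGalois Z L] (e e' : P →ₐ[k] L), (∀ z, e (algebraMap Z P z) = algebraMap Z L z) →
      (∀ z, e' (algebraMap Z P z) = algebraMap Z L (sZ z)) → NR.RED θ e e' →
    IsField (K2 Z F2 ι j D) ∧
    (∀ c : R2, (∀ x ∈ K2 Z F2 ι j D, x * c = c * x) → c ∈ M2 Z F2 ι j D) ∧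
    ∃ (F : Type v) (_ : Field F) (_ : IsAlgClosed F) (_ : Algebra k F) (_ : Algebra Z F)
      (_ : IsScalarTower k Z F), Algebra.IsAlgebraic Z F ∧ LP.KPk F jF (K2 Z F2 ι j D)

theorem specKCA (hFLD : SpecFLD.{u, v, w}) (hCDM : SpecCDM.{u, v}) (hTHG : SpecTHG.{u, v, w})
    (hPSB : SpecPSB.{u, v, w}) (hKTH : SpecKTH.{u, v, w}) (hKDT : SpecKDT.{u, v})
    (hKCL : SpecKCL.{u, v}) (hDES : CO.SpecDES.{u, v}) : SpecKCA.{u, v, w} := by
  intro k H Z Q F2 R2 _ _ _ _ _ _ _ _ _ _ _ _ _ _ _ _ _ _ ι jF j D hQ hR hS AA P _ _ _ _ _ _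
    ρ ψ θ sQ sZ hs hC L _ _ _ _ _ _ e e' he he' hred
  have hK := hFLD k H Z Q F2 R2 ι jF j D AA P ρ ψ θ hQ hR hS hC
  refine ⟨hK, hCDM k H Z Q F2 R2 ι jF j D hQ hR hS hK, AlgebraicClosure Z, inferInstance,
    inferInstance, inferInstance, inferInstance, inferInstance, inferInstance, ?_⟩
  have := hC.gal
  have := hC.finP
  obtain ⟨h1, hm, -⟩ := hTHG k H Z Q ι AA P ρ ψ θ hQ hC
  exact kpa hTHG hPSB hKTH hKDT hKCL hDES k H Z Q F2 R2 ι jF j D sQ sZ AA P ρ ψ θ hQ hR hS hs hC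
    (AlgebraicClosure Z) (redF_of_redL θ sZ h1 hm (redL_of_RED θ sZ e e' he he' hred) _)

end Pool.Agent.Lib.MP_c37a72_al.KC
end
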