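import Pool.Agent.Lib.MP_c37a72_al.KC.Spec
import Pool.Agent.Lib.MP_c37a72_al.EG.ADA

/-!
# MP_c37a72_al, block KC: module MGM
-/

set_option autoImplicit false
set_option linter.all false

open scoped TensorProduct
open Coalgebra HopfAlgebra
open Pool.Agent.Lib.MP_c37a72_al.EG Pool.Agent.Lib.MP_c37a72_al.CO Pool.Agent.Lib.MP_c37a72_al.LB

namespace Pool.Agent.Lib.MP_c37a72_al.KC

universe u v w

namespace MGMM

section

variable {k : Type u} {H Z Q : Type v} [Field k] [Ring H] [HopfAlgebra k H] [Field Z] [Algebra k Z]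
    [DivisionRing Q] [Algebra k Q] [Algebra Z Q] [IsScalarTower k Z Q] {ι : H →ₐ[k] Q}
    {AA : Type w} {P : Type v} [Ring AA] [Algebra k AA] [Field P] [Algebra k P] [Algebra Z P]
    [IsScalarTower k Z P] {ρ : H →ₗ[k] Module.End k AA} {ψ : ↥(Opp k Z ι) →ₐ[k] AA ⊗[k] P}
    {θ : (P ≃ₐ[Z] P) → (AA ≃ₐ[k] AA)}

theorem rX_mul (hC : CPkg k Z ι ρ ψ θ) (Ω : Type v) [Field Ω] [Algebra k Ω] (h : H) (n : ℕ)
    (p q : Fin n → H) (e : comul (R := k) h = ∑ i, p i ⊗ₜ[k] q i) (a b : AA ⊗[k] Ω) :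
    rX ρ Ω h (a * b) = ∑ i, rX ρ Ω (p i) a * rX ρ Ω (q i) b := by
  induction a with
  | zero => simp
  | add a a' ha ha' =>
    rw [add_mul, map_add, ha, ha', ← Finset.sum_add_distrib]
    exact Finset.sum_congr rfl fun i _ => by rw [map_add, add_mul]
  | tmul a ω =>
    induction b with
    | zero => simp
    | add b b' hb hb' =>
      rw [mul_add, map_add, hb, hb', ← Finset.sum_add_distrib]
      exact Finset.sum_congr rfl fun i _ => by rw [map_add, mul_add]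
    | tmul b ω' =>
      rw [Algebra.TensorProduct.tmul_mul_tmul, rX_tmul, hC.ralg h n p q e, TensorProduct.sum_tmul]
      exact Finset.sum_congr rfl fun i _ => by
        rw [rX_tmul, rX_tmul, Algebra.TensorProduct.tmul_mul_tmul]

theorem rX_eX (Ω : Type v) [Field Ω] [Algebra k Ω] (e : AA →ₐ[k] AA)
    (he : ∀ h a, e (ρ h a) = ρ h (e a)) (h : H) (a : AA ⊗[k] Ω) :
    rX ρ Ω h (eX Ω e a) = eX Ω e (rX ρ Ω h a) := by
  induction a with
  | zero => simp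
  | add a a' ha ha' => rw [map_add, map_add, ha, ha', map_add, map_add]
  | tmul a ω => rw [eX_tmul, rX_tmul, rX_tmul, eX_tmul, he]

theorem rX_xX (Ω : Type v) [Field Ω] [Algebra k Ω] (x : P →ₐ[k] Ω) (h : H) (a : AA ⊗[k] P) :
    rX ρ Ω h (xX AA x a) = xX AA x (TensorProduct.map (ρ h) (LinearMap.id : P →ₗ[k] P) a) := by
  induction a with
  | zero => simp
  | add a a' ha ha' => rw [map_add, map_add, ha, ha', map_add, map_add]
  | tmul a ω => rw [xX_tmul, rX_tmul, TensorProduct.map_tmul, xX_tmul]; rfl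

theorem rX_psi (hC : CPkg k Z ι ρ ψ θ) {R : H →ₗ[k] Module.End Z ↥(Opp k Z ι)}
    (hR : IsRO k Z ι R) (Ω : Type v) [Field Ω] [Algebra k Ω] (x : P →ₐ[k] Ω) (h : H)
    (c : ↥(Opp k Z ι)) : rX ρ Ω h (xX AA x (ψ c)) = xX AA x (ψ (R h c)) := by
  rw [rX_xX, hC.psiH h c (R h c) (hR.coe h c)]

/-- `ρ(h) N(w) = ∑ N((R(q) ⊗ R(p)) w)` -/
theorem rX_Nm (hC : CPkg k Z ι ρ ψ θ) {R : H →ₗ[k] Module.End Z ↥(Opp k Z ι)}
    (hR : IsRO k Z ι R) (Ω : Type v) [Field Ω] [Algebra k Ω] (x y : P →ₐ[k] Ω) (e : AA →ₐ[k] AA)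
    (he : ∀ h a, e (ρ h a) = ρ h (e a)) (h : H) (n : ℕ)
    (p q : Fin n → H) (hpq : comul (R := k) h = ∑ i, p i ⊗ₜ[k] q i)
    (w : ↥(Opp k Z ι) ⊗[k] ↥(Opp k Z ι)) :
    rX ρ Ω h (Nm k Z ι ψ x y e w) = ∑ i, Nm k Z ι ψ x y e
      (TensorProduct.map ((R (q i)).restrictScalars k) ((R (p i)).restrictScalars k) w) := by
  induction w with
  | zero => simp
  | add a a' ha ha' =>
    rw [map_add, map_add, ha, ha', ← Finset.sum_add_distrib]
    exact Finset.sum_congr rfl fun i _ => by rw [map_add, map_add]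
  | tmul a c =>
    rw [Nm_tmul, rX_mul hC Ω h n p q hpq]
    refine Finset.sum_congr rfl fun i _ => ?_
    rw [TensorProduct.map_tmul, Nm_tmul, rX_eX Ω e he, rX_psi hC hR, rX_psi hC hR]
    rfl

end

theorem exists_fin {k : Type u} {M N : Type*} [Field k] [AddCommGroup M] [Module k M]
    [AddCommGroup N] [Module k N] (w : M ⊗[k] N) :
    ∃ (n : ℕ) (a : Fin n → M) (c : Fin n → N), w = ∑ i, a i ⊗ₜ[k] c i := by
  induction w with
  | zero => exact ⟨0, Fin.elim0, Fin.elim0, by simp⟩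
  | tmul a c => exact ⟨1, fun _ => a, fun _ => c, by simp⟩
  | add w w' h h' =>
    obtain ⟨n, a, c, rfl⟩ := h
    obtain ⟨n', a', c', rfl⟩ := h'
    refine ⟨n + n', Fin.append a a', Fin.append c c', ?_⟩
    rw [Fin.sum_univ_add]
    simp

theorem one_tmul_inj {k : Type u} {AA : Type w} {Ω : Type v} [Field k] [Ring AA] [Algebra k AA]
    [Nontrivial AA] [Field Ω] [Algebra k Ω] {ω ω' : Ω}
    (h : (1 : AA) ⊗ₜ[k] ω = (1 : AA) ⊗ₜ[k] ω') : ω = ω' :=
  Algebra.TensorProduct.includeRight_injective (FaithfulSMul.algebraMap_injective k AA) h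

end MGMM

open MGMM in
/-- **MGM** -/
theorem specMGM (hRCT : SpecRCT.{u, v}) (hAIV : SpecAIV.{u, v, w}) (hRES : SpecRES.{u, v}) :
    SpecMGM.{u, v, w} := by
  classical
  intro k H Z Q _ _ _ _ _ _ _ _ _ ι sQ sZ AA P _ _ _ _ _ _ ρ ψ θ hQ hS hs hC Ω _ _ x y e he
  obtain ⟨R, hR⟩ := hRES k H Z Q ι hQ
  obtain ⟨htau, hW⟩ := hRCT k H Z Q ι sQ sZ R hQ hS hs hR
  obtain ⟨-, hnt, -, hinv⟩ := hAIV k H Z Q ι AA P ρ ψ θ hQ hC
  -- existence of the value
  have key : ∀ w, tau k Z ι sQ w ∈ Rcom k Z ι →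
      ∃ ω : Ω, Nm k Z ι ψ x y e w = 1 ⊗ₜ[k] ω := by
    intro w hw
    obtain ⟨w', hw', hi⟩ := hW _ hw
    obtain rfl : w' = w := htau hw'
    refine hinv Ω _ fun h => ?_
    obtain ⟨n, p, q, hpq⟩ := ADAM.exists_repr k h
    rw [rX_Nm hC hR Ω x y e he h n p q hpq, ← map_sum, hi h n p q hpq, map_smul]
  choose! M0 hM0 using key
  choose! W hWt hWi using hW
  -- the value function
  let M : ↥(Rcom k Z ι) → Ω := fun y' => M0 (W (y' : Q ⊗[k] Q))
  have hM : ∀ w (hw : tau k Z ι sQ w ∈ Rcom k Z ι),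
      Nm k Z ι ψ x y e w = 1 ⊗ₜ[k] M ⟨tau k Z ι sQ w, hw⟩ := by
    intro w hw
    have h1 : W (tau k Z ι sQ w) = w := htau (hWt _ hw)
    show _ = 1 ⊗ₜ[k] M0 (W (tau k Z ι sQ w))
    rw [h1]
    exact hM0 w hw
  have hWm : ∀ y' : ↥(Rcom k Z ι), tau k Z ι sQ (W (y' : Q ⊗[k] Q)) ∈ Rcom k Z ι := by
    intro y'
    rw [hWt _ y'.2]
    exact y'.2
  -- the value of `M` from a representation
  have hval : ∀ (y' : ↥(Rcom k Z ι)) w (ω : Ω), tau k Z ι sQ w = (y' : Q ⊗[k] Q) →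
      Nm k Z ι ψ x y e w = 1 ⊗ₜ[k] ω → M y' = ω := by
    intro y' w ω h1 h2
    have hw : tau k Z ι sQ w ∈ Rcom k Z ι := h1 ▸ y'.2
    have h3 := hM w hw
    have h4 : (⟨tau k Z ι sQ w, hw⟩ : ↥(Rcom k Z ι)) = y' := Subtype.ext h1
    rw [h4, h2] at h3
    exact (one_tmul_inj h3).symm
  have hN : ∀ y' : ↥(Rcom k Z ι), Nm k Z ι ψ x y e (W (y' : Q ⊗[k] Q)) = 1 ⊗ₜ[k] M y' := by
    intro y'
    have h1 := hM _ (hWm y')
    have h2 : (⟨tau k Z ι sQ (W (y' : Q ⊗[k] Q)), hWm y'⟩ : ↥(Rcom k Z ι)) = y' :=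
      Subtype.ext (hWt _ y'.2)
    rw [h2] at h1
    exact h1
  have hs1 : sQ 1 = 1 := by
    have h1 := hs.ext 1
    rw [antipode_one, map_one ι] at h1
    exact h1
  have hone : M 1 = 1 := by
    refine hval 1 (1 ⊗ₜ[k] 1) 1 ?_ ?_
    · rw [tau_tmul, OneMemClass.coe_one, hs1]
      rfl
    · rw [Nm_tmul, map_one, map_one, map_one, map_one, one_mul]
      rfl
  have hmul : ∀ y1 y2, M (y1 * y2) = M y1 * M y2 := by
    intro y1 y2
    obtain ⟨n, a, c, hac⟩ := exists_fin (W (y1 : Q ⊗[k] Q))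
    obtain ⟨n', a', c', hac'⟩ := exists_fin (W (y2 : Q ⊗[k] Q))
    refine hval (y1 * y2) (∑ l, ∑ r, (a l * a' r) ⊗ₜ[k] (c' r * c l)) _ ?_ ?_
    · rw [Subalgebra.coe_mul, ← hWt _ y1.2, ← hWt _ y2.2, hac, hac']
      simp only [map_sum, tau_tmul]
      rw [Finset.sum_mul_sum]
      refine Finset.sum_congr rfl fun l _ => Finset.sum_congr rfl fun r _ => ?_
      rw [Algebra.TensorProduct.tmul_mul_tmul, ← hs.mul]
      rfl
    · have h1 : ∀ l r, Nm k Z ι ψ x y e ((a l * a' r) ⊗ₜ[k] (c' r * c l)) =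
          eX Ω e (xX AA y (ψ (c' r))) * Nm k Z ι ψ x y e (a l ⊗ₜ[k] c l) *
            xX AA x (ψ (a' r)) := by
        intro l r
        rw [Nm_tmul, Nm_tmul]
        simp only [map_mul, mul_assoc]
      simp only [map_sum, h1]
      rw [Finset.sum_comm]
      have h2 : ∀ r, ∑ l, eX Ω e (xX AA y (ψ (c' r))) * Nm k Z ι ψ x y e (a l ⊗ₜ[k] c l) *
            xX AA x (ψ (a' r)) = (1 ⊗ₜ[k] M y1) * Nm k Z ι ψ x y e (a' r ⊗ₜ[k] c' r) := by
        intro r
        rw [← Finset.sum_mul, ← Finset.mul_sum, ← map_sum, ← hac, hN y1, Nm_tmul]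
        have h3 : ∀ v : AA ⊗[k] Ω, v * (1 ⊗ₜ[k] M y1) = (1 ⊗ₜ[k] M y1) * v := by
          intro v
          induction v with
          | zero => simp
          | add v v' hv hv' => rw [add_mul, mul_add, hv, hv']
          | tmul v ω => rw [Algebra.TensorProduct.tmul_mul_tmul,
              Algebra.TensorProduct.tmul_mul_tmul, one_mul, mul_one, mul_comm]
        rw [h3, mul_assoc]
      rw [Finset.sum_congr rfl fun r _ => h2 r, ← Finset.mul_sum, ← map_sum, ← hac', hN y2,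
        Algebra.TensorProduct.tmul_mul_tmul, one_mul]
  have hadd : ∀ y1 y2, M (y1 + y2) = M y1 + M y2 := by
    intro y1 y2
    refine hval (y1 + y2) (W (y1 : Q ⊗[k] Q) + W (y2 : Q ⊗[k] Q)) _ ?_ ?_
    · rw [map_add, hWt _ y1.2, hWt _ y2.2]
      rfl
    · rw [map_add, hN y1, hN y2, TensorProduct.tmul_add]
  have hsc : ∀ c : k, M (algebraMap k _ c) = algebraMap k Ω c := by
    intro c
    refine hval _ (c • (1 ⊗ₜ[k] 1)) _ ?_ ?_
    · rw [map_smul, tau_tmul, OneMemClass.coe_one, hs1, Subalgebra.coe_algebraMap,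
        Algebra.algebraMap_eq_smul_one]
      rfl
    · rw [map_smul, Nm_tmul, map_one, map_one, map_one, map_one, one_mul,
        Algebra.algebraMap_eq_smul_one, TensorProduct.tmul_smul]
      rfl
  refine ⟨{ toFun := M, map_one' := hone, map_mul' := hmul, map_zero' := ?_, map_add' := hadd,
            commutes' := hsc }, fun w hw => hM w hw⟩
  have h1 := hsc 0
  rw [map_zero, map_zero] at h1
  exact h1

end Pool.Agent.Lib.MP_c37a72_al.KC
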