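import Pool.Agent.Lib.MP_c37a72_al.KC.Spec
import Pool.Agent.Lib.MP_c37a72_al.CO.UNI
import Pool.Agent.Lib.MP_c37a72_al.CO.DES

/-!
# MP_c37a72_al, block KC: module RCT
-/

set_option autoImplicit false
set_option linter.all false

open scoped TensorProduct
open Coalgebra HopfAlgebra
open Pool.Agent.Lib.MP_c37a72_al.EG Pool.Agent.Lib.MP_c37a72_al.CO Pool.Agent.Lib.MP_c37a72_al.LB

namespace Pool.Agent.Lib.MP_c37a72_al.KC

universe u v w

namespace RCTM

section

variable {k : Type u} (Z : Type v) {H Q : Type v} [Field k] [Ring H] [HopfAlgebra k H]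
  [Field Z] [Algebra k Z] [DivisionRing Q] [Algebra k Q] [Algebra Z Q] [IsScalarTower k Z Q]
  (ι : H →ₐ[k] Q)

open UNIM (M M_tmul M_comul N N_tmul F_eq)

/-- `p ⊗ q ↦ S(q) b S(S(p))` -/
noncomputable def Kb (b : Q) : H ⊗[k] H →ₗ[k] Q :=
  LinearMap.mul' k Q ∘ₗ TensorProduct.map
    (LinearMap.mulRight k b ∘ₗ ι.toLinearMap ∘ₗ antipode k)
    (ι.toLinearMap ∘ₗ antipode k ∘ₗ antipode k) ∘ₗ (TensorProduct.comm k H H).toLinearMap

@[simp] theorem Kb_tmul (b : Q) (p q : H) :
    Kb ι b (p ⊗ₜ[k] q) = ι (antipode k q) * b * ι (antipode k (antipode k p)) := by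
  simp [Kb]

theorem Kb_comul (hHAN : SpecHAN.{u, v}) (b : Q) :
    Kb ι b ∘ₗ comul (R := k) = DESM.AL Z ι b := by
  apply LinearMap.ext
  intro h
  obtain ⟨n, x, y, e⟩ := ADAM.exists_repr k h
  rw [LinearMap.comp_apply, e, map_sum, DESM.AL_apply,
    adlQ_eq k Z ι (DESM.han hHAN h e) b]
  exact Finset.sum_congr rfl fun i _ => by rw [Kb_tmul]

theorem M_comul' (a : Q) : M ι a ∘ₗ comul (R := k) = DESM.AR Z ι a := by
  apply LinearMap.ext
  intro h
  rw [LinearMap.comp_apply, M_comul Z ι a h, DESM.AR_apply]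

/-- `p ⊗ (q ⊗ r) ↦ (a ◁ r) ⊗ S(q) b S(S(p))` -/
noncomputable def GG (a b : Q) : H ⊗[k] (H ⊗[k] H) →ₗ[k] Q ⊗[k] Q :=
  (TensorProduct.comm k Q Q).toLinearMap ∘ₗ
    TensorProduct.map (Kb ι b) (M ι a ∘ₗ comul) ∘ₗ (TensorProduct.assoc k H H H).symm.toLinearMap

theorem aux2 (a b : Q) (p : H) (u : H ⊗[k] H) :
    N ι a u * ((1 : Q) ⊗ₜ[k] b) * ((1 : Q) ⊗ₜ[k] ι (antipode k (antipode k p))) =
      GG ι a b (p ⊗ₜ[k] u) := by
  induction u with
  | zero => simp
  | tmul q r => simp [GG, Algebra.TensorProduct.tmul_mul_tmul]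
  | add u v hu hv => rw [TensorProduct.tmul_add, map_add, map_add, add_mul, add_mul, hu, hv]

theorem aux3 (hHAN : SpecHAN.{u, v}) (a b : Q) (h : H) :
    GG ι a b ((comul (R := k) (A := H)).lTensor H (comul (R := k) h)) =
      DESM.F Z ι a b (comul (R := k) h) := by
  rw [← Coalgebra.coassoc_apply]
  unfold GG DESM.F
  simp only [LinearMap.comp_apply, LinearEquiv.coe_coe, LinearEquiv.symm_apply_apply]
  rw [← Kb_comul Z ι hHAN b, ← M_comul' Z ι a]
  congr 1
  rw [← LinearMap.comp_apply, LinearMap.rTensor, ← TensorProduct.map_comp, LinearMap.comp_id]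

/-- `(x ⊗ y) ↦ Δ(S x) w (y ⊗ 1)` for `w = (a ⊗ 1)(1 ⊗ b)` -/
theorem F_split (a b : Q) (u : H ⊗[k] H) :
    UNIM.F ι (a ⊗ₜ[k] b) u = UNIM.F ι (a ⊗ₜ[k] (1 : Q)) u * ((1 : Q) ⊗ₜ[k] b) := by
  induction u with
  | zero => simp
  | tmul x y =>
    rw [UNIM.F_tmul, UNIM.F_tmul, mul_assoc, mul_assoc, mul_assoc]
    congr 1
    simp [Algebra.TensorProduct.tmul_mul_tmul]
  | add u v hu hv => rw [map_add, map_add, hu, hv, add_mul]

theorem main (hHAN : SpecHAN.{u, v}) (a b : Q) (g : H) {n : ℕ} {x y : Fin n → H}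
    (e : comul (R := k) g = ∑ i, x i ⊗ₜ[k] y i) :
    DESM.F Z ι a b (comul (R := k) g) = ∑ i, UNIM.F ι (a ⊗ₜ[k] b) (comul (R := k) (y i)) *
      ((1 : Q) ⊗ₜ[k] ι (antipode k (antipode k (x i)))) := by
  rw [← aux3 Z ι hHAN a b g, e, map_sum, map_sum]
  refine Finset.sum_congr rfl fun i _ => ?_
  rw [LinearMap.lTensor_tmul, ← aux2, F_split, F_eq ι hHAN]

/-- the operator `w ↦ ∑ (w₁ ◁ q_i) ⊗ (S(p_i) ▷ w₂)` -/
noncomputable def TT (g : H) : Q ⊗[k] Q →ₗ[k] Q ⊗[k] Q :=
  TensorProduct.lift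
    (LinearMap.mk₂ k (fun a b => DESM.F Z ι a b (comul (R := k) g))
      (fun a a' b => by
        obtain ⟨n, x, y, e⟩ := ADAM.exists_repr k g
        simp only [e, map_sum, DESM.F_tmul, DESM.AR_apply, DESM.AL_apply, map_add,
          TensorProduct.add_tmul, Finset.sum_add_distrib])
      (fun c a b => by
        obtain ⟨n, x, y, e⟩ := ADAM.exists_repr k g
        simp only [e, map_sum, DESM.F_tmul, DESM.AR_apply, DESM.AL_apply, Finset.smul_sum]
        refine Finset.sum_congr rfl fun i _ => ?_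
        rw [TensorProduct.smul_tmul', ← LinearMap.map_smul_of_tower])
      (fun a b b' => by
        obtain ⟨n, x, y, e⟩ := ADAM.exists_repr k g
        simp only [e, map_sum, DESM.F_tmul, DESM.AR_apply, DESM.AL_apply, map_add,
          TensorProduct.tmul_add, Finset.sum_add_distrib])
      (fun c a b => by
        obtain ⟨n, x, y, e⟩ := ADAM.exists_repr k g
        simp only [e, map_sum, DESM.F_tmul, DESM.AR_apply, DESM.AL_apply, Finset.smul_sum]
        refine Finset.sum_congr rfl fun i _ => ?_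
        rw [← TensorProduct.tmul_smul, ← LinearMap.map_smul_of_tower]))

theorem TT_tmul (g : H) (a b : Q) :
    TT Z ι g (a ⊗ₜ[k] b) = DESM.F Z ι a b (comul (R := k) g) := rfl

theorem F_add (w w' : Q ⊗[k] Q) (u : H ⊗[k] H) :
    UNIM.F ι (w + w') u = UNIM.F ι w u + UNIM.F ι w' u := by
  induction u with
  | zero => simp
  | tmul x y => simp only [UNIM.F_tmul, mul_add, add_mul]
  | add u v hu hv =>
    rw [map_add, map_add, map_add, hu, hv]
    abel

theorem F_zero (u : H ⊗[k] H) : UNIM.F ι (0 : Q ⊗[k] Q) u = 0 := by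
  induction u with
  | zero => simp
  | tmul x y => simp
  | add u v hu hv => rw [map_add, hu, hv, add_zero]

theorem TT_eq (hHAN : SpecHAN.{u, v}) (w : Q ⊗[k] Q) (g : H) {n : ℕ} {x y : Fin n → H}
    (e : comul (R := k) g = ∑ i, x i ⊗ₜ[k] y i) :
    TT Z ι g w = ∑ i, UNIM.F ι w (comul (R := k) (y i)) *
      ((1 : Q) ⊗ₜ[k] ι (antipode k (antipode k (x i)))) := by
  induction w with
  | zero => simp [F_zero]
  | tmul a b => rw [TT_tmul, main Z ι hHAN a b g e]
  | add w w' hw hw' =>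
    rw [map_add, hw, hw', ← Finset.sum_add_distrib]
    refine Finset.sum_congr rfl fun i _ => ?_
    rw [F_add, add_mul]

theorem F_comm (w : Q ⊗[k] Q) (hw : ∀ h : H, w * dd k ι h = dd k ι h * w) (u : H ⊗[k] H) :
    UNIM.F ι w u = w * UNIM.F ι 1 u := by
  induction u with
  | zero => simp
  | tmul x y => rw [UNIM.F_tmul, UNIM.F_tmul, ← hw, mul_one, mul_assoc]
  | add u v hu hv => rw [map_add, map_add, hu, hv, mul_add]

theorem counit_sum (g : H) {n : ℕ} {x y : Fin n → H}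
    (e : comul (R := k) g = ∑ i, x i ⊗ₜ[k] y i) :
    ∑ i, counit (R := k) (x i) * counit (R := k) (y i) = counit (R := k) g := by
  have h2 := Coalgebra.lTensor_counit_comul (R := k) g
  rw [e, map_sum] at h2
  simp only [LinearMap.lTensor_tmul] at h2
  have h3 := congrArg (TensorProduct.rid k H) h2
  rw [map_sum] at h3
  simp only [TensorProduct.rid_tmul, one_smul] at h3
  have h4 := congrArg (counit (R := k)) h3
  rw [map_sum] at h4
  rw [← h4]
  refine Finset.sum_congr rfl fun i _ => ?_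
  rw [map_smul, smul_eq_mul, mul_comm]

/-- elements which commute with `Δ(H)` are invariant -/
theorem inv (hHAN : SpecHAN.{u, v}) (hADA : SpecADA.{u, v}) (w : Q ⊗[k] Q)
    (hw : ∀ h : H, w * dd k ι h = dd k ι h * w) (g : H) :
    TT Z ι g w = counit (R := k) g • w := by
  obtain ⟨n, x, y, e⟩ := ADAM.exists_repr k g
  obtain ⟨-, -, -, hA4⟩ := hADA k H Z Q ι
  have h1 : TT Z ι g w = w * TT Z ι g 1 := by
    rw [TT_eq Z ι hHAN w g e, TT_eq Z ι hHAN 1 g e, Finset.mul_sum]
    refine Finset.sum_congr rfl fun i _ => ?_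
    rw [F_comm ι w hw, mul_assoc]
  have h2 : TT Z ι g 1 = counit (R := k) g • 1 := by
    rw [Algebra.TensorProduct.one_def, TT_tmul, e, map_sum]
    simp only [DESM.F_tmul, DESM.AR_apply, DESM.AL_apply, (hA4 _).1, (hA4 _).2, counit_antipode]
    rw [← counit_sum g e, Finset.sum_smul]
    refine Finset.sum_congr rfl fun i _ => ?_
    rw [Algebra.algebraMap_eq_smul_one, Algebra.algebraMap_eq_smul_one, TensorProduct.tmul_smul,
      ← TensorProduct.smul_tmul', smul_smul]
  rw [h1, h2, mul_smul_comm, mul_one]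

end

/-- the commutant of `S ⊗ 1` and `1 ⊗ T` -/
theorem comm_two {k : Type u} {Q : Type v} [Field k] [DivisionRing Q] [Algebra k Q] (S T : Set Q)
    (y : Q ⊗[k] Q) (hS : ∀ x ∈ S, (x ⊗ₜ[k] (1 : Q)) * y = y * (x ⊗ₜ[k] 1))
    (hT : ∀ x ∈ T, ((1 : Q) ⊗ₜ[k] x) * y = y * ((1 : Q) ⊗ₜ[k] x)) :
    ∃ w : ↥(Subalgebra.centralizer k S) ⊗[k] ↥(Subalgebra.centralizer k T),
      Algebra.TensorProduct.map (Subalgebra.centralizer k S).val
        (Subalgebra.centralizer k T).val w = y := by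
  have h1 : y ∈ Subalgebra.centralizer k
      ((Algebra.TensorProduct.includeLeft (S := k) : Q →ₐ[k] Q ⊗[k] Q) '' S) := by
    rw [Subalgebra.mem_centralizer_iff]
    rintro _ ⟨x, hx, rfl⟩
    exact hS x hx
  rw [Subalgebra.centralizer_coe_image_includeLeft_eq_center_tensorProduct] at h1
  obtain ⟨w, hw⟩ := h1
  let φ : ↥(Subalgebra.centralizer k S) ⊗[k] Q →ₐ[k] Q ⊗[k] Q :=
    Algebra.TensorProduct.map (Subalgebra.centralizer k S).val (AlgHom.id k Q)
  have hφ : Function.Injective φ := by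
    have h2 : Function.Injective (TensorProduct.map (Subalgebra.centralizer k S).val.toLinearMap
        (LinearMap.id : Q →ₗ[k] Q)) :=
      TensorProduct.map_injective_of_flat_flat _ _ Subtype.val_injective (fun _ _ h => h)
    exact h2
  have h2 : w ∈ Subalgebra.centralizer k
      ((Algebra.TensorProduct.includeRight : Q →ₐ[k] ↥(Subalgebra.centralizer k S) ⊗[k] Q) '' T) := by
    rw [Subalgebra.mem_centralizer_iff]
    rintro _ ⟨x, hx, rfl⟩
    apply hφ
    rw [map_mul, map_mul]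
    have h3 : φ (Algebra.TensorProduct.includeRight x) = (1 : Q) ⊗ₜ[k] x := by
      simp [φ]
    have h4 : φ w = y := hw
    rw [h3, h4]
    exact hT x hx
  rw [Subalgebra.centralizer_coe_image_includeRight_eq_center_tensorProduct] at h2
  obtain ⟨w', hw'⟩ := h2
  refine ⟨w', ?_⟩
  rw [← hw]
  rw [← hw']
  change _ = (Algebra.TensorProduct.map (Subalgebra.centralizer k S).val (AlgHom.id k Q))
    ((Algebra.TensorProduct.map (AlgHom.id k ↥(Subalgebra.centralizer k S))
      (Subalgebra.centralizer k T).val) w')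
  rw [← AlgHom.comp_apply, ← Algebra.TensorProduct.map_comp]
  rfl

end RCTM

/-- **RCT** -/
theorem specRCT (hHAN : SpecHAN.{u, v}) (hADA : SpecADA.{u, v}) (hADS : CO.SpecADS.{u, v}) :
    SpecRCT.{u, v} := by
  intro k H Z Q _ _ _ _ _ _ _ _ _ ι sQ sZ R hQ hS hs hR
  obtain ⟨hs1, -, -, -, hs5, -⟩ := hADS k H Z Q ι sQ sZ hQ hS hs
  have hinj : Function.Injective (tau k Z ι sQ) := by
    refine TensorProduct.map_injective_of_flat_flat _ _ Subtype.val_injective ?_
    exact hs.bij.1.comp Subtype.val_injective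
  refine ⟨hinj, fun y hy => ?_⟩
  have hy' := (Subalgebra.mem_centralizer_iff k).1 hy
  obtain ⟨w, hw⟩ := RCTM.comm_two (Ol k Z ι : Set Q) (Or k Z ι : Set Q) y
    (fun x hx => hy' _ (Or.inl (Or.inl ⟨x, hx, rfl⟩)))
    (fun x hx => hy' _ (Or.inl (Or.inr ⟨x, hx, rfl⟩)))
  let sE : Q ≃ₗ[k] Q := LinearEquiv.ofBijective sQ hs.bij
  have hsE : ∀ b, sQ (sE.symm b) = b := fun b => sE.apply_symm_apply b
  let f : ↥(Subalgebra.centralizer k (Ol k Z ι : Set Q)) →ₗ[k] ↥(Opp k Z ι) :=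
    { toFun := fun x => ⟨x, (Subalgebra.mem_centralizer_iff Z).2
        ((Subalgebra.mem_centralizer_iff k).1 x.2)⟩
      map_add' := fun a b => rfl
      map_smul' := fun a b => rfl }
  let g : ↥(Subalgebra.centralizer k (Or k Z ι : Set Q)) →ₗ[k] ↥(Opp k Z ι) :=
    { toFun := fun x => ⟨sE.symm x, (hs5 _).1 (by
        rw [hsE]
        exact (Subalgebra.mem_centralizer_iff Z).2 ((Subalgebra.mem_centralizer_iff k).1 x.2))⟩
      map_add' := fun a b => Subtype.ext (by simp)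
      map_smul' := fun a b => Subtype.ext (by simp) }
  have htau : tau k Z ι sQ (TensorProduct.map f g w) = y := by
    rw [← hw]
    unfold tau
    rw [← LinearMap.comp_apply, ← TensorProduct.map_comp]
    have h1 : ((Opp k Z ι).val.restrictScalars k).toLinearMap ∘ₗ f =
        (Subalgebra.centralizer k (Ol k Z ι : Set Q)).val.toLinearMap := rfl
    have h2 : (sQ ∘ₗ ((Opp k Z ι).val.restrictScalars k).toLinearMap) ∘ₗ g =
        (Subalgebra.centralizer k (Or k Z ι : Set Q)).val.toLinearMap := by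
      apply LinearMap.ext
      intro b
      exact hsE b
    rw [h1, h2]
    rfl
  refine ⟨TensorProduct.map f g w, htau, fun h n p q e => ?_⟩
  apply hinj
  rw [map_smul, map_sum, htau]
  have h1 : ∀ v : ↥(Opp k Z ι) ⊗[k] ↥(Opp k Z ι),
      ∑ i, tau k Z ι sQ (TensorProduct.map ((R (q i)).restrictScalars k)
        ((R (p i)).restrictScalars k) v) = RCTM.TT Z ι h (tau k Z ι sQ v) := by
    intro v
    induction v with
    | zero => simp
    | tmul a c =>
      rw [tau_tmul, RCTM.TT_tmul, e, map_sum]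
      refine Finset.sum_congr rfl fun i _ => ?_
      rw [TensorProduct.map_tmul, tau_tmul, DESM.F_tmul, DESM.AR_apply, DESM.AL_apply, ← hs1]
      rw [← hR.coe, ← hR.coe]
      rfl
    | add u v hu hv =>
      simp only [map_add, Finset.sum_add_distrib]
      rw [← hu, ← hv]
  rw [h1, htau]
  refine RCTM.inv Z ι hHAN hADA y (fun h => ?_) h
  exact (hy' _ (Or.inr ⟨h, rfl⟩)).symm

end Pool.Agent.Lib.MP_c37a72_al.KC
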