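import Pool.Agent.Lib.MP_c37a72_al.KC.Spec
import Pool.Agent.Lib.MP_c37a72_al.EG.COO

section
/-!
# MP_c37a72_al, block KC, module AIV: invariants of `H` in `A ⊗ Ω`
-/
set_option autoImplicit false

open scoped TensorProduct
open Coalgebra HopfAlgebra
open Pool.Agent.Lib.MP_c37a72_al.EG Pool.Agent.Lib.MP_c37a72_al.CO Pool.Agent.Lib.MP_c37a72_al.LB

namespace Pool.Agent.Lib.MP_c37a72_al.KC

universe u v w

namespace AIVM

theorem tmul_one_inj {k : Type u} {P : Type v} {AA : Type w} [Field k] [Ring AA] [Algebra k AA]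
    [Field P] [Algebra k P] {a b : AA} (h : a ⊗ₜ[k] (1 : P) = b ⊗ₜ[k] (1 : P)) : a = b :=
  Algebra.TensorProduct.includeLeft_injective (R := k) (S := k) (A := AA) (B := P)
    (FaithfulSMul.algebraMap_injective k P) h

end AIVM

/-- **AIV** -/
theorem specAIV (hADA : EG.SpecADA.{u, v}) (hOPP : EG.SpecOPP.{u, v})
    (hCOP : CO.SpecCOP.{u, v, w}) : SpecAIV.{u, v, w} := by
  intro k H Z Q _ _ _ _ _ _ _ _ _ ι AA P _ _ _ _ _ _ ρ ψ θ hQ hC
  have hpre : CO.CPre k Z ι ρ ψ :=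
    ⟨hC.finA, hC.finP, hC.rone, hC.rmul, hC.ralg, hC.psiZ, hC.psiH, hC.dim⟩
  have hcop := hCOP k H Z Q ι AA P ρ ψ hQ hpre hC.span
  have h1 : ∀ h : H, ρ h 1 = counit (R := k) h • (1 : AA) := by
    intro h
    have e := hC.psiH h 1 (counit (R := k) h • (1 : ↥(Opp k Z ι))) (by
      have e2 := ((hADA k H Z Q ι).2.2.2 h).2
      rw [OneMemClass.coe_one, e2, Algebra.algebraMap_eq_smul_one]
      rfl)
    rw [map_smul, map_one, Algebra.TensorProduct.one_def, TensorProduct.map_tmul,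
      LinearMap.id_apply, TensorProduct.smul_tmul'] at e
    exact (AIVM.tmul_one_inj e).symm
  have hfin : Module.Finite Z Q := hQ.fin
  have hnt : Nontrivial AA := by
    by_contra hn
    rw [not_nontrivial_iff_subsingleton] at hn
    have e := hC.dim
    rw [Module.finrank_zero_of_subsingleton] at e
    have h2 : 0 < Module.finrank Z ↥(Opp k Z ι) := Module.finrank_pos
    omega
  refine ⟨h1, hnt, ?_, ?_⟩
  · rw [injective_iff_map_eq_zero]
    intro x hx
    by_contra hx0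
    have hxQ : (x : Q) ≠ 0 := fun h => hx0 (Subtype.ext h)
    have hinv := (hOPP k H Z Q ι hQ).2.1 (x : Q) x.2
    have e : x * ⟨(x : Q)⁻¹, hinv⟩ = 1 := Subtype.ext (mul_inv_cancel₀ hxQ)
    have e2 := congrArg ψ e
    rw [map_mul, hx, zero_mul, map_one, Algebra.TensorProduct.one_def] at e2
    have e3 : (0 : AA) ⊗ₜ[k] (1 : P) = (1 : AA) ⊗ₜ[k] (1 : P) := by
      rw [TensorProduct.zero_tmul]; exact e2
    exact zero_ne_one (AIVM.tmul_one_inj e3)
  · intro Ω _ _ v hv
    obtain ⟨g, hg⟩ : ∃ g : Module.Dual k AA, g 1 ≠ 0 := by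
      by_contra hcon
      push Not at hcon
      exact one_ne_zero ((Module.forall_dual_apply_eq_zero_iff k (1 : AA)).1 hcon)
    set f : Module.Dual k AA := (g 1)⁻¹ • g with hf
    have hf1 : f 1 = 1 := by
      rw [hf, LinearMap.smul_apply, smul_eq_mul, inv_mul_cancel₀ hg]
    obtain ⟨n, hh, b, hb⟩ := hcop (LinearMap.toSpanSingleton k AA 1 ∘ₗ f)
    have hkey : ∀ w : AA ⊗[k] Ω,
        (1 : AA) ⊗ₜ[k] (TensorProduct.lid k Ω (TensorProduct.map f LinearMap.id w)) =
          ∑ j, rX ρ Ω (hh j) w * (b j ⊗ₜ[k] (1 : Ω)) := by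
      intro w
      induction w using TensorProduct.induction_on with
      | zero => simp
      | tmul a ω =>
        have e := hb a
        rw [LinearMap.comp_apply, LinearMap.toSpanSingleton_apply] at e
        simp only [TensorProduct.map_tmul, LinearMap.id_apply, TensorProduct.lid_tmul, rX_tmul,
          Algebra.TensorProduct.tmul_mul_tmul, mul_one]
        rw [TensorProduct.tmul_smul, TensorProduct.smul_tmul', e, TensorProduct.sum_tmul]
      | add w1 w2 e1 e2 =>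
        simp only [map_add, TensorProduct.tmul_add, add_mul, Finset.sum_add_distrib, e1, e2]
    have hv2 : (1 : AA) ⊗ₜ[k] (TensorProduct.lid k Ω (TensorProduct.map f LinearMap.id v)) =
        v := by
      rw [hkey v]
      simp only [hv, smul_mul_assoc]
      have e := hb 1
      rw [LinearMap.comp_apply, LinearMap.toSpanSingleton_apply, hf1, one_smul] at e
      simp only [h1, smul_mul_assoc, one_mul] at e
      have e2 : ∑ j, counit (R := k) (hh j) • (v * (b j ⊗ₜ[k] (1 : Ω))) =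
          v * ((∑ j, counit (R := k) (hh j) • b j) ⊗ₜ[k] (1 : Ω)) := by
        rw [TensorProduct.sum_tmul, Finset.mul_sum]
        refine Finset.sum_congr rfl fun j _ => ?_
        rw [← TensorProduct.smul_tmul', mul_smul_comm]
      rw [e2, ← e, ← Algebra.TensorProduct.one_def, mul_one]
    exact ⟨_, hv2.symm⟩

end Pool.Agent.Lib.MP_c37a72_al.KC
end

section
/-!
# MP_c37a72_al, block KC, module CDM: `C(K_2) ≤ M_2`
-/
set_option autoImplicit false

open scoped TensorProduct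
open Coalgebra HopfAlgebra
open Pool.Agent.Lib.MP_c37a72_al.EG Pool.Agent.Lib.MP_c37a72_al.CO Pool.Agent.Lib.MP_c37a72_al.LB

namespace Pool.Agent.Lib.MP_c37a72_al.KC

universe u v

theorem specCDM (hR2S : SpecR2S.{u, v}) (hDCD : SpecDCD.{v}) (hDKG : SpecDKG.{u, v})
    (hDM2 : SpecDM2.{u, v}) : SpecCDM.{u, v} := by
  intro k H Z Q F2 R2 _ _ _ _ _ _ _ _ _ _ _ _ _ _ _ _ ι jF j D hι hR hS hK c hc
  obtain ⟨hfin, hsim, hcen⟩ := hR2S k H Z Q F2 R2 ι jF j D hι hR
  have h1 := hDCD F2 R2 hcen (K2 Z F2 ι j D) hK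
  have h2 := hDKG k H Z Q F2 R2 ι jF j D hι hR hS
  have h3 := hDM2 k H Z Q F2 R2 ι jF j D hι hR
  have hle : M2 Z F2 ι j D ≤ Subalgebra.centralizer F2 ((K2 Z F2 ι j D : Subalgebra F2 R2) : Set R2) := by
    intro x hx
    rw [Subalgebra.mem_centralizer_iff]
    intro y hy
    have hy' : y ∈ Subalgebra.centralizer F2 ((M2 Z F2 ι j D : Subalgebra F2 R2) : Set R2) := hy
    rw [Subalgebra.mem_centralizer_iff] at hy'
    exact (hy' x hx).symm
  have hKpos : 0 < Module.finrank F2 ↥(K2 Z F2 ι j D) := by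
    have : Nontrivial R2 := inferInstance
    exact Module.finrank_pos
  have h4 : Module.finrank F2
      ↥(Subalgebra.centralizer F2 ((K2 Z F2 ι j D : Subalgebra F2 R2) : Set R2)) ≤
      Module.finrank F2 ↥(M2 Z F2 ι j D) := by
    have h5 : Module.finrank F2
        ↥(Subalgebra.centralizer F2 ((K2 Z F2 ι j D : Subalgebra F2 R2) : Set R2)) *
          Module.finrank F2 ↥(K2 Z F2 ι j D) ≤
        Module.finrank F2 ↥(M2 Z F2 ι j D) * Module.finrank F2 ↥(K2 Z F2 ι j D) := by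
      rw [h1]
      calc Module.finrank F2 R2 ≤ Module.finrank Z ↥(Opp k Z ι) *
            Module.finrank F2 ↥(M2 Z F2 ι j D) := h3
        _ ≤ Module.finrank F2 ↥(K2 Z F2 ι j D) * Module.finrank F2 ↥(M2 Z F2 ι j D) :=
            Nat.mul_le_mul_right _ h2
        _ = _ := Nat.mul_comm _ _
    exact Nat.le_of_mul_le_mul_right h5 hKpos
  have heq : M2 Z F2 ι j D =
      Subalgebra.centralizer F2 ((K2 Z F2 ι j D : Subalgebra F2 R2) : Set R2) :=
    Subalgebra.eq_of_le_of_finrank_le hle h4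
  rw [heq, Subalgebra.mem_centralizer_iff]
  exact hc

end Pool.Agent.Lib.MP_c37a72_al.KC
end

section
/-!
# MP_c37a72_al, block KC, module DKG: `[K_2 : F_2] ≥ m`
-/
set_option autoImplicit false

open scoped TensorProduct
open Coalgebra HopfAlgebra
open Pool.Agent.Lib.MP_c37a72_al.EG Pool.Agent.Lib.MP_c37a72_al.CO Pool.Agent.Lib.MP_c37a72_al.LB

namespace Pool.Agent.Lib.MP_c37a72_al.KC

universe u v w

namespace DKGM

theorem exists_basis {Z Q : Type v} [Field Z] [AddCommGroup Q] [Module Z Q] [Module.Finite Z Q]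
    {m : ℕ} (v : Fin m → Q) (hv : LinearIndependent Z v) :
    ∃ (I : Type v) (_ : Fintype I) (b : Module.Basis I Z Q) (f : Fin m → I),
      Function.Injective f ∧ ∀ i, b (f i) = v i := by
  let b := Module.Basis.extend hv.linearIndepOn_id
  have hfin : Finite (hv.linearIndepOn_id.extend (Set.subset_univ _)) :=
    Module.Finite.finite_basis b
  refine ⟨_, Fintype.ofFinite _, b,
    fun i => ⟨v i, hv.linearIndepOn_id.subset_extend _ (Set.mem_range_self i)⟩, ?_, ?_⟩
  · intro i i' h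
    exact hv.injective (congrArg Subtype.val h)
  · intro i
    exact Module.Basis.extend_apply_self _ _

theorem adrQ_one {k : Type u} {Z H Q : Type v} [Field k] [Ring H] [HopfAlgebra k H]
    [Field Z] [Algebra k Z] [DivisionRing Q] [Algebra k Q] [Algebra Z Q] [IsScalarTower k Z Q]
    (ι : H →ₐ[k] Q) (q : Q) : adrQ k Z ι 1 q = q := by
  have e : comul (R := k) (1 : H) = ∑ _i : Fin 1, (1 : H) ⊗ₜ[k] (1 : H) := by
    rw [Bialgebra.comul_one, Fin.sum_univ_one]
    rfl
  rw [adrQ_eq k Z ι (x := fun _ => 1) (y := fun _ => 1) e, Fin.sum_univ_one,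
    HopfAlgebra.antipode_one, map_one, one_mul, mul_one]

end DKGM

open DKGM

theorem specDKG (hSQX : CO.SpecSQX.{u, v}) (hDES : CO.SpecDES.{u, v}) (hKCL : SpecKCL.{u, v}) :
    SpecDKG.{u, v} := by
  classical
  intro k H Z Q F2 R2 _ _ _ _ _ _ _ _ _ _ _ _ _ _ _ _ ι jF j D hQ hR hS
  obtain ⟨sQ, sZ, hs⟩ := hSQX k H Z Q ι hQ hS
  have hfZ : Module.Finite Z Q := hQ.fin
  have hfO : Module.Finite Z ↥(Opp k Z ι) := inferInstance
  have hfR : Module.Finite F2 R2 := hR.cl.finite_iZ hR.frc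
  let o := Module.finBasis Z ↥(Opp k Z ι)
  set m := Module.finrank Z ↥(Opp k Z ι) with hm
  obtain ⟨r, hr, hr1⟩ := hDES k H Z Q ι sQ sZ hQ hS hs m o
  have hK := (hKCL k H Z Q F2 R2 ι jF j D hQ hR hS).1
  -- the two independent families
  have hv1 : LinearIndependent Z (fun p : Fin m => ((o p : ↥(Opp k Z ι)) : Q)) :=
    o.linearIndependent.map' (Subalgebra.toSubmodule (Opp k Z ι)).subtype
      (Submodule.ker_subtype _)
  have hsz : ∀ (z : Z) (q : Q), sQ (z • q) = sZ z • sQ q := by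
    intro z q
    rw [Algebra.smul_def, hs.mul, hs.zz, Algebra.smul_def, Algebra.commutes]
  have hv2 : LinearIndependent Z (fun p : Fin m => sQ ((o p : ↥(Opp k Z ι)) : Q)) := by
    rw [Fintype.linearIndependent_iff] at hv1 ⊢
    intro g hg i
    have h1 : ∑ i, sZ.symm (g i) • ((o i : ↥(Opp k Z ι)) : Q) = 0 := by
      apply hs.bij.1
      rw [map_sum, map_zero, ← hg]
      refine Finset.sum_congr rfl fun i _ => ?_
      rw [hsz, AlgEquiv.apply_symm_apply]
    have h2 := hv1 _ h1 i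
    rw [← sZ.apply_symm_apply (g i), h2, map_zero]
  obtain ⟨I, _, e, f, hf, hef⟩ := exists_basis _ hv1
  obtain ⟨I', _, e', f', hf', hef'⟩ := exists_basis _ hv2
  have hind : LinearIndependent F2 (fun p : Fin m × Fin m =>
      j (((o p.1 : ↥(Opp k Z ι)) : Q) ⊗ₜ[k] sQ ((o p.2 : ↥(Opp k Z ι)) : Q))) := by
    have h1 := (hR.cl.ind_iZ hR.frc e e').comp (fun p : Fin m × Fin m => (f p.1, f' p.2))
      (fun p q hpq => Prod.ext (hf (congrArg Prod.fst hpq)) (hf' (congrArg Prod.snd hpq)))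
    have h2 : (fun p : I × I' => j (e p.1 ⊗ₜ[k] e' p.2)) ∘
        (fun p : Fin m × Fin m => (f p.1, f' p.2)) = fun p : Fin m × Fin m =>
      j (((o p.1 : ↥(Opp k Z ι)) : Q) ⊗ₜ[k] sQ ((o p.2 : ↥(Opp k Z ι)) : Q)) := by
      funext p
      show j (e (f p.1) ⊗ₜ[k] e' (f' p.2)) = _
      rw [hef, hef']
    rw [h2] at h1
    exact h1
  -- the space `V`
  let φ : (Fin m → ↥(K2 Z F2 ι j D)) →ₗ[F2] R2 :=
    ∑ s : Fin m, (LinearMap.mulRight F2 (j (((o s : ↥(Opp k Z ι)) : Q) ⊗ₜ[k] (1 : Q)))) ∘ₗ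
      (K2 Z F2 ι j D).val.toLinearMap ∘ₗ LinearMap.proj s
  have hφ : ∀ g, φ g = ∑ s : Fin m, ((g s : ↥(K2 Z F2 ι j D)) : R2) *
      j (((o s : ↥(Opp k Z ι)) : Q) ⊗ₜ[k] (1 : Q)) := by
    intro g
    rw [LinearMap.sum_apply]
    rfl
  have hVmul : ∀ c ∈ K2 Z F2 ι j D, ∀ x ∈ LinearMap.range φ, c * x ∈ LinearMap.range φ := by
    rintro c hc _ ⟨g, rfl⟩
    refine ⟨fun s => ⟨c, hc⟩ * g s, ?_⟩
    rw [hφ, hφ, Finset.mul_sum]
    refine Finset.sum_congr rfl fun s _ => ?_
    rw [← mul_assoc]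
    rfl
  have hVo : ∀ q : ↥(Opp k Z ι), j ((q : Q) ⊗ₜ[k] (1 : Q)) ∈ LinearMap.range φ := by
    intro q
    refine ⟨fun s => algebraMap F2 ↥(K2 Z F2 ι j D) (jF (o.repr q s ⊗ₜ[k] 1)), ?_⟩
    rw [hφ]
    have h1 : ((q : ↥(Opp k Z ι)) : Q) = ∑ s, o.repr q s • ((o s : ↥(Opp k Z ι)) : Q) := by
      have h2 := congrArg (Opp k Z ι).val (o.sum_repr q)
      rw [map_sum] at h2
      exact h2.symm
    conv_rhs => rw [h1, TensorProduct.sum_tmul, map_sum]
    refine Finset.sum_congr rfl fun s _ => ?_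
    have e1 : (o.repr q s • ((o s : ↥(Opp k Z ι)) : Q)) ⊗ₜ[k] (1 : Q) =
        iZ k Z Z Q Q (o.repr q s ⊗ₜ[k] 1) * (((o s : ↥(Opp k Z ι)) : Q) ⊗ₜ[k] (1 : Q)) := by
      rw [iZ_tmul, map_one, Algebra.TensorProduct.tmul_mul_tmul, one_mul, Algebra.smul_def]
    rw [e1, map_mul, hR.cl.comp]
    rfl
  have hV : ∀ p : Fin m × Fin m,
      j (((o p.1 : ↥(Opp k Z ι)) : Q) ⊗ₜ[k] sQ ((o p.2 : ↥(Opp k Z ι)) : Q)) ∈
        LinearMap.range φ := by
    rintro ⟨p, l⟩
    have h1 := hr1 1 (o l)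
    rw [adrQ_one] at h1
    have h2 : ((o p : ↥(Opp k Z ι)) : Q) ⊗ₜ[k] sQ ((o l : ↥(Opp k Z ι)) : Q) =
        ∑ i, r i (o l) * (((o i * o p : ↥(Opp k Z ι)) : Q) ⊗ₜ[k] (1 : Q)) := by
      have h3 : ((o p : ↥(Opp k Z ι)) : Q) ⊗ₜ[k] sQ ((o l : ↥(Opp k Z ι)) : Q) =
          (1 ⊗ₜ[k] sQ ((o l : ↥(Opp k Z ι)) : Q)) * (((o p : ↥(Opp k Z ι)) : Q) ⊗ₜ[k] 1) := by
        rw [Algebra.TensorProduct.tmul_mul_tmul, one_mul, mul_one]
      rw [h3, ← h1, Finset.sum_mul]
      refine Finset.sum_congr rfl fun i _ => ?_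
      rw [adrQ_one, mul_assoc, Algebra.TensorProduct.tmul_mul_tmul, mul_one]
      rfl
    show j (((o p : ↥(Opp k Z ι)) : Q) ⊗ₜ[k] sQ ((o l : ↥(Opp k Z ι)) : Q)) ∈ _
    rw [h2, map_sum]
    refine Submodule.sum_mem _ fun i _ => ?_
    rw [map_mul]
    exact hVmul _ (hK _ (hr _ _)) _ (hVo _)
  have hcard : m * m ≤ m * Module.finrank F2 ↥(K2 Z F2 ι j D) := by
    have hind' : LinearIndependent F2 (fun p : Fin m × Fin m =>
        (⟨_, hV p⟩ : LinearMap.range φ)) := by
      apply LinearIndependent.of_comp (LinearMap.range φ).subtype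
      exact hind
    have h1 := hind'.fintype_card_le_finrank
    rw [Fintype.card_prod, Fintype.card_fin] at h1
    refine h1.trans ((LinearMap.finrank_range_le φ).trans ?_)
    rw [Module.finrank_pi_fintype, Finset.sum_const, Finset.card_univ, Fintype.card_fin,
      smul_eq_mul]
  rcases Nat.eq_zero_or_pos m with h0 | h0
  · rw [h0]; exact Nat.zero_le _
  · exact Nat.le_of_mul_le_mul_left hcard h0

end Pool.Agent.Lib.MP_c37a72_al.KC
end

section
/-!
# MP_c37a72_al, block KC, module FLD: `K_2` is a field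
-/
set_option autoImplicit false

open scoped TensorProduct
open Coalgebra HopfAlgebra
open Pool.Agent.Lib.MP_c37a72_al.EG Pool.Agent.Lib.MP_c37a72_al.CO Pool.Agent.Lib.MP_c37a72_al.LB

namespace Pool.Agent.Lib.MP_c37a72_al.KC

universe u v w

namespace FLDM

section Pts

variable (k : Type u) (P : Type v) [Field k] [IsAlgClosed k] [Field P] [Algebra k P]

theorem isDomain_PP : IsDomain (P ⊗[k] P) := by
  have : NoZeroDivisors (P ⊗[k] P) := noZeroDivisors_tensor k P P
  have : Nontrivial (P ⊗[k] P) :=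
    (Algebra.TensorProduct.includeLeft_injective (S := k)
      (algebraMap k P).injective : Function.Injective
      (Algebra.TensorProduct.includeLeft : P →ₐ[k] P ⊗[k] P)).nontrivial
  exact NoZeroDivisors.to_isDomain _

/-- The two generic points of `P` in a field `Ω`, and the lifts of the automorphisms. -/
theorem exists_pts : ∃ (Ω : Type v) (_ : Field Ω) (_ : Algebra k Ω) (x y : P →ₐ[k] Ω)
    (i : P ⊗[k] P →ₐ[k] Ω), Function.Injective i ∧ (∀ a b, i (a ⊗ₜ[k] b) = x a * y b) ∧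
    ∀ σ : P ≃ₐ[k] P, ∃ t : Ω →ₐ[k] Ω, (∀ p, t (x p) = x (σ p)) ∧ ∀ p, t (y p) = y p := by
  have := isDomain_PP k P
  let Ω := FractionRing (P ⊗[k] P)
  let i : P ⊗[k] P →ₐ[k] Ω := IsScalarTower.toAlgHom k (P ⊗[k] P) Ω
  have hi : Function.Injective i := IsFractionRing.injective (P ⊗[k] P) Ω
  refine ⟨Ω, inferInstance, inferInstance, i.comp Algebra.TensorProduct.includeLeft,
    i.comp Algebra.TensorProduct.includeRight, i, hi, ?_, ?_⟩
  · intro a b
    simp only [AlgHom.comp_apply, Algebra.TensorProduct.includeLeft_apply,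
      Algebra.TensorProduct.includeRight_apply, ← map_mul, Algebra.TensorProduct.tmul_mul_tmul,
      mul_one, one_mul]
  · intro σ
    let s : P ⊗[k] P →ₐ[k] P ⊗[k] P := (Algebra.TensorProduct.congr σ AlgEquiv.refl).toAlgHom
    have hs : Function.Injective s := (Algebra.TensorProduct.congr σ AlgEquiv.refl).injective
    have his : Function.Injective (i.comp s) := hi.comp hs
    let t : Ω →ₐ[k] Ω := IsFractionRing.liftAlgHom (K := Ω) his
    have ht : ∀ a, t (i a) = i (s a) := fun a => IsFractionRing.lift_algebraMap his a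
    refine ⟨t, fun p => ?_, fun p => ?_⟩
    · rw [AlgHom.comp_apply, ht]
      simp [s]
    · rw [AlgHom.comp_apply, ht]
      simp [s]

end Pts

section Tw

variable {k : Type u} {H Z Q : Type v} [Field k] [Ring H] [HopfAlgebra k H] [Field Z] [Algebra k Z]
  [DivisionRing Q] [Algebra k Q] [Algebra Z Q] [IsScalarTower k Z Q] {ι : H →ₐ[k] Q}
  {AA : Type w} {P : Type v} [Ring AA] [Algebra k AA] [Field P] [Algebra k P] [Algebra Z P]
  [IsScalarTower k Z P] {ρ : H →ₗ[k] Module.End k AA} {ψ : ↥(Opp k Z ι) →ₐ[k] AA ⊗[k] P}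
  {θ : (P ≃ₐ[Z] P) → (AA ≃ₐ[k] AA)}

theorem xX_comp {Ω Ω' : Type v} [Field Ω] [Algebra k Ω] [Field Ω'] [Algebra k Ω'] (x : P →ₐ[k] Ω)
    (t : Ω →ₐ[k] Ω') (v : AA ⊗[k] P) : xX AA t (xX AA x v) = xX AA (t.comp x) v := by
  have : (xX AA t).comp (xX AA x) = xX AA (t.comp x) := by
    apply Algebra.TensorProduct.ext'
    intro a b
    simp
  exact DFunLike.congr_fun this v

theorem eX_comp {Ω : Type v} [Field Ω] [Algebra k Ω] (e e' : AA →ₐ[k] AA) (v : AA ⊗[k] Ω) :
    eX Ω e (eX Ω e' v) = eX Ω (e.comp e') v := by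
  have : (eX Ω e).comp (eX Ω e') = eX Ω (e.comp e') := by
    apply Algebra.TensorProduct.ext'
    intro a b
    simp
  exact DFunLike.congr_fun this v

theorem eX_id {Ω : Type v} [Field Ω] [Algebra k Ω] (v : AA ⊗[k] Ω) :
    eX Ω (AlgHom.id k AA) v = v := by
  have : eX Ω (AlgHom.id k AA) = AlgHom.id k _ := by
    apply Algebra.TensorProduct.ext'
    intro a b
    simp
  exact DFunLike.congr_fun this v

theorem eX_xX {Ω : Type v} [Field Ω] [Algebra k Ω] (e : AA →ₐ[k] AA) (x : P →ₐ[k] Ω)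
    (v : AA ⊗[k] P) : eX Ω e (xX AA x v) =
      xX AA x (Algebra.TensorProduct.map e (AlgHom.id k P) v) := by
  have : (eX Ω e).comp (xX AA x) =
      (xX AA x).comp (Algebra.TensorProduct.map e (AlgHom.id k P)) := by
    apply Algebra.TensorProduct.ext'
    intro a b
    simp
  exact DFunLike.congr_fun this v

theorem xX_map {Ω : Type v} [Field Ω] [Algebra k Ω] (x : P →ₐ[k] Ω) (σ : P →ₐ[k] P)
    (v : AA ⊗[k] P) : xX AA x (Algebra.TensorProduct.map (AlgHom.id k AA) σ v) =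
      xX AA (x.comp σ) v := by
  have : (xX AA x).comp (Algebra.TensorProduct.map (AlgHom.id k AA) σ) =
      xX AA (x.comp σ) := by
    apply Algebra.TensorProduct.ext'
    intro a b
    simp
  exact DFunLike.congr_fun this v

/-- `(id ⊗ t) Nm x y id w = (θ_σ ⊗ 1) Nm x y θ_γ w`, `σ = γ⁻¹`. -/
theorem twist (hP : CPkg k Z ι ρ ψ θ) (hone : ∀ a, θ 1 a = a)
    (hmul : ∀ γ γ' a, θ (γ' * γ) a = θ γ (θ γ' a)) {Ω : Type v} [Field Ω] [Algebra k Ω]
    (x y : P →ₐ[k] Ω) (γ : P ≃ₐ[Z] P) (t : Ω →ₐ[k] Ω) (htx : ∀ p, t (x p) = x (γ⁻¹ p))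
    (hty : ∀ p, t (y p) = y p) (w : ↥(Opp k Z ι) ⊗[k] ↥(Opp k Z ι)) :
    eX Ω (θ γ⁻¹ : AA →ₐ[k] AA) (Nm k Z ι ψ x y (θ γ : AA →ₐ[k] AA) w) =
      xX AA t (Nm k Z ι ψ x y (AlgHom.id k AA) w) := by
  have h1 : (θ γ⁻¹ : AA →ₐ[k] AA).comp (θ γ : AA →ₐ[k] AA) = AlgHom.id k AA := by
    ext a
    have := hmul γ⁻¹ γ a
    rw [mul_inv_cancel, hone] at this
    exact this.symm
  have h2 : t.comp x = x.comp ((γ⁻¹).toAlgHom.restrictScalars k) := by
    ext p
    exact htx p
  have h3 : t.comp y = y := by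
    ext p
    exact hty p
  have key : (eX Ω (θ γ⁻¹ : AA →ₐ[k] AA)).toLinearMap ∘ₗ (Nm k Z ι ψ x y (θ γ : AA →ₐ[k] AA)) =
      (xX AA t).toLinearMap ∘ₗ (Nm k Z ι ψ x y (AlgHom.id k AA)) := by
    apply TensorProduct.ext'
    intro a c
    simp only [LinearMap.comp_apply, AlgHom.toLinearMap_apply, Nm_tmul, map_mul]
    rw [eX_comp, h1, eX_id, xX_comp, h3, xX_comp, h2, eX_xX]
    congr 1
    have h4 := hP.thP γ⁻¹ a
    rw [← xX_map, h4]
  exact DFunLike.congr_fun key w

theorem eX_injective {Ω : Type v} [Field Ω] [Algebra k Ω] (e : AA ≃ₐ[k] AA) :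
    Function.Injective (eX Ω (e : AA →ₐ[k] AA)) := by
  intro v v' h
  have h1 := congrArg (eX Ω (e.symm : AA →ₐ[k] AA)) h
  have h2 : (e.symm : AA →ₐ[k] AA).comp (e : AA →ₐ[k] AA) = AlgHom.id k AA := by
    ext a
    simp
  rwa [eX_comp, eX_comp, h2, eX_id, eX_id] at h1

end Tw

/-- A finite-dimensional commutative algebra without zero divisors over a field is a field. -/
theorem isField_of {F K : Type*} [Field F] [Ring K] [Algebra F K] [Module.Finite F K]
    [Nontrivial K] (hc : ∀ a b : K, a * b = b * a) (hz : ∀ a b : K, a * b = 0 → a = 0 ∨ b = 0) :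
    IsField K := by
  have : NoZeroDivisors K := ⟨fun {a b} h => hz a b h⟩
  have : IsDomain K := NoZeroDivisors.to_isDomain K
  refine ⟨exists_pair_ne K, hc, fun {a} ha => ?_⟩
  exact FiniteDimensional.exists_mul_eq_one F ha

end FLDM

open FLDM in
theorem specFLD (hRES : CO.SpecRES.{u, v}) (hSQX : CO.SpecSQX.{u, v}) (hTHG : SpecTHG.{u, v, w})
    (hRCT : SpecRCT.{u, v}) (hMGM : SpecMGM.{u, v, w}) (hMIN : SpecMIN.{u, v, w})
    (hKCL : SpecKCL.{u, v}) (hR2S : LB.SpecR2S.{u, v}) : SpecFLD.{u, v, w} := by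
  intro k H Z Q F2 R2 _ _ _ _ _ _ _ _ _ _ _ _ _ _ _ _ _ _ ι jF j D AA P _ _ _ _ _ _ ρ ψ θ
    hQ hR hS hP
  obtain ⟨sQ, sZ, hsQ⟩ := hSQX k H Z Q ι hQ hS
  obtain ⟨R, hRO⟩ := hRES k H Z Q ι hQ
  obtain ⟨hone, hmul, -⟩ := hTHG k H Z Q ι AA P ρ ψ θ hQ hP
  obtain ⟨-, hRC⟩ := hRCT k H Z Q ι sQ sZ R hQ hS hsQ hRO
  obtain ⟨hK1, hK2⟩ := hKCL k H Z Q F2 R2 ι jF j D hQ hR hS
  obtain ⟨hfin, -, -⟩ := hR2S k H Z Q F2 R2 ι jF j D hQ hR
  obtain ⟨Ω, _, _, x, y, i0, hi0, hxy, hlift⟩ := exists_pts k P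
  -- the character `M`
  obtain ⟨M, hM⟩ := hMGM k H Z Q ι sQ sZ AA P ρ ψ θ hQ hS hsQ hP Ω x y (AlgHom.id k AA)
    (fun h a => rfl)
  have hMinj : Function.Injective M := by
    rw [injective_iff_map_eq_zero]
    rintro ⟨y0, hy0⟩ h0
    obtain ⟨w, rfl, -⟩ := hRC y0 hy0
    have h1 := hM w hy0
    rw [h0, TensorProduct.tmul_zero] at h1
    let zP : Z →ₐ[k] P := IsScalarTower.toAlgHom k Z P
    have hzP : Function.Injective zP := (algebraMap Z P).injective
    have hw : w = 0 := by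
      refine hMIN k H Z Q ι AA P ρ ψ θ hQ hP Ω x y
        (i0.comp (Algebra.TensorProduct.map zP zP)) ?_ ?_ w ?_
      · refine hi0.comp ?_
        exact TensorProduct.map_injective_of_flat_flat _ _ hzP hzP
      · intro z z'
        rw [AlgHom.comp_apply, Algebra.TensorProduct.map_tmul, hxy]
        rfl
      · intro γ
        obtain ⟨t, htx, hty⟩ := hlift ((γ⁻¹ : P ≃ₐ[Z] P).restrictScalars k)
        have h2 := twist hP hone hmul x y γ t htx hty w
        rw [h1, map_zero] at h2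
        exact eX_injective (θ γ⁻¹) (by rw [h2, map_zero])
    apply Subtype.ext
    show tau k Z ι sQ w = 0
    rw [hw, map_zero]
  have hcomm : ∀ a ∈ Rcom k Z ι, ∀ b ∈ Rcom k Z ι, a * b = b * a := by
    intro a ha b hb
    have h1 : (⟨a, ha⟩ : ↥(Rcom k Z ι)) * ⟨b, hb⟩ = ⟨b, hb⟩ * ⟨a, ha⟩ :=
      hMinj (by rw [map_mul, map_mul, mul_comm])
    exact congrArg Subtype.val h1
  have hzero : ∀ a ∈ Rcom k Z ι, ∀ b ∈ Rcom k Z ι, a * b = 0 → a = 0 ∨ b = 0 := by
    intro a ha b hb hab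
    have h1 : M ⟨a, ha⟩ * M ⟨b, hb⟩ = 0 := by
      rw [← map_mul]
      have : (⟨a, ha⟩ : ↥(Rcom k Z ι)) * ⟨b, hb⟩ = 0 := Subtype.ext hab
      rw [this, map_zero]
    rcases mul_eq_zero.1 h1 with h2 | h2
    · left
      exact congrArg Subtype.val (hMinj (h2.trans (map_zero M).symm))
    · right
      exact congrArg Subtype.val (hMinj (h2.trans (map_zero M).symm))
  -- denominators
  have hden : ∀ v ∈ K2 Z F2 ι j D, ∃ (f : F2) (y' : Q ⊗[k] Q), f ≠ 0 ∧ y' ∈ Rcom k Z ι ∧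
      f • v = j y' := by
    intro v hv
    obtain ⟨t, y', ht, hy', he⟩ := hK2 v hv
    exact ⟨jF t, y', hR.frc.ne' ht, hy', by rw [Algebra.smul_def, he]⟩
  have : Nontrivial R2 := by
    have : Nontrivial (Q ⊗[k] Q) :=
      (Algebra.TensorProduct.includeLeft_injective (S := k)
        (algebraMap k Q).injective : Function.Injective
        (Algebra.TensorProduct.includeLeft : Q →ₐ[k] Q ⊗[k] Q)).nontrivial
    exact hR.cl.inj.nontrivial
  have : Module.Finite F2 ↥(K2 Z F2 ι j D) :=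
    FiniteDimensional.finiteDimensional_subalgebra _
  refine isField_of (F := F2) ?_ ?_
  · rintro ⟨a, ha⟩ ⟨b, hb⟩
    apply Subtype.ext
    show a * b = b * a
    obtain ⟨f, a', hf, ha', hea⟩ := hden a ha
    obtain ⟨g, b', hg, hb', heb⟩ := hden b hb
    have h1 : (f • a) * (g • b) = (g • b) * (f • a) := by
      rw [hea, heb, ← map_mul, ← map_mul, hcomm a' ha' b' hb']
    rw [smul_mul_smul_comm, smul_mul_smul_comm, mul_comm g f] at h1
    exact smul_right_injective R2 (mul_ne_zero hf hg) h1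
  · rintro ⟨a, ha⟩ ⟨b, hb⟩ hab
    have hab' : a * b = 0 := congrArg Subtype.val hab
    obtain ⟨f, a', hf, ha', hea⟩ := hden a ha
    obtain ⟨g, b', hg, hb', heb⟩ := hden b hb
    have h1 : j (a' * b') = 0 := by
      rw [map_mul, ← hea, ← heb, smul_mul_smul_comm, hab', smul_zero]
    have h2 : a' * b' = 0 := hR.cl.inj (by rw [h1, map_zero])
    rcases hzero a' ha' b' hb' h2 with h3 | h3
    · left
      apply Subtype.ext
      show a = 0
      rw [h3, map_zero] at hea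
      exact (smul_eq_zero.1 hea).resolve_left hf
    · right
      apply Subtype.ext
      show b = 0
      rw [h3, map_zero] at heb
      exact (smul_eq_zero.1 heb).resolve_left hg

end Pool.Agent.Lib.MP_c37a72_al.KC
end

section
/-!
# MP_c37a72_al, block KC, module HAU: the trace form, and the `H`-automorphisms of `A`
-/
set_option autoImplicit false

open scoped TensorProduct
open Coalgebra HopfAlgebra
open Pool.Agent.Lib.MP_c37a72_al.EG Pool.Agent.Lib.MP_c37a72_al.CO Pool.Agent.Lib.MP_c37a72_al.LB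

namespace Pool.Agent.Lib.MP_c37a72_al.KC

universe u v w

namespace HAUM

section

variable {k : Type u} {AA : Type w} [Field k] [Ring AA] [Algebra k AA]

/-- independence for a finite set of endomorphisms. -/
theorem indS {E : (AA →ₐ[k] AA) → Prop}
    (hind : ∀ (r : ℕ) (e : Fin r → (AA →ₐ[k] AA)), (∀ i, E (e i)) → Function.Injective e →
      ∀ c : Fin r → AA, (∀ a, ∑ i, e i a * c i = 0) → ∀ i, c i = 0)
    (S : Finset (AA →ₐ[k] AA)) (hS : ∀ e ∈ S, E e) (C : (AA →ₐ[k] AA) → AA)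
    (h : ∀ a, ∑ e ∈ S, e a * C e = 0) : ∀ e ∈ S, C e = 0 := by
  intro e he
  have h1 := hind S.card (fun i => (S.equivFin.symm i).1) (fun i => hS _ (S.equivFin.symm i).2)
    (Subtype.val_injective.comp S.equivFin.symm.injective) (fun i => C (S.equivFin.symm i).1)
    (fun a => by
      rw [← h a, ← Finset.sum_coe_sort S (fun e => e a * C e)]
      exact Equiv.sum_comp S.equivFin.symm (fun p : S => p.1 a * C p.1))
    (S.equivFin ⟨e, he⟩)
  simpa using h1

open Classical in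
/-- independence for a family of endomorphisms, not necessarily distinct. -/
theorem indT {E : (AA →ₐ[k] AA) → Prop}
    (hind : ∀ (r : ℕ) (e : Fin r → (AA →ₐ[k] AA)), (∀ i, E (e i)) → Function.Injective e →
      ∀ c : Fin r → AA, (∀ a, ∑ i, e i a * c i = 0) → ∀ i, c i = 0)
    {Γ : Type*} [Fintype Γ] (th : Γ → (AA →ₐ[k] AA)) (hth : ∀ γ, E (th γ)) (D : Γ → AA)
    (h : ∀ a, ∑ γ, th γ a * D γ = 0) (γ₀ : Γ) :
    ∑ γ ∈ Finset.univ.filter (fun γ => th γ = th γ₀), D γ = 0 := by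
  refine indS hind (Finset.univ.image th) ?_
    (fun e => ∑ γ ∈ Finset.univ.filter (fun γ => th γ = e), D γ) ?_ (th γ₀)
    (Finset.mem_image_of_mem th (Finset.mem_univ γ₀))
  · intro e he
    obtain ⟨γ, _, rfl⟩ := Finset.mem_image.1 he
    exact hth γ
  · intro a
    rw [← h a, ← Finset.sum_fiberwise_of_maps_to (s := Finset.univ) (t := Finset.univ.image th)
      (g := th) (fun γ _ => Finset.mem_image_of_mem th (Finset.mem_univ γ))]
    refine Finset.sum_congr rfl fun e _ => ?_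
    rw [Finset.mul_sum]
    refine Finset.sum_congr rfl fun γ hγ => ?_
    rw [(Finset.mem_filter.1 hγ).2]

open Classical in
/-- an endomorphism outside the family has coefficient zero. -/
theorem indO {E : (AA →ₐ[k] AA) → Prop}
    (hind : ∀ (r : ℕ) (e : Fin r → (AA →ₐ[k] AA)), (∀ i, E (e i)) → Function.Injective e →
      ∀ c : Fin r → AA, (∀ a, ∑ i, e i a * c i = 0) → ∀ i, c i = 0)
    {Γ : Type*} [Fintype Γ] (th : Γ → (AA →ₐ[k] AA)) (hth : ∀ γ, E (th γ)) (D : Γ → AA)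
    (e : AA →ₐ[k] AA) (he : E e) (hne : ∀ γ, th γ ≠ e) (c : AA)
    (h : ∀ a, e a * c + ∑ γ, th γ a * D γ = 0) : c = 0 := by
  let th' : Option Γ → (AA →ₐ[k] AA) := fun o => o.elim e th
  let D' : Option Γ → AA := fun o => o.elim c D
  have h1 := indT hind th' (by rintro (_ | γ); exacts [he, hth γ]) D'
    (by
      intro a
      rw [Fintype.sum_option]
      exact h a) none
  have h2 : (Finset.univ.filter (fun γ => th' γ = th' none)) = {none} := by
    ext o
    simp only [Finset.mem_filter, Finset.mem_univ, true_and, Finset.mem_singleton]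
    constructor
    · intro ho
      rcases o with _ | γ
      · rfl
      · exact absurd ho (hne γ)
    · rintro rfl
      rfl
  rw [h2, Finset.sum_singleton] at h1
  exact h1

end

end HAUM

open HAUM in
theorem specHAU (hAIV : SpecAIV.{u, v, w}) (hTHG : SpecTHG.{u, v, w})
    (hIND : SpecIND.{u, v, w}) : SpecHAU.{u, v, w} := by
  classical
  intro k H Z Q _ _ _ _ _ _ _ _ _ _ _ ι AA P _ _ _ _ _ _ ρ ψ θ _ hQ hC
  obtain ⟨-, hnt, -, -⟩ := hAIV k H Z Q ι AA P ρ ψ θ hQ hC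
  obtain ⟨-, hmul, hinv⟩ := hTHG k H Z Q ι AA P ρ ψ θ hQ hC
  have hind := hIND k H Z Q ι AA P ρ ψ θ hQ hC
  let E : (AA →ₐ[k] AA) → Prop := fun e => ∀ h a, e (ρ h a) = ρ h (e a)
  have hind' : ∀ (r : ℕ) (e : Fin r → (AA →ₐ[k] AA)), (∀ i, E (e i)) →
      Function.Injective e → ∀ c : Fin r → AA, (∀ a, ∑ i, e i a * c i = 0) → ∀ i, c i = 0 :=
    fun r e he => hind r e he
  have hfin : Module.Finite k AA := hC.finA
  let th : (P ≃ₐ[Z] P) → (AA →ₐ[k] AA) := fun γ => (θ γ : AA →ₐ[k] AA)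
  have hth : ∀ γ a, th γ a = θ γ a := fun γ a => rfl
  have hthE : ∀ γ, E (th γ) := fun γ h a => hC.thH γ h a
  -- (1)
  have h1 : ∀ b : AA, ∃ t : k, ∑ γ, θ γ b = algebraMap k AA t := by
    intro b
    obtain ⟨c, hc⟩ := hinv (∑ γ, θ γ b) (by
      intro γ'
      rw [map_sum]
      have h2 : ∀ γ, θ γ' (θ γ b) = θ (γ * γ') b := fun γ => (hmul γ' γ b).symm
      simp only [h2]
      exact Equiv.sum_comp (Equiv.mulRight γ') (fun γ => θ γ b))
    exact ⟨c, hc.symm⟩
  have hinj : Function.Injective (algebraMap k AA) := (algebraMap k AA).injective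
  choose T hT using h1
  let Tl : AA →ₗ[k] k :=
    { toFun := T
      map_add' := fun a b => hinj (by
        rw [map_add, ← hT, ← hT, ← hT, ← Finset.sum_add_distrib]
        simp only [map_add])
      map_smul' := fun r a => hinj (by
        rw [RingHom.id_apply, smul_eq_mul, map_mul, ← hT, ← hT, ← Algebra.smul_def,
          Finset.smul_sum]
        simp only [map_smul]) }
  have hTl : ∀ a, algebraMap k AA (Tl a) = ∑ γ, θ γ a := fun a => (hT a).symm
  let Λ : AA →ₗ[k] Module.Dual k AA := LinearMap.mk₂ k (fun c a => Tl (a * c))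
    (fun c c' a => by rw [mul_add, map_add])
    (fun r c a => by rw [mul_smul_comm, map_smul])
    (fun c a a' => by rw [add_mul, map_add])
    (fun r c a => by rw [smul_mul_assoc, map_smul])
  have hΛ : ∀ c a, Λ c a = Tl (a * c) := fun c a => rfl
  have hΛinj : Function.Injective Λ := by
    rw [injective_iff_map_eq_zero]
    intro c hc
    have h2 : ∀ a, ∑ γ, th γ a * θ γ c = 0 := by
      intro a
      have h3 : algebraMap k AA (Λ c a) = 0 := by rw [hc]; simp
      rw [hΛ, hTl] at h3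
      rw [← h3]
      refine Finset.sum_congr rfl fun γ _ => ?_
      rw [hth, map_mul]
    have h4 := indT (E := E) hind' th hthE (fun γ => θ γ c) h2 1
    have h5 : ∑ γ ∈ Finset.univ.filter (fun γ => th γ = th 1), θ γ c =
        ((Finset.univ.filter (fun γ => th γ = th 1)).card : k) • θ 1 c := by
      rw [Nat.cast_smul_eq_nsmul, ← Finset.sum_const]
      refine Finset.sum_congr rfl fun γ hγ => ?_
      have h6 := (Finset.mem_filter.1 hγ).2
      rw [← hth, h6, hth]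
    rw [h5] at h4
    have h7 : ((Finset.univ.filter (fun γ => th γ = th 1)).card : k) ≠ 0 := by
      rw [Nat.cast_ne_zero]
      exact Finset.card_ne_zero.2 ⟨1, Finset.mem_filter.2 ⟨Finset.mem_univ _, rfl⟩⟩
    have h8 := (smul_eq_zero.1 h4).resolve_left h7
    exact (map_eq_zero_iff _ (θ 1).injective).1 h8
  have hΛsurj : Function.Surjective Λ :=
    (LinearMap.injective_iff_surjective_of_finrank_eq_finrank
      (Subspace.dual_finrank_eq (K := k) (V := AA)).symm).1 hΛinj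
  let y : Module.Basis (Fin (Module.finrank k AA)) k AA := Module.finBasis k AA
  choose x hx using fun i => hΛsurj (y.coord i)
  have hyx : ∀ i j, Tl (y j * x i) = if j = i then 1 else 0 := by
    intro i j
    rw [← hΛ, hx, Module.Basis.coord_apply, Module.Basis.repr_self, Finsupp.single_apply]
  have h2 : ∀ c, ∑ i, x i * algebraMap k AA (Tl (y i * c)) = c := by
    intro c
    have h3 : c - ∑ i, x i * algebraMap k AA (Tl (y i * c)) = 0 := by
      apply hΛinj
      rw [map_zero]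
      refine y.ext fun j => ?_
      rw [hΛ, mul_sub, map_sub, Finset.mul_sum, map_sum, LinearMap.zero_apply, sub_eq_zero]
      have h4 : ∀ i, Tl (y j * (x i * algebraMap k AA (Tl (y i * c)))) =
          if j = i then Tl (y i * c) else 0 := by
        intro i
        rw [← mul_assoc, ← Algebra.commutes, ← Algebra.smul_def, map_smul, hyx, smul_eq_mul]
        split_ifs <;> simp
      simp only [h4, Finset.sum_ite_eq, Finset.mem_univ, if_true]
    exact (sub_eq_zero.1 h3).symm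
  have h3 : ∀ c, ∑ i, Tl (c * x i) • y i = c := by
    intro c
    have h4 : ∀ i, Tl (c * x i) = y.repr c i := by
      intro i
      rw [← hΛ, hx, Module.Basis.coord_apply]
    simp only [h4]
    exact y.sum_repr c
  refine ⟨fun b => ⟨T b, hT b⟩, ⟨_, x, y, fun c => ?_⟩, ?_⟩
  · have h4 := h2 c
    simp only [hTl] at h4
    exact h4
  · intro e he
    by_contra hne
    push Not at hne
    have hne' : ∀ γ, th γ ≠ e := by
      intro γ hγ
      obtain ⟨a, ha⟩ := hne γ
      exact ha (by rw [← hγ, hth])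
    have h5 : ∀ c, e c = ∑ γ, θ γ c * ∑ i, θ γ (x i) * e (y i) := by
      intro c
      conv_lhs => rw [← h3 c]
      have h7 : ∀ i, e (Tl (c * x i) • y i) = ∑ γ, θ γ c * (θ γ (x i) * e (y i)) := by
        intro i
        rw [map_smul, Algebra.smul_def, hTl, Finset.sum_mul]
        refine Finset.sum_congr rfl fun γ _ => ?_
        rw [map_mul, mul_assoc]
      rw [map_sum]
      simp only [h7, Finset.mul_sum]
      exact Finset.sum_comm
    have h6 := indO (E := E) hind' th hthE (fun γ => - ∑ i, θ γ (x i) * e (y i)) e he hne' 1 (by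
      intro a
      rw [mul_one]
      simp only [mul_neg, Finset.sum_neg_distrib, hth]
      rw [← sub_eq_add_neg, sub_eq_zero]
      exact h5 a)
    exact one_ne_zero h6

end Pool.Agent.Lib.MP_c37a72_al.KC
end

section
/-!
# MP_c37a72_al, block KC, module JNI: joint injectivity of `(c, a) ↦ θ_γ(c) a`
-/
set_option autoImplicit false

open scoped TensorProduct
open Coalgebra HopfAlgebra
open Pool.Agent.Lib.MP_c37a72_al.EG Pool.Agent.Lib.MP_c37a72_al.CO Pool.Agent.Lib.MP_c37a72_al.LB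

namespace Pool.Agent.Lib.MP_c37a72_al.KC

universe u v w

namespace JNIM

variable {k : Type u} {AA : Type w} {Ω : Type v} [Field k] [Ring AA] [Algebra k AA] [Field Ω]
  [Algebra k Ω]

theorem central (ω : Ω) (b : AA ⊗[k] Ω) :
    (1 ⊗ₜ[k] ω : AA ⊗[k] Ω) * b = b * (1 ⊗ₜ[k] ω) := by
  induction b using TensorProduct.induction_on with
  | zero => rw [mul_zero, zero_mul]
  | add x y hx hy => rw [mul_add, add_mul, hx, hy]
  | tmul a ω' =>
    rw [Algebra.TensorProduct.tmul_mul_tmul, Algebra.TensorProduct.tmul_mul_tmul, one_mul,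
      mul_one, mul_comm]

variable {Γ : Type*} [Fintype Γ]

theorem sum_eX (θ : Γ → (AA →ₐ[k] AA)) (h1 : ∀ b : AA, ∃ t : k, ∑ γ, θ γ b = algebraMap k AA t)
    (b : AA ⊗[k] Ω) : ∃ t : Ω, ∑ γ, eX Ω (θ γ) b = 1 ⊗ₜ[k] t := by
  induction b using TensorProduct.induction_on with
  | zero =>
    refine ⟨0, ?_⟩
    simp only [map_zero, Finset.sum_const_zero, TensorProduct.tmul_zero]
  | add x y hx hy =>
    obtain ⟨s, hs⟩ := hx
    obtain ⟨t, ht⟩ := hy
    refine ⟨s + t, ?_⟩
    simp only [map_add, Finset.sum_add_distrib]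
    rw [hs, ht, TensorProduct.tmul_add]
  | tmul a ω =>
    obtain ⟨t, ht⟩ := h1 a
    refine ⟨t • ω, ?_⟩
    simp only [eX_tmul]
    rw [← TensorProduct.sum_tmul, ht, Algebra.algebraMap_eq_smul_one, TensorProduct.smul_tmul]

theorem recon (θ : Γ → (AA →ₐ[k] AA)) {N : ℕ} (x y : Fin N → AA)
    (h2 : ∀ c, ∑ i, x i * ∑ γ, θ γ (y i * c) = c) (c : AA ⊗[k] Ω) :
    ∑ i, (x i ⊗ₜ[k] (1 : Ω)) * ∑ γ, eX Ω (θ γ) ((y i ⊗ₜ[k] (1 : Ω)) * c) = c := by
  induction c using TensorProduct.induction_on with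
  | zero => simp only [mul_zero, map_zero, Finset.sum_const_zero]
  | add a b ha hb =>
    simp only [mul_add, map_add, Finset.sum_add_distrib]
    rw [ha, hb]
  | tmul a ω =>
    simp only [Algebra.TensorProduct.tmul_mul_tmul, one_mul, eX_tmul, ← TensorProduct.sum_tmul]
    rw [h2]

theorem main (θ : Γ → (AA →ₐ[k] AA)) (h1 : ∀ b : AA, ∃ t : k, ∑ γ, θ γ b = algebraMap k AA t)
    {N : ℕ} (x y : Fin N → AA) (h2 : ∀ c, ∑ i, x i * ∑ γ, θ γ (y i * c) = c) {m : ℕ}
    (v v' : Fin m → AA ⊗[k] Ω)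
    (hv : ∀ ω : Fin m → Ω, ∑ l, v l * (1 ⊗ₜ[k] ω l) = 0 → ∀ l, ω l = 0)
    (hv' : ∀ ω : Fin m → Ω, ∑ l, v' l * (1 ⊗ₜ[k] ω l) = 0 → ∀ l, ω l = 0)
    (ω : Fin m → Fin m → Ω)
    (h : ∀ γ, ∑ l, ∑ p, eX Ω (θ γ) (v l) * v' p * (1 ⊗ₜ[k] ω l p) = 0) :
    ∀ l p, ω l p = 0 := by
  let c : Fin m → AA ⊗[k] Ω := fun p => ∑ l, v l * (1 ⊗ₜ[k] ω l p)
  have hc : ∀ γ, ∑ p, eX Ω (θ γ) (c p) * v' p = 0 := by
    intro γ
    rw [← h γ, Finset.sum_comm]
    refine Finset.sum_congr rfl fun p _ => ?_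
    rw [map_sum, Finset.sum_mul]
    refine Finset.sum_congr rfl fun l _ => ?_
    rw [map_mul, eX_tmul, map_one, mul_assoc, central, mul_assoc]
  choose t ht using sum_eX (Ω := Ω) θ h1
  have h3 : ∀ i p, t ((y i ⊗ₜ[k] (1 : Ω)) * c p) = 0 := by
    intro i
    apply hv'
    have h4 : ∀ p, v' p * (1 ⊗ₜ[k] t ((y i ⊗ₜ[k] (1 : Ω)) * c p)) =
        ∑ γ, eX Ω (θ γ) (y i ⊗ₜ[k] (1 : Ω)) * (eX Ω (θ γ) (c p) * v' p) := by
      intro p
      rw [← central, ← ht, Finset.sum_mul]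
      refine Finset.sum_congr rfl fun γ _ => ?_
      rw [map_mul, mul_assoc]
    simp only [h4]
    rw [Finset.sum_comm]
    refine Finset.sum_eq_zero fun γ _ => ?_
    rw [← Finset.mul_sum, hc, mul_zero]
  have h5 : ∀ p, c p = 0 := by
    intro p
    rw [← recon θ x y h2 (c p)]
    refine Finset.sum_eq_zero fun i _ => ?_
    rw [ht, h3, TensorProduct.tmul_zero, mul_zero]
  intro l p
  exact hv (fun l => ω l p) (h5 p) l

end JNIM

open JNIM in
theorem specJNI : SpecJNI.{u, v, w} := by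
  intro k P Z Ω AA _ _ _ _ _ _ _ _ θ _ h1 h2 m v v' hv hv' ω h
  obtain ⟨N, x, y, h2⟩ := h2
  exact main (fun γ => (θ γ : AA →ₐ[k] AA)) h1 x y h2 v v' hv hv' ω h

end Pool.Agent.Lib.MP_c37a72_al.KC
end

section
/-!
# MP_c37a72_al, block KC, module KCL: `K_2 = F_2 Rcom`
-/
set_option autoImplicit false

open scoped TensorProduct
open Coalgebra HopfAlgebra
open Pool.Agent.Lib.MP_c37a72_al.EG Pool.Agent.Lib.MP_c37a72_al.CO Pool.Agent.Lib.MP_c37a72_al.LB

namespace Pool.Agent.Lib.MP_c37a72_al.KC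

universe u v w

theorem specKCL (hE0X : SpecE0X.{u, v}) (hM2D : SpecM2D.{u, v}) : SpecKCL.{u, v} := by
  intro k H Z Q F2 R2 _ _ _ _ _ _ _ _ _ _ _ _ _ _ _ _ ι jF j D hQ hR hS
  constructor
  · intro y hy
    have hc : M2 Z F2 ι j D ≤ Subalgebra.centralizer F2 ({j y} : Set R2) := by
      refine Algebra.adjoin_le ?_
      have hcomm : ∀ w, w * y = y * w → j w * j y = j y * j w := by
        intro w hw
        rw [← map_mul, hw, map_mul]
      have hyR := Subalgebra.mem_centralizer_iff k |>.1 hy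
      rintro g (⟨e, he, rfl⟩ | ⟨q, rfl⟩)
      · rw [SetLike.mem_coe, Subalgebra.mem_centralizer_iff]
        rintro _ rfl
        exact (hcomm _ (hyR _ (Or.inl (Or.inl ⟨e, he, rfl⟩)))).symm
      · rw [SetLike.mem_coe, Subalgebra.mem_centralizer_iff]
        rintro _ rfl
        obtain ⟨c, h, hc0, -, hch⟩ := hQ.frac q
        have hD : ∀ x : H, D (ι x) * j y = j y * D (ι x) := by
          intro x
          rw [hR.D_ι]
          exact hcomm _ (hyR _ (Or.inr ⟨x, rfl⟩))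
        have hc1 : ι c ≠ 0 := fun h0 => hc0 (hQ.inj (by rw [h0, map_zero]))
        have hu : D (ι c)⁻¹ * D (ι c) = 1 := by
          rw [← map_mul, inv_mul_cancel₀ hc1, map_one]
        have h1 : D (ι c) * (j y * D q) = D (ι c) * (D q * j y) := by
          rw [← mul_assoc, hD, mul_assoc, ← map_mul, hch, ← mul_assoc, ← map_mul, hch, hD]
        calc j y * D q = D (ι c)⁻¹ * (D (ι c) * (j y * D q)) := by
              rw [← mul_assoc, hu, one_mul]
          _ = D q * j y := by rw [h1, ← mul_assoc, hu, one_mul]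
    show j y ∈ Subalgebra.centralizer F2 (M2 Z F2 ι j D : Set R2)
    rw [Subalgebra.mem_centralizer_iff]
    intro g hg
    exact ((Subalgebra.mem_centralizer_iff F2).1 (hc hg) _ rfl).symm
  · intro v hv
    obtain ⟨a, t, ht, hat⟩ := hR.cl.surj v
    refine ⟨t, a, ht, ?_, hat⟩
    have hja : j a ∈ K2 Z F2 ι j D := by
      rw [← hat]
      exact (K2 Z F2 ι j D).mul_mem ((K2 Z F2 ι j D).algebraMap_mem _) hv
    have hkey : ∀ w, j w ∈ M2 Z F2 ι j D → w * a = a * w := by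
      intro w hw
      apply hR.cl.inj
      rw [map_mul, map_mul]
      exact (Subalgebra.mem_centralizer_iff F2).1 hja _ hw
    show a ∈ Subalgebra.centralizer k _
    rw [Subalgebra.mem_centralizer_iff]
    rintro g ((⟨x, hx, rfl⟩ | ⟨b, hb, rfl⟩) | ⟨h, rfl⟩)
    · exact hkey _ (Algebra.subset_adjoin (Or.inl ⟨x, hx, rfl⟩))
    · apply hkey
      obtain ⟨El, Er, hEl, hEr⟩ := hE0X k H Z Q ι hQ
      have h1 := (hM2D k H Z Q F2 R2 ι jF j D hQ hR hS El Er hEl hEr).2
      have h2 : ∀ p ∈ Submodule.span Z (Er : Set Q), j ((1 : Q) ⊗ₜ[k] p) ∈ M2 Z F2 ι j D := by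
        intro p hp
        induction hp using Submodule.span_induction with
        | mem e he =>
          have h3 : j ((1 : Q) ⊗ₜ[k] e) ∈ Submodule.span F2 (WD D (embR j Er) : Set R2) := by
            apply Submodule.subset_span
            apply Submodule.subset_span
            refine ⟨j ((1 : Q) ⊗ₜ[k] e), Submodule.mem_map_of_mem he, 1, ?_⟩
            rw [map_one, mul_one]
          rw [h1] at h3
          exact h3
        | zero => rw [TensorProduct.tmul_zero, map_zero]; exact Subalgebra.zero_mem _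
        | add p q _ _ hp hq =>
          rw [TensorProduct.tmul_add, map_add]
          exact Subalgebra.add_mem _ hp hq
        | smul z p _ hp =>
          have e1 : (1 : Q) ⊗ₜ[k] (z • p) = iZ k Z Z Q Q (1 ⊗ₜ[k] z) * ((1 : Q) ⊗ₜ[k] p) := by
            rw [iZ_tmul, map_one, Algebra.TensorProduct.tmul_mul_tmul, one_mul, Algebra.smul_def]
          rw [e1, map_mul, hR.cl.comp]
          exact Subalgebra.mul_mem _ (Subalgebra.algebraMap_mem _ _) hp
      exact h2 b (hEr.gen b hb)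
    · apply hkey
      have h1 : j (dd k ι h) = D (ι h) := (hR.D_ι h).symm
      rw [h1]
      exact Algebra.subset_adjoin (Or.inr ⟨_, rfl⟩)

end Pool.Agent.Lib.MP_c37a72_al.KC
end

section
/-!
# MP_c37a72_al, block KC, module KTH: the automorphism attached to a point of `K_2`
-/
set_option autoImplicit false

open scoped TensorProduct
open Coalgebra HopfAlgebra
open Pool.Agent.Lib.MP_c37a72_al.EG Pool.Agent.Lib.MP_c37a72_al.CO Pool.Agent.Lib.MP_c37a72_al.LB

namespace Pool.Agent.Lib.MP_c37a72_al.KC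

universe u v w

namespace KTHM

section Lin

variable {k : Type u} {Ω : Type v} {AA : Type w} [Field k] [Field Ω] [Algebra k Ω] [Ring AA]
  [Algebra k AA]

theorem one_tmul_comm (v : AA ⊗[k] Ω) (ω : Ω) :
    (1 ⊗ₜ[k] ω) * v = v * (1 ⊗ₜ[k] ω : AA ⊗[k] Ω) := by
  induction v using TensorProduct.induction_on with
  | zero => rw [mul_zero, zero_mul]
  | tmul a b =>
    rw [Algebra.TensorProduct.tmul_mul_tmul, Algebra.TensorProduct.tmul_mul_tmul, one_mul, mul_one,
      mul_comm]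
  | add x y hx hy => rw [mul_add, add_mul, hx, hy]

theorem one_tmul_mul (ω ω' : Ω) :
    (1 ⊗ₜ[k] (ω * ω') : AA ⊗[k] Ω) = (1 ⊗ₜ[k] ω) * (1 ⊗ₜ[k] ω') := by
  rw [Algebra.TensorProduct.tmul_mul_tmul, one_mul]

theorem smul_eq_mul (c : k) (v : AA ⊗[k] Ω) :
    c • v = v * (1 ⊗ₜ[k] algebraMap k Ω c : AA ⊗[k] Ω) := by
  rw [← one_tmul_comm, Algebra.smul_def, Algebra.TensorProduct.algebraMap_apply']

/-- A linear map with prescribed values on a basis (for the right multiplications by `1 ⊗ ω`). -/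
theorem exists_lin {m : ℕ} (v u : Fin m → AA ⊗[k] Ω)
    (hind : ∀ ω : Fin m → Ω, ∑ l, v l * (1 ⊗ₜ[k] ω l) = 0 → ∀ l, ω l = 0)
    (hspan : ∀ w : AA ⊗[k] Ω, ∃ ω : Fin m → Ω, w = ∑ l, v l * (1 ⊗ₜ[k] ω l)) :
    ∃ β : AA ⊗[k] Ω →ₗ[k] AA ⊗[k] Ω,
      (∀ (w : AA ⊗[k] Ω) (ω : Ω), β (w * (1 ⊗ₜ[k] ω)) = β w * (1 ⊗ₜ[k] ω)) ∧
      ∀ l, β (v l) = u l := by
  classical
  choose c hc using hspan
  have huniq : ∀ (w : AA ⊗[k] Ω) (ω : Fin m → Ω), w = ∑ l, v l * (1 ⊗ₜ[k] ω l) → ω = c w := by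
    intro w ω hw
    funext l
    have h1 : ∑ l, v l * (1 ⊗ₜ[k] (ω l - c w l)) = 0 := by
      simp only [TensorProduct.tmul_sub, mul_sub, Finset.sum_sub_distrib]
      rw [← hw, ← hc w, sub_self]
    exact sub_eq_zero.1 (hind _ h1 l)
  have hadd : ∀ w w', c (w + w') = c w + c w' := by
    intro w w'
    symm
    apply huniq
    simp only [Pi.add_apply, TensorProduct.tmul_add, mul_add, Finset.sum_add_distrib]
    rw [← hc w, ← hc w']
  have hmul : ∀ (w : AA ⊗[k] Ω) (ω : Ω), c (w * (1 ⊗ₜ[k] ω)) = fun l => c w l * ω := by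
    intro w ω
    symm
    apply huniq
    simp only [one_tmul_mul, ← mul_assoc]
    rw [← Finset.sum_mul, ← hc w]
  have hv : ∀ l, c (v l) = Pi.single l 1 := by
    intro l
    symm
    apply huniq
    rw [Finset.sum_eq_single l]
    · rw [Pi.single_eq_same, ← Algebra.TensorProduct.one_def, mul_one]
    · intro b _ hb
      rw [Pi.single_eq_of_ne hb, TensorProduct.tmul_zero, mul_zero]
    · intro h
      exact absurd (Finset.mem_univ l) h
  let β : AA ⊗[k] Ω →ₗ[k] AA ⊗[k] Ω :=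
    { toFun := fun w => ∑ l, u l * (1 ⊗ₜ[k] c w l)
      map_add' := fun w w' => by
        simp only [hadd, Pi.add_apply, TensorProduct.tmul_add, mul_add, Finset.sum_add_distrib]
      map_smul' := fun a w => by
        rw [RingHom.id_apply, smul_eq_mul a w, smul_eq_mul a, hmul]
        simp only [one_tmul_mul, ← mul_assoc]
        rw [Finset.sum_mul] }
  refine ⟨β, ?_, ?_⟩
  · intro w ω
    show ∑ l, u l * (1 ⊗ₜ[k] c (w * (1 ⊗ₜ[k] ω)) l) = (∑ l, u l * (1 ⊗ₜ[k] c w l)) * _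
    rw [hmul, Finset.sum_mul]
    simp only [one_tmul_mul, ← mul_assoc]
  · intro l
    show ∑ l', u l' * (1 ⊗ₜ[k] c (v l) l') = u l
    rw [hv, Finset.sum_eq_single l]
    · rw [Pi.single_eq_same, ← Algebra.TensorProduct.one_def, mul_one]
    · intro b _ hb
      rw [Pi.single_eq_of_ne hb, TensorProduct.tmul_zero, mul_zero]
    · intro h
      exact absurd (Finset.mem_univ l) h

end Lin

section Psi

variable {k : Type u} {H Z Q : Type v} [Field k] [Ring H] [HopfAlgebra k H] [Field Z] [Algebra k Z]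
  [DivisionRing Q] [Algebra k Q] [Algebra Z Q] [IsScalarTower k Z Q] {ι : H →ₐ[k] Q}
  {AA : Type w} {P : Type v} [Ring AA] [Algebra k AA] [Field P] [Algebra k P] [Algebra Z P]
  [IsScalarTower k Z P] {ρ : H →ₗ[k] Module.End k AA} {ψ : ↥(Opp k Z ι) →ₐ[k] AA ⊗[k] P}
  {θ : (P ≃ₐ[Z] P) → (AA ≃ₐ[k] AA)}

/-- `ψ_x (z c) = ψ_x (c) (1 ⊗ x z)`. -/
theorem psi_smul (hP : CPkg k Z ι ρ ψ θ) {Ω : Type v} [Field Ω] [Algebra k Ω] (x : P →ₐ[k] Ω)
    (z : Z) (c : ↥(Opp k Z ι)) :
    xX AA x (ψ (z • c)) = xX AA x (ψ c) * (1 ⊗ₜ[k] x (algebraMap Z P z)) := by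
  rw [Algebra.smul_def, map_mul, hP.psiZ, map_mul, xX_tmul, one_tmul_comm]

theorem psi_expand (hP : CPkg k Z ι ρ ψ θ) {Ω : Type v} [Field Ω] [Algebra k Ω] (x : P →ₐ[k] Ω)
    {m : ℕ} (o : Module.Basis (Fin m) Z ↥(Opp k Z ι)) (c : ↥(Opp k Z ι)) :
    xX AA x (ψ c) = ∑ s, xX AA x (ψ (o s)) * (1 ⊗ₜ[k] x (algebraMap Z P (o.repr c s))) := by
  conv_lhs => rw [← o.sum_repr c]
  rw [map_sum, map_sum]
  exact Finset.sum_congr rfl fun s _ => psi_smul hP x _ _

theorem rX_xX {Ω : Type v} [Field Ω] [Algebra k Ω] (x : P →ₐ[k] Ω) (h : H) (v : AA ⊗[k] P) :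
    rX ρ Ω h (xX AA x v) = xX AA x (TensorProduct.map (ρ h) (LinearMap.id : P →ₗ[k] P) v) := by
  induction v using TensorProduct.induction_on with
  | zero => simp only [map_zero]
  | tmul a b => rfl
  | add x y hx hy => simp only [map_add, hx, hy]

theorem rX_psi (hP : CPkg k Z ι ρ ψ θ) {R : H →ₗ[k] Module.End Z ↥(Opp k Z ι)}
    (hR : IsRO k Z ι R) {Ω : Type v} [Field Ω] [Algebra k Ω] (x : P →ₐ[k] Ω) (h : H)
    (c : ↥(Opp k Z ι)) : rX ρ Ω h (xX AA x (ψ c)) = xX AA x (ψ (R h c)) := by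
  rw [rX_xX, hP.psiH h c (R h c) (hR.coe h c)]

theorem rX_mul {Ω : Type v} [Field Ω] [Algebra k Ω] (h : H) (v : AA ⊗[k] Ω) (ω : Ω) :
    rX ρ Ω h (v * (1 ⊗ₜ[k] ω)) = rX ρ Ω h v * (1 ⊗ₜ[k] ω) := by
  induction v using TensorProduct.induction_on with
  | zero => simp only [zero_mul, map_zero]
  | tmul a b =>
    rw [Algebra.TensorProduct.tmul_mul_tmul, rX_tmul, rX_tmul,
      Algebra.TensorProduct.tmul_mul_tmul, mul_one, mul_one]
  | add x y hx hy => simp only [add_mul, map_add, hx, hy]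

end Psi

end KTHM

open KTHM in
theorem specKTH (hRES : CO.SpecRES.{u, v}) (hPSB : SpecPSB.{u, v, w}) (hBET : SpecBET.{u, v, w})
    (hHAU : SpecHAU.{u, v, w}) (hKCL : SpecKCL.{u, v}) (hALK : SpecALK.{u, v}) :
    SpecKTH.{u, v, w} := by
  classical
  intro k H Z Q F2 R2 _ _ _ _ _ _ _ _ _ _ _ _ _ _ _ _ _ _ ι jF j D sQ sZ m o r AA P _ _ _ _ _ _
    ρ ψ θ hQ hR hS hsQ hr hP Ω _ _ κ x y hκ xh yh hxh hyh
  obtain ⟨R, hRO⟩ := hRES k H Z Q ι hQ
  obtain ⟨hK1, -⟩ := hKCL k H Z Q F2 R2 ι jF j D hQ hR hS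
  obtain ⟨hyi, hys⟩ := hPSB k H Z Q ι AA P ρ ψ θ hQ hP Ω yh m o
  let al : Fin m → ↥(Opp k Z ι) → Ω := fun i c => κ ⟨j (r i c), hK1 _ (hr.mem i c)⟩
  obtain ⟨hadd, hzmul, hmul, hone, hact⟩ := hALK k H Z Q F2 R2 ι jF j D sQ sZ R m o r hQ hR hsQ
    hRO hr Ω κ x y hκ hK1 al (fun i c h => rfl)
  -- `B c = ∑ ψ_x(o_i) (1 ⊗ al_i(c))`
  let B : ↥(Opp k Z ι) → AA ⊗[k] Ω := fun c => ∑ i, xX AA xh (ψ (o i)) * (1 ⊗ₜ[k] al i c)
  have hB : ∀ c, B c = ∑ i, xX AA xh (ψ (o i)) * (1 ⊗ₜ[k] al i c) := fun c => rfl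
  have hxexp : ∀ c, xX AA xh (ψ c) =
      ∑ s, xX AA xh (ψ (o s)) * (1 ⊗ₜ[k] x (o.repr c s)) := by
    intro c
    rw [psi_expand hP xh o c]
    simp only [hxh]
  obtain ⟨β, hβΩ, hβv⟩ := exists_lin (fun l => xX AA yh (ψ (o l))) (fun l => B (o l)) hyi hys
  have hBadd : ∀ c c', B (c + c') = B c + B c' := by
    intro c c'
    simp only [hB, hadd, TensorProduct.tmul_add, mul_add, Finset.sum_add_distrib]
  have hBsmul : ∀ (z : Z) c, B (z • c) = B c * (1 ⊗ₜ[k] y (sZ z)) := by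
    intro z c
    rw [hB, hB, Finset.sum_mul]
    refine Finset.sum_congr rfl fun i _ => ?_
    rw [hzmul, mul_comm, one_tmul_mul, mul_assoc]
  have hBsum : ∀ (s : Finset (Fin m)) (f : Fin m → ↥(Opp k Z ι)),
      B (∑ i ∈ s, f i) = ∑ i ∈ s, B (f i) := by
    intro s f
    induction s using Finset.induction_on with
    | empty =>
      rw [Finset.sum_empty, Finset.sum_empty]
      have := hBsmul 0 0
      rw [zero_smul, map_zero, map_zero, TensorProduct.tmul_zero, mul_zero] at this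
      exact this
    | insert a s ha ih => rw [Finset.sum_insert ha, Finset.sum_insert ha, hBadd, ih]
  have hβ : ∀ c, β (xX AA yh (ψ c)) = B c := by
    intro c
    rw [psi_expand hP yh o c, map_sum]
    conv_rhs => rw [← o.sum_repr c]
    rw [hBsum]
    refine Finset.sum_congr rfl fun s _ => ?_
    rw [hβΩ, hBsmul, hβv, hyh]
  -- multiplicativity
  have hBmul : ∀ c c', B (c * c') = B c * B c' := by
    intro c c'
    have e1 : B (c * c') = ∑ a, ∑ b, ∑ s, xX AA xh (ψ (o s)) *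
        (1 ⊗ₜ[k] (x (o.repr (o a * o b) s) * (al a c * al b c'))) := by
      rw [hB]
      simp only [hmul, TensorProduct.tmul_sum, Finset.mul_sum]
      rw [Finset.sum_comm]
      refine Finset.sum_congr rfl fun a _ => ?_
      rw [Finset.sum_comm]
    have e2 : B c * B c' = ∑ a, ∑ b, (xX AA xh (ψ (o a)) * (1 ⊗ₜ[k] al a c)) *
        (xX AA xh (ψ (o b)) * (1 ⊗ₜ[k] al b c')) := by
      rw [hB, hB, Finset.sum_mul_sum]
    rw [e1, e2]
    refine Finset.sum_congr rfl fun a _ => Finset.sum_congr rfl fun b _ => ?_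
    have e3 : (xX AA xh (ψ (o a)) * (1 ⊗ₜ[k] al a c)) * (xX AA xh (ψ (o b)) * (1 ⊗ₜ[k] al b c')) =
        xX AA xh (ψ (o a * o b)) * (1 ⊗ₜ[k] (al a c * al b c')) := by
      rw [map_mul, map_mul, one_tmul_mul, mul_assoc, ← mul_assoc (1 ⊗ₜ[k] al a c),
        one_tmul_comm, mul_assoc, mul_assoc]
    rw [e3, hxexp, Finset.sum_mul]
    refine Finset.sum_congr rfl fun s _ => ?_
    rw [one_tmul_mul, mul_assoc]
  have hβmul : ∀ v v', β (v * v') = β v * β v' := by
    intro v v'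
    obtain ⟨ω, hω⟩ := hys v
    obtain ⟨ω', hω'⟩ := hys v'
    have e0 : ∀ a b, (xX AA yh (ψ (o a)) * (1 ⊗ₜ[k] ω a)) * (xX AA yh (ψ (o b)) * (1 ⊗ₜ[k] ω' b)) =
        xX AA yh (ψ (o a * o b)) * (1 ⊗ₜ[k] (ω a * ω' b)) := by
      intro a b
      rw [map_mul, map_mul, one_tmul_mul, mul_assoc, ← mul_assoc (1 ⊗ₜ[k] ω a),
        one_tmul_comm, mul_assoc, mul_assoc]
    have e1 : ∀ a b, (β (xX AA yh (ψ (o a))) * (1 ⊗ₜ[k] ω a)) *
        (β (xX AA yh (ψ (o b))) * (1 ⊗ₜ[k] ω' b)) =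
        B (o a * o b) * (1 ⊗ₜ[k] (ω a * ω' b)) := by
      intro a b
      rw [hβ, hβ, hBmul, one_tmul_mul, mul_assoc, ← mul_assoc (1 ⊗ₜ[k] ω a),
        one_tmul_comm, mul_assoc, mul_assoc]
    rw [hω, hω', Finset.sum_mul_sum, map_sum, map_sum, map_sum, Finset.sum_mul_sum]
    refine Finset.sum_congr rfl fun a _ => ?_
    rw [map_sum]
    refine Finset.sum_congr rfl fun b _ => ?_
    rw [e0, hβΩ, hβΩ, hβΩ, e1, hβ]
  have hβone : β 1 = 1 := by
    have h1 : (1 : AA ⊗[k] Ω) = xX AA yh (ψ 1) := by rw [map_one, map_one]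
    have h2 : xX AA xh (ψ 1) = 1 := by rw [map_one, map_one]
    conv_lhs => rw [h1]
    rw [hβ, hB]
    simp only [hone]
    rw [← hxexp, h2]
  have hBact : ∀ h c, B (R h c) = rX ρ Ω h (B c) := by
    intro h c
    have e1 : B (R h c) = ∑ t, ∑ s, xX AA xh (ψ (o s)) *
        (1 ⊗ₜ[k] (x (o.repr (R h (o t)) s) * al t c)) := by
      rw [hB]
      simp only [hact, TensorProduct.tmul_sum, Finset.mul_sum]
      rw [Finset.sum_comm]
    rw [e1, hB, map_sum]
    refine Finset.sum_congr rfl fun t _ => ?_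
    rw [rX_mul, rX_psi hP hRO, hxexp (R h (o t)), Finset.sum_mul]
    refine Finset.sum_congr rfl fun s _ => ?_
    rw [one_tmul_mul, mul_assoc]
  have hβact : ∀ (h : H) v, β (rX ρ Ω h v) = rX ρ Ω h (β v) := by
    intro h v
    obtain ⟨ω, hω⟩ := hys v
    rw [hω]
    simp only [map_sum]
    refine Finset.sum_congr rfl fun a _ => ?_
    rw [rX_mul, rX_psi hP hRO, hβΩ, hβΩ, rX_mul, hβ, hβ, hBact]
  obtain ⟨e, heH, he⟩ := hBET k H Z Q ι AA P ρ ψ θ hQ hP Ω β hβΩ hβmul hβone hβact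
  have : Module.Finite Z P := hP.finP
  let _ : Fintype (P ≃ₐ[Z] P) := Fintype.ofFinite _
  obtain ⟨-, -, haut⟩ := hHAU k H Z Q ι AA P ρ ψ θ hQ hP
  obtain ⟨γ, hγ⟩ := haut e heH
  refine ⟨γ, fun c al' hal' => ?_⟩
  have h1 : ∀ i, al' i = al i c := fun i => hal' i _
  have h2 : e = (θ γ : AA →ₐ[k] AA) := AlgHom.ext hγ
  simp only [h1]
  rw [← h2, ← he, hβ]

end Pool.Agent.Lib.MP_c37a72_al.KC
end

section
/-!
# MP_c37a72_al, block KC, module MIN: joint injectivity of the `Nm x y θ_γ`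
-/
set_option autoImplicit false

open scoped TensorProduct
open Coalgebra HopfAlgebra
open Pool.Agent.Lib.MP_c37a72_al.EG Pool.Agent.Lib.MP_c37a72_al.CO Pool.Agent.Lib.MP_c37a72_al.LB

namespace Pool.Agent.Lib.MP_c37a72_al.KC

universe u v w

namespace MINM

section Phi

variable (k : Type u) {Z O : Type v} [Field k] [Field Z] [Algebra k Z] [Ring O] [Algebra k O]
  [Algebra Z O] [IsScalarTower k Z O] {N : ℕ} (s : Module.Basis (Fin N) Z O)

/-- The coordinates of `O ⊗ O` over `Z ⊗ Z`. -/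
noncomputable def phi : (Fin N × Fin N →₀ Z ⊗[k] Z) ≃ₗ[k] O ⊗[k] O :=
  (finsuppTensorFinsupp k k Z Z (Fin N) (Fin N)).symm.trans
    (TensorProduct.congr (s.repr.symm.restrictScalars k) (s.repr.symm.restrictScalars k))

theorem phi_single (p : Fin N × Fin N) (a b : Z) :
    phi k s (Finsupp.single p (a ⊗ₜ[k] b)) = (a • s p.1) ⊗ₜ[k] (b • s p.2) := by
  obtain ⟨i, j⟩ := p
  rw [phi, LinearEquiv.trans_apply, finsuppTensorFinsupp_symm_single, TensorProduct.congr_tmul]
  congr 1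
  · rw [LinearEquiv.restrictScalars_apply, Module.Basis.repr_symm_single]
  · rw [LinearEquiv.restrictScalars_apply, Module.Basis.repr_symm_single]

end Phi

theorem central {k : Type u} {AA : Type w} {Ω : Type v} [Field k] [Ring AA] [Algebra k AA]
    [Field Ω] [Algebra k Ω] (ω : Ω) (v : AA ⊗[k] Ω) :
    (1 ⊗ₜ[k] ω) * v = v * (1 ⊗ₜ[k] ω) := by
  induction v using TensorProduct.induction_on with
  | zero => rw [mul_zero, zero_mul]
  | tmul a b => rw [Algebra.TensorProduct.tmul_mul_tmul, Algebra.TensorProduct.tmul_mul_tmul,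
      one_mul, mul_one, mul_comm]
  | add a b ha hb => rw [mul_add, add_mul, ha, hb]

end MINM

open MINM in
theorem specMIN (hHAU : SpecHAU.{u, v, w}) (hJNI : SpecJNI.{u, v, w}) (hPSB : SpecPSB.{u, v, w}) :
    SpecMIN.{u, v, w} := by
  intro k H Z Q _ _ _ _ _ _ _ _ _ _ _ ι AA P _ _ _ _ _ _ ρ ψ θ hQ hC Ω _ _ x y i hi hxy w hw
  have hfP := hC.finP
  have hFin : Finite (P ≃ₐ[Z] P) := inferInstance
  let _ : Fintype (P ≃ₐ[Z] P) := Fintype.ofFinite _
  obtain ⟨h1, h2, -⟩ := hHAU k H Z Q ι AA P ρ ψ θ hQ hC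
  have hfQ := hQ.fin
  have hfO : Module.Finite Z ↥(Opp k Z ι) :=
    Module.Finite.of_injective ((Opp k Z ι).val.toLinearMap) Subtype.val_injective
  let o := Module.finBasis Z ↥(Opp k Z ι)
  obtain ⟨f, rfl⟩ := (phi k o).surjective w
  -- the value on a coordinate vector
  have hψ : ∀ (z : Z) (c : ↥(Opp k Z ι)), ψ (z • c) = (1 ⊗ₜ[k] algebraMap Z P z) * ψ c := by
    intro z c
    rw [Algebra.smul_def, map_mul, hC.psiZ]
  have hval : ∀ (γ : P ≃ₐ[Z] P) (q : Fin _ × Fin _) (r : Z ⊗[k] Z),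
      Nm k Z ι ψ x y (θ γ : AA →ₐ[k] AA) (phi k o (Finsupp.single q r)) =
        eX Ω (θ γ : AA →ₐ[k] AA) (xX AA y (ψ (o q.2))) * xX AA x (ψ (o q.1)) *
          (1 ⊗ₜ[k] i r) := by
    intro γ q r
    induction r using TensorProduct.induction_on with
    | zero => simp
    | add r₁ r₂ hr₁ hr₂ =>
      rw [Finsupp.single_add, map_add, map_add, hr₁, hr₂, map_add, TensorProduct.tmul_add, mul_add]
    | tmul a b =>
      rw [phi_single, Nm_tmul, hψ, hψ, map_mul, map_mul, map_mul, xX_tmul, xX_tmul, eX_tmul,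
        map_one, hxy]
      have h3 : (1 : AA) ⊗ₜ[k] (x (algebraMap Z P a) * y (algebraMap Z P b)) =
          ((1 : AA) ⊗ₜ[k] x (algebraMap Z P a)) * ((1 : AA) ⊗ₜ[k] y (algebraMap Z P b)) := by
        rw [Algebra.TensorProduct.tmul_mul_tmul, one_mul]
      rw [h3, central (y (algebraMap Z P b)), central (x (algebraMap Z P a))]
      rw [mul_assoc, ← mul_assoc ((1 : AA) ⊗ₜ[k] y (algebraMap Z P b)), central]
      simp only [mul_assoc]
      rw [central (x (algebraMap Z P a))]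
  have hsum : ∀ γ : P ≃ₐ[Z] P, ∑ l, ∑ p, eX Ω (θ γ : AA →ₐ[k] AA) (xX AA y (ψ (o l))) *
      xX AA x (ψ (o p)) * (1 ⊗ₜ[k] i (f (p, l))) = 0 := by
    intro γ
    have h3 := hw γ
    have h4 : f = ∑ q, Finsupp.single q (f q) := (Finsupp.univ_sum_single f).symm
    rw [h4, map_sum, map_sum] at h3
    rw [Finset.sum_congr rfl (fun q _ => hval γ q (f q)), Fintype.sum_prod_type,
      Finset.sum_comm] at h3
    exact h3
  have hz := hJNI k P Z Ω AA θ h1 h2 _ (fun l => xX AA y (ψ (o l))) (fun p => xX AA x (ψ (o p)))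
    (hPSB k H Z Q ι AA P ρ ψ θ hQ hC Ω y _ o).1 (hPSB k H Z Q ι AA P ρ ψ θ hQ hC Ω x _ o).1
    (fun l p => i (f (p, l))) hsum
  have hf : f = 0 := by
    ext q
    have h3 := hz q.2 q.1
    have h4 : f q = 0 := hi (by rw [map_zero]; exact h3)
    rw [h4]
    rfl
  rw [hf, map_zero]

end Pool.Agent.Lib.MP_c37a72_al.KC
end

section
/-!
# MP_c37a72_al, block KC, module THG: `θ` is an antihomomorphism, and `A^θ = k`
-/
set_option autoImplicit false

open scoped TensorProduct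
open Coalgebra HopfAlgebra
open Pool.Agent.Lib.MP_c37a72_al.EG Pool.Agent.Lib.MP_c37a72_al.CO Pool.Agent.Lib.MP_c37a72_al.LB

namespace Pool.Agent.Lib.MP_c37a72_al.KC

universe u v w

namespace THGM

open COOM

section

variable {k : Type u} {Z : Type v} {H Q : Type v} [Field k] [Ring H] [HopfAlgebra k H]
  [Field Z] [Algebra k Z] [DivisionRing Q] [Algebra k Q] [Algebra Z Q] [IsScalarTower k Z Q]
  {ι : H →ₐ[k] Q} {AA : Type w} {P : Type v} [Ring AA] [Algebra k AA] [Field P] [Algebra k P]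
  [Algebra Z P] [IsScalarTower k Z P] {ρ : H →ₗ[k] Module.End k AA}
  {ψ : ↥(Opp k Z ι) →ₐ[k] AA ⊗[k] P} {θ : (P ≃ₐ[Z] P) → (AA ≃ₐ[k] AA)}

omit [IsScalarTower k Z P] [Algebra Z P] in
theorem tmul_one_inj {a b : AA} (h : a ⊗ₜ[k] (1 : P) = b ⊗ₜ[k] (1 : P)) : a = b :=
  Algebra.TensorProduct.includeLeft_injective (R := k) (S := k) (A := AA) (B := P)
    (FaithfulSMul.algebraMap_injective k P) h

/-- two algebra homomorphisms which agree on `ψ(O'')` and on `1 ⊗ P` are equal -/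
theorem ext_psi (hc : CPkg k Z ι ρ ψ θ) {C : Type*} [Ring C] [Algebra k C]
    {f g : AA ⊗[k] P →ₐ[k] C} (h1 : ∀ x, f (ψ x) = g (ψ x))
    (h2 : ∀ p : P, f (1 ⊗ₜ[k] p) = g (1 ⊗ₜ[k] p)) (y : AA ⊗[k] P) : f y = g y := by
  have hy : y ∈ Submodule.span k {y : AA ⊗[k] P | ∃ x p, y = ψ x * (1 ⊗ₜ[k] p)} := by
    rw [hc.span]; exact Submodule.mem_top
  induction hy using Submodule.span_induction with
  | mem y h =>
    obtain ⟨x, p, rfl⟩ := h
    rw [map_mul, map_mul, h1, h2]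
  | zero => simp
  | add x y _ _ hx hy => rw [map_add, map_add, hx, hy]
  | smul c x _ hx => rw [map_smul, map_smul, hx]

/-- uniqueness of the coordinates in the `P`-basis `ψ(X i)` -/
theorem uniq (hc : CPkg k Z ι ρ ψ θ) {m : ℕ} (B : Module.Basis (Fin m) k AA)
    (X : Module.Basis (Fin m) Z ↥(Opp k Z ι)) {q q' : Fin m → P}
    (h : ∑ i, ψ (X i) * (1 ⊗ₜ[k] q i) = ∑ i, ψ (X i) * (1 ⊗ₜ[k] q' i)) : q = q' := by
  obtain ⟨D, -, hD⟩ := exists_inv hc B X
  have e : Matrix.mulVec (CM ψ B X) q = Matrix.mulVec (CM ψ B X) q' := by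
    ext l
    have e1 := congrArg (cf (B.coord l)) h
    simp only [map_sum, cf_mul] at e1
    exact e1
  have e2 := congrArg (Matrix.mulVec D) e
  rwa [Matrix.mulVec_mulVec, Matrix.mulVec_mulVec, hD, Matrix.one_mulVec, Matrix.one_mulVec] at e2

/-- existence of the coordinates in the `P`-basis `ψ(X i)` -/
theorem exi (hc : CPkg k Z ι ρ ψ θ) {m : ℕ} (B : Module.Basis (Fin m) k AA)
    (X : Module.Basis (Fin m) Z ↥(Opp k Z ι)) (y : AA ⊗[k] P) :
    ∃ q : Fin m → P, y = ∑ i, ψ (X i) * (1 ⊗ₜ[k] q i) := by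
  obtain ⟨D, hD, -⟩ := exists_inv hc B X
  refine ⟨Matrix.mulVec D fun l => cf (B.coord l) y, ?_⟩
  apply cf_inj B
  intro l
  rw [map_sum]
  simp only [cf_mul]
  have e : Matrix.mulVec (CM ψ B X) (Matrix.mulVec D fun l => cf (B.coord l) y) =
      fun l => cf (B.coord l) y := by
    rw [Matrix.mulVec_mulVec, hD, Matrix.one_mulVec]
  exact (congrFun e l).symm

end

end THGM

open COOM in
/-- **THG** -/
theorem specTHG : SpecTHG.{u, v, w} := by
  intro k H Z Q _ _ _ _ _ _ _ _ _ _ ι AA P _ _ _ _ _ _ ρ ψ θ hQ hC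
  obtain ⟨m, -, ⟨B⟩, ⟨X⟩⟩ := exists_bases hQ hC
  have hpi : Function.Injective ψ := psi_inj hC B X
  have hfinP : Module.Finite Z P := hC.finP
  have hgal : IsGalois Z P := hC.gal
  have hfinA : Module.Finite k AA := hC.finA
  refine ⟨?_, ?_, ?_⟩
  · intro a
    apply THGM.tmul_one_inj (k := k) (P := P)
    have e : ∀ y : AA ⊗[k] P,
        Algebra.TensorProduct.map ((θ 1).toAlgHom) (AlgHom.id k P) y = y := by
      intro y
      refine THGM.ext_psi hC (g := AlgHom.id k (AA ⊗[k] P)) ?_ ?_ y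
      · intro x
        rw [← hC.thP 1 x]
        have e1 : Algebra.TensorProduct.map (AlgHom.id k AA)
            (((1 : P ≃ₐ[Z] P).toAlgHom).restrictScalars k) = AlgHom.id k (AA ⊗[k] P) := by
          ext p
          · rfl
          · rfl
        rw [e1]
      · intro p
        simp
    have := e (a ⊗ₜ[k] 1)
    simpa using this
  · intro γ γ' a
    apply THGM.tmul_one_inj (k := k) (P := P)
    have e : ∀ y : AA ⊗[k] P,
        Algebra.TensorProduct.map ((θ (γ' * γ)).toAlgHom) (AlgHom.id k P) y =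
          Algebra.TensorProduct.map (((θ γ).toAlgHom).comp (θ γ').toAlgHom) (AlgHom.id k P) y := by
      intro y
      refine THGM.ext_psi hC ?_ ?_ y
      · intro x
        rw [← hC.thP (γ' * γ) x]
        have e1 : ∀ w : AA ⊗[k] P, Algebra.TensorProduct.map (AlgHom.id k AA)
            (((γ' * γ : P ≃ₐ[Z] P).toAlgHom).restrictScalars k) w =
            Algebra.TensorProduct.map (AlgHom.id k AA) ((γ'.toAlgHom).restrictScalars k)
              (Algebra.TensorProduct.map (AlgHom.id k AA) ((γ.toAlgHom).restrictScalars k) w) := by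
          intro w
          induction w using TensorProduct.induction_on with
          | zero => simp
          | tmul b q => rfl
          | add x y hx hy => rw [map_add, hx, hy, map_add, map_add]
        have e2 : ∀ w : AA ⊗[k] P, Algebra.TensorProduct.map (AlgHom.id k AA)
            ((γ'.toAlgHom).restrictScalars k)
              (Algebra.TensorProduct.map ((θ γ).toAlgHom) (AlgHom.id k P) w) =
            Algebra.TensorProduct.map ((θ γ).toAlgHom) (AlgHom.id k P)
              (Algebra.TensorProduct.map (AlgHom.id k AA) ((γ'.toAlgHom).restrictScalars k) w) := by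
          intro w
          induction w using TensorProduct.induction_on with
          | zero => simp
          | tmul b q => rfl
          | add x y hx hy => simp only [map_add, hx, hy]
        have e3 : ∀ w : AA ⊗[k] P,
            Algebra.TensorProduct.map ((θ γ).toAlgHom) (AlgHom.id k P)
              (Algebra.TensorProduct.map ((θ γ').toAlgHom) (AlgHom.id k P) w) =
            Algebra.TensorProduct.map (((θ γ).toAlgHom).comp (θ γ').toAlgHom)
              (AlgHom.id k P) w := by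
          intro w
          induction w using TensorProduct.induction_on with
          | zero => simp
          | tmul b q => rfl
          | add x y hx hy => simp only [map_add, hx, hy]
        rw [e1, hC.thP γ x, e2, hC.thP γ' x, e3]
      · intro p
        simp
    have := e (a ⊗ₜ[k] 1)
    simpa using this
  · intro a ha
    obtain ⟨q, hq⟩ := THGM.exi hC B X (a ⊗ₜ[k] (1 : P))
    have hfix : ∀ (i : Fin m) (γ : P ≃ₐ[Z] P), γ (q i) = q i := by
      intro i γ
      have e1 := congrArg (Algebra.TensorProduct.map (AlgHom.id k AA)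
        ((γ.toAlgHom).restrictScalars k)) hq
      rw [map_sum] at e1
      simp only [map_mul, hC.thP γ] at e1
      have e2 := congrArg (Algebra.TensorProduct.map ((θ γ).symm.toAlgHom) (AlgHom.id k P)) e1
      have e3 : ∀ w : AA ⊗[k] P,
          Algebra.TensorProduct.map ((θ γ).symm.toAlgHom) (AlgHom.id k P)
            (Algebra.TensorProduct.map ((θ γ).toAlgHom) (AlgHom.id k P) w) = w := by
        intro w
        induction w using TensorProduct.induction_on with
        | zero => simp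
        | tmul b q =>
          show (θ γ).symm (θ γ b) ⊗ₜ[k] q = b ⊗ₜ[k] q
          rw [AlgEquiv.symm_apply_apply]
        | add x y hx hy => simp only [map_add, hx, hy]
      rw [map_sum] at e2
      simp only [map_mul, e3] at e2
      have e4 : Algebra.TensorProduct.map ((θ γ).symm.toAlgHom) (AlgHom.id k P)
          (Algebra.TensorProduct.map (AlgHom.id k AA) ((γ.toAlgHom).restrictScalars k)
            (a ⊗ₜ[k] (1 : P))) = a ⊗ₜ[k] (1 : P) := by
        show (θ γ).symm a ⊗ₜ[k] (γ (1 : P)) = a ⊗ₜ[k] (1 : P)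
        rw [map_one]
        congr 1
        rw [AlgEquiv.symm_apply_eq]
        exact (ha γ).symm
      have e5 : ∀ j, Algebra.TensorProduct.map ((θ γ).symm.toAlgHom) (AlgHom.id k P)
          (Algebra.TensorProduct.map (AlgHom.id k AA) ((γ.toAlgHom).restrictScalars k)
            ((1 : AA) ⊗ₜ[k] q j)) = (1 : AA) ⊗ₜ[k] γ (q j) := by
        intro j
        show (θ γ).symm (1 : AA) ⊗ₜ[k] (γ (q j)) = (1 : AA) ⊗ₜ[k] γ (q j)
        rw [map_one]
      rw [e4] at e2
      simp only [e5] at e2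
      have e6 := THGM.uniq hC B X (q := fun i => γ (q i)) (q' := q) (e2.symm.trans hq)
      exact congrFun e6 i
    have hz : ∀ i, ∃ z : Z, algebraMap Z P z = q i := fun i =>
      (IsGalois.mem_range_algebraMap_iff_fixed (q i)).2 (hfix i)
    choose z hz using hz
    have hx : ψ (∑ i, z i • X i) = a ⊗ₜ[k] (1 : P) := by
      rw [hq, map_sum]
      exact Finset.sum_congr rfl fun i _ => by rw [psi_smul hC, hz]
    set x : ↥(Opp k Z ι) := ∑ i, z i • X i with hxdef
    have hia : IsIntegral k a := Algebra.IsIntegral.isIntegral a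
    have hia1 : IsIntegral k (a ⊗ₜ[k] (1 : P)) :=
      hia.map (Algebra.TensorProduct.includeLeft : AA →ₐ[k] AA ⊗[k] P)
    have hix : IsIntegral k x := by
      rw [← isIntegral_algHom_iff ψ hpi, hx]
      exact hia1
    have hixQ : IsIntegral k (x : Q) := hix.map ((Opp k Z ι).val.restrictScalars k)
    obtain ⟨c, hc⟩ := minpoly.mem_range_of_degree_eq_one k (x : Q)
      (IsAlgClosed.degree_eq_one_of_irreducible k (minpoly.irreducible hixQ))
    refine ⟨c, ?_⟩
    apply THGM.tmul_one_inj (k := k) (P := P)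
    have hxc : x = algebraMap k ↥(Opp k Z ι) c := Subtype.ext hc.symm
    rw [← hx, hxc, AlgHom.commutes]
    rfl

end Pool.Agent.Lib.MP_c37a72_al.KC
end
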