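import Pool.Agent.Lib.MP_c37a72_al.LB.TAL
import Pool.Agent.Lib.MP_c37a72_al.LB.Spec
import Pool.Agent.Lib.MP_c37a72_al.KTK
import Pool.Agent.Lib.MP_c37a72_al.EG.ADA
import Pool.Agent.Lib.MP_c37a72_al.EG.ADB
import Pool.Agent.Lib.MP_c37a72_al.EG.NUA
import Pool.Agent.Lib.MP_c37a72_al.LB.JD
import Pool.Agent.Lib.MP_c37a72_al.NI.NIS
import Pool.Agent.Lib.MP_c37a72_al.LB.R2S
import Pool.Agent.Lib.MP_c37a72_al.LB.MIS
import Pool.Agent.Lib.MP_c37a72_al.LB.BIF
import Pool.Agent.Lib.MP_c37a72_al.LB.RTL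
import Pool.Agent.Lib.MP_c37a72_al.LB.RTR
import Pool.Agent.Lib.MP_c37a72_al.KC.THG
import Pool.Agent.Lib.MP_c37a72_al.NR.IDA
import Pool.Agent.Lib.MP_c37a72_al.KC.RCT
import Pool.Agent.Lib.MP_c37a72_al.KC.MGM
import Pool.Agent.Lib.MP_c37a72_al.KC.KDT
import Pool.Agent.Lib.MP_c37a72_al.KC.DCD
import Pool.Agent.Lib.MP_c37a72_al.KC.KCA
import Pool.Agent.Lib.MP_c37a72_al.CO.All

section
/-!
# MP_c37a72_al, block LB: module TAR (mirror of TAL)
-/
set_option autoImplicit false

open scoped TensorProduct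
open Coalgebra HopfAlgebra

namespace Pool.Agent.Lib.MP_c37a72_al.LB

universe u v w

open TALM in
theorem specTAR : SpecTAR.{u, v} := by
  intro k H Z Q F2 R2 _ _ _ _ _ _ _ _ _ _ _ _ _ _ _ _ ι jF j D hQ hR n f T hT
  have := hQ.fin
  have := hR.cl.finite_iZ hR.frc
  obtain ⟨τ, hτ'⟩ := exists_tau (isFrc_flip hR.frc) (isCL_flip hR.cl) n T
  have hτ : ∀ (a b : Q) (p l : Fin n), τ (j (a ⊗ₜ b)) p l = j (a ⊗ₜ T b p l) := fun a b p l =>
    hτ' b a p l
  refine ⟨τ, hτ, ?_⟩
  obtain ⟨jZ, hjZ⟩ := exists_jZ hQ (fun c hc q => REGM.cent_image hQ hc q)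
  have key : (τ.comp D) = (D.mapMatrix).comp T := by
    refine (isCL_H hQ hjZ).hom_ext (isFrc_jZ hQ hjZ) (fun h => ?_)
    ext p l
    show τ (D (ι h)) p l = D (T (ι h) p l)
    rw [hR.D_ι, T_eqR hT]
    have h1 : ∀ w : Q ⊗[k] Q, τ (j w) p l =
        j (LinearMap.lTensor Q (Matrix.entryLinearMap k Q p l ∘ₗ T.toLinearMap) w) := by
      intro w
      induction w using TensorProduct.induction_on with
      | zero => simp
      | add x y hx hy => simp only [map_add, Matrix.add_apply, hx, hy]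
      | tmul a b => rw [hτ]; rfl
    rw [h1, dQ_apply]
    have h2 : LinearMap.lTensor Q (Matrix.entryLinearMap k Q p l ∘ₗ T.toLinearMap)
        (TensorProduct.map ι.toLinearMap ι.toLinearMap (comul (R := k) h)) =
        TensorProduct.map ι.toLinearMap (phR ι f p l)
          (LinearMap.lTensor H (comul (R := k)) (comul (R := k) h)) := by
      generalize comul (R := k) h = u
      induction u using TensorProduct.induction_on with
      | zero => simp
      | add x y hx hy => simp only [map_add, hx, hy]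
      | tmul a b =>
        rw [TensorProduct.map_tmul, LinearMap.lTensor_tmul, LinearMap.lTensor_tmul,
          TensorProduct.map_tmul, ← T_eqR hT]
        rfl
    rw [h2, ← Coalgebra.coassoc_apply, asR]
    generalize comul (R := k) h = u
    induction u using TensorProduct.induction_on with
    | zero => simp
    | add x y hx hy => simp only [map_add, hx, hy]
    | tmul a b =>
      rw [LinearMap.rTensor_tmul, gtR_tmul, phR_tmul, map_smul, map_smul, hR.D_ι, dQ_apply]
  intro q p l
  have h3 := congrArg (fun g : Q →ₐ[k] Matrix (Fin n) (Fin n) R2 => g q p l) key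
  exact h3

end Pool.Agent.Lib.MP_c37a72_al.LB
end

section
/-!
# MP_c37a72_al, block LB, module TEL: `Q → M_n(Q)` for a representation of `H`, left version

`T₀ = (f ⊗ ι) Δ : H → M_n(k) ⊗ Q = M_n(Q)`. For `0 ≠ c ∈ Z(H)` the element `(f ⊗ id)(Δ c)` is right
regular on `M_n(k) ⊗ H` (`REGM.right_reg` for the homomorphism `f`), hence `T₀ c` on `M_n(k) ⊗ Q` (clear
central denominators), and `M_n(Q)` is finite over `Z`.
-/
set_option autoImplicit false

open scoped TensorProduct
open Coalgebra HopfAlgebra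

namespace Pool.Agent.Lib.MP_c37a72_al.LB

universe u v w

namespace TELM

section

variable {k : Type u} {H Z Q : Type v} [Field k] [Ring H] [IsDomain H] [HopfAlgebra k H]
  [Field Z] [Algebra k Z] [DivisionRing Q] [Algebra k Q] [Algebra Z Q] [IsScalarTower k Z Q]
  {ι : H →ₐ[k] Q}

/-- common denominators in the second factor -/
theorem den (hQ : IsCQ k H Z Q ι) {M : Type*} [Ring M] [Algebra k M] (w : M ⊗[k] Q) :
    ∃ z : H, z ≠ 0 ∧ Cent z ∧ ∃ v : M ⊗[k] H,
      (1 ⊗ₜ[k] ι z) * w = ι.toLinearMap.lTensor M v := by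
  induction w using TensorProduct.induction_on with
  | zero => exact ⟨1, one_ne_zero, fun x => by rw [mul_one, one_mul], 0, by simp⟩
  | tmul a b =>
    obtain ⟨c, h, hc0, hc, hch⟩ := hQ.frac b
    refine ⟨c, hc0, hc, a ⊗ₜ h, ?_⟩
    rw [Algebra.TensorProduct.tmul_mul_tmul, hch, one_mul, LinearMap.lTensor_tmul]
    rfl
  | add s t hs ht =>
    obtain ⟨z1, h1, hz1, v1, e1⟩ := hs
    obtain ⟨z2, h2, hz2, v2, e2⟩ := ht
    refine ⟨z1 * z2, mul_ne_zero h1 h2, REGM.cent_mul hz1 hz2,
      (1 ⊗ₜ z2) * v1 + (1 ⊗ₜ z1) * v2, ?_⟩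
    have key : ∀ (z : H) (v : M ⊗[k] H), ι.toLinearMap.lTensor M ((1 ⊗ₜ z) * v) =
        (1 ⊗ₜ[k] ι z) * ι.toLinearMap.lTensor M v := by
      intro z v
      exact map_mul (Algebra.TensorProduct.map (AlgHom.id k M) ι) (1 ⊗ₜ z) v
    have e3 : ((1 : M) ⊗ₜ[k] ι (z1 * z2)) = (1 ⊗ₜ[k] ι z2) * (1 ⊗ₜ[k] ι z1) := by
      rw [Algebra.TensorProduct.tmul_mul_tmul, ← map_mul, mul_one, hz1 z2]
    have e4 : ((1 : M) ⊗ₜ[k] ι (z1 * z2)) = (1 ⊗ₜ[k] ι z1) * (1 ⊗ₜ[k] ι z2) := by
      rw [Algebra.TensorProduct.tmul_mul_tmul, ← map_mul, mul_one]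
    rw [map_add, key, key, ← e1, ← e2, mul_add, ← mul_assoc, ← mul_assoc, ← e3, ← e4]

theorem reg (hQ : IsCQ k H Z Q ι) {M : Type*} [Ring M] [Algebra k M] (f : H →ₐ[k] M) {c : H}
    (hc : c ≠ 0) (w : M ⊗[k] Q)
    (h : w * Algebra.TensorProduct.map f ι (comul (R := k) c) = 0) : w = 0 := by
  obtain ⟨z, hz0, hz, v, hv⟩ := den hQ w
  have hιz : ι z ≠ 0 := fun e => hz0 (hQ.inj (by rw [e, map_zero]))
  have h1 : ι.toLinearMap.lTensor M v * Algebra.TensorProduct.map f ι (comul (R := k) c) = 0 := by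
    rw [← hv, mul_assoc, h, mul_zero]
  have h2 : ι.toLinearMap.lTensor M (v * f.toLinearMap.rTensor H (comul (R := k) c)) = 0 := by
    have e1 := map_mul (Algebra.TensorProduct.map (AlgHom.id k M) ι) v
      (f.toLinearMap.rTensor H (comul (R := k) c))
    have e2 : (Algebra.TensorProduct.map (AlgHom.id k M) ι)
        (f.toLinearMap.rTensor H (comul (R := k) c)) =
        Algebra.TensorProduct.map f ι (comul (R := k) c) := by
      generalize comul (R := k) c = s
      induction s using TensorProduct.induction_on with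
      | zero => simp
      | tmul a b => simp
      | add s t hs ht => simp only [map_add, hs, ht]
    rw [e2] at e1
    exact e1.trans h1
  have h3 : Function.Injective (ι.toLinearMap.lTensor M) :=
    Module.Flat.lTensor_preserves_injective_linearMap _ hQ.inj
  have h4 : v * f.toLinearMap.rTensor H (comul (R := k) c) = 0 := h3 (by rw [h2, map_zero])
  have h5 : v = 0 := REGM.right_reg f hc v h4
  rw [h5, map_zero] at hv
  have h6 : ((1 : M) ⊗ₜ[k] (ι z)⁻¹) * ((1 ⊗ₜ[k] ι z) * w) = w := by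
    rw [← mul_assoc, Algebra.TensorProduct.tmul_mul_tmul, inv_mul_cancel₀ hιz, one_mul,
      ← Algebra.TensorProduct.one_def, one_mul]
  rw [← h6, hv, mul_zero]

end

/-- right regular elements of a finite-dimensional algebra are units -/
theorem isUnit_of_right_regular {F R : Type*} [Field F] [Ring R] [Algebra F R] [Module.Finite F R]
    {x : R} (hx : ∀ y, y * x = 0 → y = 0) : IsUnit x := by
  have h1 : Function.Injective (LinearMap.mulRight F x) := by
    rw [injective_iff_map_eq_zero]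
    exact fun y hy => hx y hy
  have h2 : Function.Surjective (LinearMap.mulRight F x) :=
    LinearMap.surjective_of_injective h1
  obtain ⟨y, hy⟩ := h2 1
  have hy' : y * x = 1 := hy
  refine ⟨⟨x, y, ?_, hy'⟩, rfl⟩
  have h3 : (x * y - 1) * x = 0 := by rw [sub_mul, mul_assoc, hy', one_mul, mul_one, sub_self]
  exact sub_eq_zero.1 (hx _ h3)

end TELM

open TELM in
theorem specTEL : SpecTEL.{u, v} := by
  intro k H Z Q _ _ _ _ _ _ _ _ _ _ ι hQ _ n f
  have := hQ.fin
  obtain ⟨jZ, hjZ⟩ := exists_jZ hQ (fun c hc q => REGM.cent_image hQ hc q)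
  let e := (matrixEquivTensor (Fin n) k Q).trans
    (Algebra.TensorProduct.comm k Q (Matrix (Fin n) (Fin n) k))
  let T0 : H →ₐ[k] Matrix (Fin n) (Fin n) Q :=
    e.symm.toAlgHom.comp ((Algebra.TensorProduct.map f ι).comp (Bialgebra.comulAlgHom k H))
  have hT0 : ∀ h, T0 h = e.symm (Algebra.TensorProduct.map f ι (comul (R := k) h)) := fun h => rfl
  obtain ⟨T, hT⟩ := (isCL_H hQ hjZ).exists_lift (isFrc_jZ hQ hjZ) T0 (fun c hc => by
    refine isUnit_of_right_regular (F := Z) fun y hy => ?_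
    have hc' : (c : H) ≠ 0 := fun h0 => hc (Subtype.ext h0)
    have h1 : e y * Algebra.TensorProduct.map f ι (comul (R := k) (c : H)) = 0 := by
      apply e.symm.injective
      rw [map_mul, map_zero, AlgEquiv.symm_apply_apply, ← hT0]
      exact hy
    exact e.injective (by rw [reg hQ f hc' _ h1, map_zero]))
  refine ⟨T, ⟨fun h m a b hab p q => ?_⟩⟩
  rw [hT, hT0, hab, map_sum, map_sum, Matrix.sum_apply]
  refine Finset.sum_congr rfl fun i _ => ?_
  rw [Algebra.TensorProduct.map_tmul]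
  show (matrixEquivTensor (Fin n) k Q).symm (ι (b i) ⊗ₜ f (a i)) p q = _
  rw [matrixEquivTensor_apply_symm]
  show ι (b i) * algebraMap k Q (f (a i) p q) = _
  rw [← Algebra.commutes, ← Algebra.smul_def]

end Pool.Agent.Lib.MP_c37a72_al.LB
end

section
/-!
# MP_c37a72_al, block LB, module TER: `Q → M_n(Q)` for a representation of `H`, right version

`T₀ = (ι ⊗ f) Δ : H → Q ⊗ M_n(k) = M_n(Q)`. For `0 ≠ c ∈ Z(H)` the element `(id ⊗ f)(Δ c)` is left
regular on `H ⊗ M_n(k)` (`REGM.left_reg` for the homomorphism `f`), hence `T₀ c` on `Q ⊗ M_n(k)` (clear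
central denominators), and `M_n(Q)` is finite over `Z`.
-/
set_option autoImplicit false

open scoped TensorProduct
open Coalgebra HopfAlgebra

namespace Pool.Agent.Lib.MP_c37a72_al.LB

universe u v w

namespace TERM

section

variable {k : Type u} {H Z Q : Type v} [Field k] [Ring H] [IsDomain H] [HopfAlgebra k H]
  [Field Z] [Algebra k Z] [DivisionRing Q] [Algebra k Q] [Algebra Z Q] [IsScalarTower k Z Q]
  {ι : H →ₐ[k] Q}

/-- common denominators in the first factor -/
theorem den (hQ : IsCQ k H Z Q ι) {M : Type*} [Ring M] [Algebra k M] (w : Q ⊗[k] M) :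
    ∃ z : H, z ≠ 0 ∧ Cent z ∧ ∃ v : H ⊗[k] M,
      (ι z ⊗ₜ[k] 1) * w = ι.toLinearMap.rTensor M v := by
  induction w using TensorProduct.induction_on with
  | zero => exact ⟨1, one_ne_zero, fun x => by rw [mul_one, one_mul], 0, by simp⟩
  | tmul a b =>
    obtain ⟨c, h, hc0, hc, hch⟩ := hQ.frac a
    refine ⟨c, hc0, hc, h ⊗ₜ b, ?_⟩
    rw [Algebra.TensorProduct.tmul_mul_tmul, hch, one_mul, LinearMap.rTensor_tmul]
    rfl
  | add s t hs ht =>
    obtain ⟨z1, h1, hz1, v1, e1⟩ := hs
    obtain ⟨z2, h2, hz2, v2, e2⟩ := ht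
    refine ⟨z1 * z2, mul_ne_zero h1 h2, REGM.cent_mul hz1 hz2,
      (z2 ⊗ₜ 1) * v1 + (z1 ⊗ₜ 1) * v2, ?_⟩
    have key : ∀ (z : H) (v : H ⊗[k] M), ι.toLinearMap.rTensor M ((z ⊗ₜ 1) * v) =
        (ι z ⊗ₜ[k] 1) * ι.toLinearMap.rTensor M v := by
      intro z v
      exact map_mul (Algebra.TensorProduct.map ι (AlgHom.id k M)) (z ⊗ₜ 1) v
    have e3 : (ι (z1 * z2) ⊗ₜ[k] (1 : M)) = (ι z2 ⊗ₜ[k] 1) * (ι z1 ⊗ₜ[k] 1) := by
      rw [Algebra.TensorProduct.tmul_mul_tmul, ← map_mul, mul_one, hz1 z2]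
    have e4 : (ι (z1 * z2) ⊗ₜ[k] (1 : M)) = (ι z1 ⊗ₜ[k] 1) * (ι z2 ⊗ₜ[k] 1) := by
      rw [Algebra.TensorProduct.tmul_mul_tmul, ← map_mul, mul_one]
    rw [map_add, key, key, ← e1, ← e2, mul_add, ← mul_assoc, ← mul_assoc, ← e3, ← e4]

theorem cent_left (hQ : IsCQ k H Z Q ι) {M : Type*} [Ring M] [Algebra k M] {z : H} (hz : Cent z)
    (w : Q ⊗[k] M) : w * (ι z ⊗ₜ[k] 1) = (ι z ⊗ₜ[k] 1) * w := by
  induction w using TensorProduct.induction_on with
  | zero => simp
  | tmul a b =>
    rw [Algebra.TensorProduct.tmul_mul_tmul, Algebra.TensorProduct.tmul_mul_tmul,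
      REGM.cent_image hQ hz, mul_one, one_mul]
  | add s t hs ht => simp only [mul_add, add_mul, hs, ht]

theorem reg (hQ : IsCQ k H Z Q ι) {M : Type*} [Ring M] [Algebra k M] (f : H →ₐ[k] M) {c : H}
    (hc : c ≠ 0) (w : Q ⊗[k] M)
    (h : Algebra.TensorProduct.map ι f (comul (R := k) c) * w = 0) : w = 0 := by
  obtain ⟨z, hz0, hz, v, hv⟩ := den hQ w
  have hιz : ι z ≠ 0 := fun e => hz0 (hQ.inj (by rw [e, map_zero]))
  have h1 : Algebra.TensorProduct.map ι f (comul (R := k) c) * ι.toLinearMap.rTensor M v = 0 := by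
    rw [← hv, ← mul_assoc, cent_left hQ hz, mul_assoc, h, mul_zero]
  have h2 : ι.toLinearMap.rTensor M (f.toLinearMap.lTensor H (comul (R := k) c) * v) = 0 := by
    have e1 := map_mul (Algebra.TensorProduct.map ι (AlgHom.id k M))
      (f.toLinearMap.lTensor H (comul (R := k) c)) v
    have e2 : (Algebra.TensorProduct.map ι (AlgHom.id k M))
        (f.toLinearMap.lTensor H (comul (R := k) c)) =
        Algebra.TensorProduct.map ι f (comul (R := k) c) := by
      generalize comul (R := k) c = s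
      induction s using TensorProduct.induction_on with
      | zero => simp
      | tmul a b => simp
      | add s t hs ht => simp only [map_add, hs, ht]
    rw [e2] at e1
    exact e1.trans h1
  have h3 : Function.Injective (ι.toLinearMap.rTensor M) :=
    Module.Flat.rTensor_preserves_injective_linearMap _ hQ.inj
  have h4 : f.toLinearMap.lTensor H (comul (R := k) c) * v = 0 := h3 (by rw [h2, map_zero])
  have h5 : v = 0 := REGM.left_reg f hc v h4
  rw [h5, map_zero] at hv
  have h6 : ((ι z)⁻¹ ⊗ₜ[k] (1 : M)) * ((ι z ⊗ₜ[k] 1) * w) = w := by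
    rw [← mul_assoc, Algebra.TensorProduct.tmul_mul_tmul, inv_mul_cancel₀ hιz, one_mul,
      ← Algebra.TensorProduct.one_def, one_mul]
  rw [← h6, hv, mul_zero]

end

end TERM

open TERM in
theorem specTER : SpecTER.{u, v} := by
  intro k H Z Q _ _ _ _ _ _ _ _ _ _ ι hQ _ n f
  have := hQ.fin
  obtain ⟨jZ, hjZ⟩ := exists_jZ hQ (fun c hc q => REGM.cent_image hQ hc q)
  let e := matrixEquivTensor (Fin n) k Q
  let T0 : H →ₐ[k] Matrix (Fin n) (Fin n) Q :=
    e.symm.toAlgHom.comp ((Algebra.TensorProduct.map ι f).comp (Bialgebra.comulAlgHom k H))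
  have hT0 : ∀ h, T0 h = e.symm (Algebra.TensorProduct.map ι f (comul (R := k) h)) := fun h => rfl
  obtain ⟨T, hT⟩ := (isCL_H hQ hjZ).exists_lift (isFrc_jZ hQ hjZ) T0 (fun c hc => by
    refine isUnit_of_left_regular (F := Z) fun y hy => ?_
    have hc' : (c : H) ≠ 0 := fun h0 => hc (Subtype.ext h0)
    have h1 : Algebra.TensorProduct.map ι f (comul (R := k) (c : H)) * e y = 0 := by
      apply e.symm.injective
      rw [map_mul, map_zero, AlgEquiv.symm_apply_apply, ← hT0]
      exact hy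
    exact e.injective (by rw [reg hQ f hc' _ h1, map_zero]))
  refine ⟨T, ⟨fun h m a b hab p q => ?_⟩⟩
  rw [hT, hT0, hab, map_sum, map_sum, Matrix.sum_apply]
  refine Finset.sum_congr rfl fun i _ => ?_
  rw [Algebra.TensorProduct.map_tmul]
  show (matrixEquivTensor (Fin n) k Q).symm (ι (a i) ⊗ₜ f (b i)) p q = _
  rw [matrixEquivTensor_apply_symm]
  show ι (a i) * algebraMap k Q (f (b i) p q) = _
  rw [← Algebra.commutes, ← Algebra.smul_def]

end Pool.Agent.Lib.MP_c37a72_al.LB
end

section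
/-!
# XIP: independence is preserved by labels
-/
set_option autoImplicit false

open scoped TensorProduct
open Coalgebra HopfAlgebra

namespace Pool.Agent.Lib.MP_c37a72_al.LB

universe u v w

namespace XIPM

/-- `F ⊗ F` is integral over `Z ⊗ Z`. -/
theorem isIntegral_map (k : Type u) (Z F : Type v) [Field k] [Field Z] [Algebra k Z] [Field F]
    [Algebra k F] [Algebra Z F] [IsScalarTower k Z F] [Algebra.IsAlgebraic Z F] :
    (Algebra.TensorProduct.map (IsScalarTower.toAlgHom k Z F)
      (IsScalarTower.toAlgHom k Z F)).toRingHom.IsIntegral := by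
  intro b
  have hZ : ∀ a : F, ∃ p : Polynomial Z, p.Monic ∧ Polynomial.eval₂ (algebraMap Z F) a p = 0 :=
    fun a => (Algebra.IsAlgebraic.isAlgebraic (R := Z) a).isIntegral
  induction b using TensorProduct.induction_on with
  | zero => exact RingHom.isIntegralElem_zero _
  | add x y hx hy => exact hx.add _ hy
  | tmul a b =>
    have h1 : (a ⊗ₜ[k] b : F ⊗[k] F) = (a ⊗ₜ 1) * (1 ⊗ₜ b) := by
      rw [Algebra.TensorProduct.tmul_mul_tmul, mul_one, one_mul]
    rw [h1]
    refine RingHom.IsIntegralElem.mul _ ?_ ?_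
    · obtain ⟨p, hp, h0⟩ := hZ a
      refine ⟨p.map (Algebra.TensorProduct.includeLeft (R := k) (S := k) (A := Z)
        (B := Z)).toRingHom, hp.map _, ?_⟩
      rw [Polynomial.eval₂_map]
      have h2 : ((Algebra.TensorProduct.map (IsScalarTower.toAlgHom k Z F)
          (IsScalarTower.toAlgHom k Z F)).toRingHom.comp
          (Algebra.TensorProduct.includeLeft (R := k) (S := k) (A := Z) (B := Z)).toRingHom) =
          (Algebra.TensorProduct.includeLeft (R := k) (S := k) (A := F)
            (B := F)).toRingHom.comp (algebraMap Z F) := by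
        ext z
        simp
      have h3 : (a ⊗ₜ[k] (1 : F) : F ⊗[k] F) = (Algebra.TensorProduct.includeLeft (R := k)
        (S := k) (A := F) (B := F)).toRingHom a := rfl
      rw [h2, h3, ← Polynomial.hom_eval₂, h0, map_zero]
    · obtain ⟨p, hp, h0⟩ := hZ b
      refine ⟨p.map (Algebra.TensorProduct.includeRight (R := k) (A := Z)
        (B := Z)).toRingHom, hp.map _, ?_⟩
      rw [Polynomial.eval₂_map]
      have h2 : ((Algebra.TensorProduct.map (IsScalarTower.toAlgHom k Z F)
          (IsScalarTower.toAlgHom k Z F)).toRingHom.comp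
          (Algebra.TensorProduct.includeRight (R := k) (A := Z) (B := Z)).toRingHom) =
          (Algebra.TensorProduct.includeRight (R := k) (A := F)
            (B := F)).toRingHom.comp (algebraMap Z F) := by
        ext z
        simp
      have h3 : ((1 : F) ⊗ₜ[k] b : F ⊗[k] F) = (Algebra.TensorProduct.includeRight (R := k)
        (A := F) (B := F)).toRingHom b := rfl
      rw [h2, h3, ← Polynomial.hom_eval₂, h0, map_zero]

/-- a homomorphism from an integral extension domain, injective on the base, is injective -/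
theorem injective_of_integral {A B C : Type*} [CommRing A] [CommRing B] [IsDomain B] [Ring C]
    (i : A →+* B) (hi : i.IsIntegral) (hA : Nontrivial A) (φ : B →+* C)
    (h : Function.Injective (φ.comp i)) : Function.Injective φ := by
  let _ := i.toAlgebra
  have : Algebra.IsIntegral A B := ⟨hi⟩
  have hinj : Function.Injective i := fun a b hab => h (by
    show φ (i a) = φ (i b)
    rw [hab])
  have h1 : (RingHom.ker φ).comap (algebraMap A B) = ⊥ := by
    rw [eq_bot_iff]
    intro a ha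
    have h2 : φ (i a) = 0 := ha
    have h3 : (φ.comp i) a = (φ.comp i) 0 := by
      rw [map_zero]
      exact h2
    exact h h3
  have h2 := Ideal.eq_bot_of_comap_eq_bot h1
  rwa [RingHom.injective_iff_ker_eq_bot]

/-- `mu` as an algebra homomorphism -/
theorem mu_eq {k : Type u} {A B Ω : Type*} [Field k] [CommRing A] [Algebra k A] [CommRing B]
    [Algebra k B] [CommRing Ω] [Algebra k Ω] (f : A →ₐ[k] Ω) (g : B →ₐ[k] Ω) (t : A ⊗[k] B) :
    mu k f g t = Algebra.TensorProduct.productMap f g t := by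
  induction t using TensorProduct.induction_on with
  | zero => rw [map_zero, map_zero]
  | add x y hx hy => rw [map_add, map_add, hx, hy]
  | tmul a b => rw [mu_tmul, Algebra.TensorProduct.productMap_apply_tmul]

end XIPM

open XIPM in
/-- **XIP** -/
theorem specXIP : SpecXIP.{u, v} := by
  intro k Z F2 _ _ _ _ _ _ jF hF F _ _ _ _ _ _ Ω _ _ ξ xt yt hP
  set i := Algebra.TensorProduct.map (IsScalarTower.toAlgHom k Z F)
    (IsScalarTower.toAlgHom k Z F) with hi
  set φ := Algebra.TensorProduct.productMap xt yt with hφ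
  have hcomp : φ.comp i = ξ.comp jF := by
    ext a
    · have h := hP a 1
      rw [map_one, mul_one] at h
      simpa [hφ, hi] using h.symm
    · have h := hP 1 a
      rw [map_one, one_mul] at h
      simpa [hφ, hi] using h.symm
  have hinj : Function.Injective (φ.comp i) := by
    rw [hcomp]
    exact ξ.toRingHom.injective.comp hF.inj
  have : NoZeroDivisors (F ⊗[k] F) := noZeroDivisors_tensor k F F
  have : Nontrivial (F ⊗[k] F) := φ.toRingHom.domain_nontrivial
  have : Nontrivial (Z ⊗[k] Z) := (φ.comp i).toRingHom.domain_nontrivial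
  have : IsDomain (F ⊗[k] F) := NoZeroDivisors.to_isDomain _
  have hφi : Function.Injective φ :=
    injective_of_integral i.toRingHom (isIntegral_map k Z F) inferInstance φ.toRingHom hinj
  refine ⟨?_, ?_⟩
  · intro s t hst
    rw [mu_eq, mu_eq] at hst
    exact hφi hst
  · intro σ τ
    have hii : Function.Injective i := fun a b hab => hinj (by
      show φ (i a) = φ (i b)
      rw [hab])
    let e : F ⊗[k] F ≃ₐ[k] F ⊗[k] F := Algebra.TensorProduct.congr σ τ
    obtain ⟨ξ', hξ'⟩ := hF.exists_lift ((φ.comp e.toAlgHom).comp i)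
      (hφi.comp (e.injective.comp hii))
    refine ⟨ξ', fun a b => ?_⟩
    rw [hξ']
    show φ (e (i (a ⊗ₜ b))) = _
    rw [hi, Algebra.TensorProduct.map_tmul]
    show φ (Algebra.TensorProduct.congr σ τ _) = _
    rw [Algebra.TensorProduct.congr_apply, Algebra.TensorProduct.map_tmul, hφ,
      Algebra.TensorProduct.productMap_apply_tmul]
    rfl

end Pool.Agent.Lib.MP_c37a72_al.LB
end

section
/-!
# MP_c37a72_al, block LB: all modules, without hypotheses
-/
set_option autoImplicit false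

namespace Pool.Agent.Lib.MP_c37a72_al.LB.All

universe u v w

theorem hHAN : SpecHAN.{u, v} := Pool.Agent.Lib.MP_c37a72_al.specHAN
theorem hADA : EG.SpecADA.{u, v} := EG.specADA
theorem hADB : EG.SpecADB.{u, v} := EG.specADB hHAN
theorem hOLF : EG.SpecOLF.{u, v} := EG.specOLF hADA hADB
theorem hJD : SpecJD.{v} := specJD
theorem hEXT : SpecEXT.{u, v} := specEXT
theorem hKEX : SpecKEX.{u, v} := specKEX hEXT
theorem hR2X : SpecR2X.{u, v} := specR2X
theorem hE0X : SpecE0X.{u, v} := specE0X hADA hOLF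
theorem hR2S : SpecR2S.{u, v} := specR2S hJD
theorem hDCT : SpecDCT.{v} := specDCT
theorem hMK : SpecMK.{u, v} := specMK hDCT hR2S
theorem hMIS : SpecMIS.{u, v} := specMIS
theorem hBIF : SpecBIF.{u, v} := specBIF hHAN
theorem hLEG : SpecLEG.{u, v} := specLEG hOLF hHAN
theorem hM2D : SpecM2D.{u, v} := specM2D hBIF hLEG
theorem hR11 : SpecR11.{u, v} := specR11 hJD
theorem hR12 : SpecR12.{u, v} := specR12 hKEX
theorem hSYM : SpecSYM.{u, v} := specSYM hR11 hR12
theorem hALG : SpecALG.{u, v} := specALG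
theorem hLAB : SpecLAB.{u, v} := specLAB hALG
theorem hLCL : SpecLCL.{u, v} := specLCL
theorem hSTM : SpecSTM.{u, v} := specSTM hKEX
theorem hFIN : SpecFIN.{u, v} := specFIN
theorem hXIP : SpecXIP.{u, v} := specXIP
theorem hTEL : SpecTEL.{u, v} := specTEL
theorem hTER : SpecTER.{u, v} := specTER
theorem hRTL : SpecRTL.{u, v} := specRTL hADB hMIS
theorem hRTR : SpecRTR.{u, v} := specRTR hADB hMIS
theorem hTAL : SpecTAL.{u, v} := specTAL
theorem hTAR : SpecTAR.{u, v} := specTAR
theorem hCHL : SpecCHL.{u, v} := specCHL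
theorem hCHR : SpecCHR.{u, v} := specCHR
theorem hR13 : SpecR13.{u, v} := specR13 hKEX
theorem hR1L : SpecR1L.{u, v} := specR1L hADA hR2S hTEL hTAL hRTL hCHL hR13
theorem hR1R : SpecR1R.{u, v} := specR1R hADA hR2S hTER hTAR hRTR hCHR hR13

end Pool.Agent.Lib.MP_c37a72_al.LB.All
end

section
/-!
# MP_c37a72_al, block KC: assembly of all the modules
-/
set_option autoImplicit false

namespace Pool.Agent.Lib.MP_c37a72_al.KC

universe u v w

theorem allAIV : SpecAIV.{u, v, w} := specAIV EG.allADA EG.allOPP CO.allCOP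
theorem allTHG : SpecTHG.{u, v, w} := specTHG
theorem allKCL : SpecKCL.{u, v} := specKCL LB.All.hE0X LB.All.hM2D
theorem allRCT : SpecRCT.{u, v} := specRCT specHAN EG.allADA CO.allADS
theorem allPSB : SpecPSB.{u, v, w} := specPSB
theorem allJNI : SpecJNI.{u, v, w} := specJNI
theorem allBET : SpecBET.{u, v, w} := specBET EG.allCOO
theorem allIND : SpecIND.{u, v, w} := specIND allAIV CO.allCOP
theorem allHAU : SpecHAU.{u, v, w} := specHAU allAIV allTHG allIND
theorem allMGM : SpecMGM.{u, v, w} := specMGM allRCT allAIV CO.allRES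
theorem allMIN : SpecMIN.{u, v, w} := specMIN allHAU allJNI allPSB
theorem allFLD : SpecFLD.{u, v, w} :=
  specFLD CO.allRES CO.specSQX allTHG allRCT allMGM allMIN allKCL LB.All.hR2S
theorem allDKG : SpecDKG.{u, v} := specDKG CO.specSQX CO.allDES allKCL
theorem allDM2 : SpecDM2.{u, v} := specDM2 EG.allOLF CO.specDCT
theorem allCDM : SpecCDM.{u, v} := specCDM LB.All.hR2S specDCD allDKG allDM2
theorem allALK : SpecALK.{u, v} := specALK CO.allUNI CO.specBAS
theorem allKDT : SpecKDT.{u, v} := specKDT allKCL allRCT CO.allRES CO.allUNI CO.specBAS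
theorem allKTH : SpecKTH.{u, v, w} := specKTH CO.allRES allPSB allBET allHAU allKCL allALK

/-- The output of the block KC. -/
theorem allKCA : SpecKCA.{u, v, w} :=
  specKCA allFLD allCDM allTHG allPSB allKTH allKDT allKCL CO.allDES

end Pool.Agent.Lib.MP_c37a72_al.KC
end
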